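import Pool.Agent.W_aaa0df_t9.Defs

/-!
# T9, G1: Gallagher's larger sieve in abstract form, and abundance of correlated pairs of primes
-/

set_option autoImplicit false

namespace T9

open Finset

/-- Cauchy-Schwarz over the classes -/
theorem G1_cs {α γ : Type*} [DecidableEq α] [DecidableEq γ] (A : Finset α) (E : α → Prop)
    [DecidablePred E] (cls : α → γ) (V : ℝ) (hV : 0 ≤ V)
    (h1 : (((A.filter E).image cls).card : ℝ) ≤ V) :
    ((A.filter E).card : ℝ) ^ 2 ≤
      V * ∑ a ∈ A, ∑ a' ∈ A, (if E a ∧ E a' ∧ cls a = cls a' then (1 : ℝ) else 0) := by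
  classical
  set F := A.filter E with hF
  set I := F.image cls with hI
  have hcard : (F.card : ℝ) = ∑ y ∈ I, ((F.filter (fun a => cls a = y)).card : ℝ) := by
    have := Finset.card_eq_sum_card_image cls F
    rw [this]
    push_cast
    rfl
  have hsq : (F.card : ℝ) ^ 2 ≤ I.card * ∑ y ∈ I, ((F.filter (fun a => cls a = y)).card : ℝ) ^ 2 := by
    rw [hcard]
    exact sq_sum_le_card_mul_sum_sq
  have hpairs : ∑ y ∈ I, ((F.filter (fun a => cls a = y)).card : ℝ) ^ 2 ≤
      ∑ a ∈ A, ∑ a' ∈ A, (if E a ∧ E a' ∧ cls a = cls a' then (1 : ℝ) else 0) := by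
    have e0 : ∀ y ∈ I, ((F.filter (fun a => cls a = y)).card : ℝ) ^ 2 =
        ∑ a ∈ F, ∑ a' ∈ F, (if cls a = y ∧ cls a' = y then (1 : ℝ) else 0) := by
      intro y _
      have e1 : ((F.filter (fun a => cls a = y)).card : ℝ) =
          ∑ a ∈ F, (if cls a = y then (1 : ℝ) else 0) := by
        rw [Finset.card_filter]
        push_cast
        rfl
      rw [e1, sq, Finset.sum_mul_sum]
      refine Finset.sum_congr rfl fun a _ => Finset.sum_congr rfl fun a' _ => ?_
      by_cases ha : cls a = y <;> by_cases ha' : cls a' = y <;> simp [ha, ha']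
    rw [Finset.sum_congr rfl e0, Finset.sum_comm]
    have e2 : ∀ a ∈ F, ∑ y ∈ I, ∑ a' ∈ F, (if cls a = y ∧ cls a' = y then (1 : ℝ) else 0) =
        ∑ a' ∈ F, (if cls a = cls a' then (1 : ℝ) else 0) := by
      intro a ha
      rw [Finset.sum_comm]
      refine Finset.sum_congr rfl fun a' ha' => ?_
      have hmem : cls a ∈ I := Finset.mem_image_of_mem _ ha
      rw [Finset.sum_eq_single (cls a)]
      · by_cases h : cls a = cls a'
        · rw [if_pos ⟨rfl, h.symm⟩, if_pos h]
        · rw [if_neg (fun hh => h hh.2.symm), if_neg h]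
      · intro y _ hy
        rw [if_neg (fun hh => hy hh.1.symm)]
      · intro hh
        exact absurd hmem hh
    rw [Finset.sum_congr rfl e2]
    have e3 : ∑ a ∈ F, ∑ a' ∈ F, (if cls a = cls a' then (1 : ℝ) else 0) =
        ∑ a ∈ A, ∑ a' ∈ A, (if E a ∧ E a' ∧ cls a = cls a' then (1 : ℝ) else 0) := by
      rw [hF, Finset.sum_filter]
      refine Finset.sum_congr rfl fun a _ => ?_
      by_cases ha : E a
      · rw [if_pos ha, Finset.sum_filter]
        refine Finset.sum_congr rfl fun a' _ => ?_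
        by_cases ha' : E a' <;> simp [ha, ha']
      · rw [if_neg ha]
        symm
        apply Finset.sum_eq_zero
        intro a' _
        rw [if_neg (fun hh => ha hh.1)]
    exact le_of_eq e3
  have hnn : 0 ≤ ∑ y ∈ I, ((F.filter (fun a => cls a = y)).card : ℝ) ^ 2 :=
    Finset.sum_nonneg fun _ _ => by positivity
  calc (F.card : ℝ) ^ 2 ≤ I.card * ∑ y ∈ I, ((F.filter (fun a => cls a = y)).card : ℝ) ^ 2 := hsq
    _ ≤ V * ∑ y ∈ I, ((F.filter (fun a => cls a = y)).card : ℝ) ^ 2 :=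
        mul_le_mul_of_nonneg_right h1 hnn
    _ ≤ _ := mul_le_mul_of_nonneg_left hpairs hV

/-- Gallagher's larger sieve, abstract form: `A` finite set of objects, `Q` finite set of moduli,
`E a q` = the object `a` is caught by the modulus `q`, `cls q a` = the class of `a` modulo `q`.

PROOF. For `q ∈ Q` let `A_q = A.filter (E · q)`, `M_q` its cardinality. By Cauchy-Schwarz over the
classes (`Finset.card_eq_sum_card_image`, `inner_mul_le_norm_mul_norm` or
`Finset.sum_mul_sq_le_sq_mul_sq` / `sq_sum_le_card_mul_sum_sq`),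
`M_q ^ 2 ≤ V * #{(a, a') ∈ A_q × A_q : cls q a = cls q a'}`. Sum over `q ∈ Q`: the pairs with `a = a'`
contribute at most `|A| |Q|`, the pairs `a ≠ a'` at most `|A|² Ω` (exchange the sums and `h3`). So
`∑_q M_q ^ 2 ≤ V (|A| |Q| + |A|² Ω)`. On the other hand `∑_q M_q ≥ c |Q| |A|` by `h2` (exchange), and
Cauchy-Schwarz gives `c² |Q|² |A|² ≤ |Q| ∑_q M_q ^ 2`; divide by `|Q|` (if `|Q| = 0` the claim is
trivial, the left side being `0`, the right side nonnegative: `Ω ≥ 0` may be assumed, as for `|A| ≥ 2`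
it follows from `h3`, and for `|A| ≤ 1` ... we simply assume `0 ≤ Ω`). -/
theorem gallagher {α β γ : Type*} [DecidableEq α] [DecidableEq β] [DecidableEq γ]
    (A : Finset α) (Q : Finset β) (E : α → β → Prop) [∀ a q, Decidable (E a q)]
    (cls : β → α → γ) (V Ω c : ℝ) (hV : 0 ≤ V) (hΩ : 0 ≤ Ω) (hc : 0 ≤ c)
    (h1 : ∀ q ∈ Q, (((A.filter (fun a => E a q)).image (cls q)).card : ℝ) ≤ V)
    (h2 : ∀ a ∈ A, c * Q.card ≤ (Q.filter (fun q => E a q)).card)
    (h3 : ∀ a ∈ A, ∀ a' ∈ A, a ≠ a' →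
      ((Q.filter (fun q => E a q ∧ E a' q ∧ cls q a = cls q a')).card : ℝ) ≤ Ω) :
    c ^ 2 * Q.card * (A.card : ℝ) ^ 2 ≤ V * ((A.card : ℝ) * Q.card + (A.card : ℝ) ^ 2 * Ω) := by
  rcases Nat.eq_zero_or_pos Q.card with hQ0 | hQ0
  · rw [hQ0]
    have : 0 ≤ V * ((A.card : ℝ) * ((0 : ℕ) : ℝ) + (A.card : ℝ) ^ 2 * Ω) := by positivity
    simpa using this
  have hQpos : (0 : ℝ) < Q.card := by exact_mod_cast hQ0
  -- first step: for each `q`
  have step1 : ∀ q ∈ Q, (((A.filter (fun a => E a q)).card : ℝ)) ^ 2 ≤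
      V * ∑ a ∈ A, ∑ a' ∈ A, (if E a q ∧ E a' q ∧ cls q a = cls q a' then (1 : ℝ) else 0) :=
    fun q hq => G1_cs A (fun a => E a q) (cls q) V hV (h1 q hq)
  -- sum over q
  have step2 : ∑ q ∈ Q, (((A.filter (fun a => E a q)).card : ℝ)) ^ 2 ≤
      V * ((A.card : ℝ) * Q.card + (A.card : ℝ) ^ 2 * Ω) := by
    calc ∑ q ∈ Q, (((A.filter (fun a => E a q)).card : ℝ)) ^ 2
        ≤ ∑ q ∈ Q, V * ∑ a ∈ A, ∑ a' ∈ A,
            (if E a q ∧ E a' q ∧ cls q a = cls q a' then (1 : ℝ) else 0) :=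
          Finset.sum_le_sum step1
      _ = V * ∑ a ∈ A, ∑ a' ∈ A, ∑ q ∈ Q,
            (if E a q ∧ E a' q ∧ cls q a = cls q a' then (1 : ℝ) else 0) := by
          rw [← Finset.mul_sum, Finset.sum_comm]
          congr 1
          refine Finset.sum_congr rfl fun a _ => ?_
          rw [Finset.sum_comm]
      _ ≤ V * ((A.card : ℝ) * Q.card + (A.card : ℝ) ^ 2 * Ω) := by
          refine mul_le_mul_of_nonneg_left ?_ hV
          calc ∑ a ∈ A, ∑ a' ∈ A, ∑ q ∈ Q,
                (if E a q ∧ E a' q ∧ cls q a = cls q a' then (1 : ℝ) else 0)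
              ≤ ∑ a ∈ A, ∑ a' ∈ A, ((if a = a' then (Q.card : ℝ) else 0) + Ω) := by
                refine Finset.sum_le_sum fun a ha => Finset.sum_le_sum fun a' ha' => ?_
                have e : ∑ q ∈ Q, (if E a q ∧ E a' q ∧ cls q a = cls q a' then (1 : ℝ) else 0) =
                    ((Q.filter (fun q => E a q ∧ E a' q ∧ cls q a = cls q a')).card : ℝ) := by
                  rw [Finset.card_filter]
                  push_cast
                  rfl
                rw [e]
                by_cases hh : a = a'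
                · rw [if_pos hh]
                  have : ((Q.filter (fun q => E a q ∧ E a' q ∧ cls q a = cls q a')).card : ℝ) ≤
                      Q.card := by
                    exact_mod_cast Finset.card_filter_le _ _
                  linarith
                · rw [if_neg hh, zero_add]
                  exact h3 a ha a' ha' hh
            _ = (A.card : ℝ) * Q.card + (A.card : ℝ) ^ 2 * Ω := by
                have : ∀ a ∈ A, ∑ a' ∈ A, ((if a = a' then (Q.card : ℝ) else 0) + Ω) =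
                    Q.card + A.card * Ω := by
                  intro a ha
                  rw [Finset.sum_add_distrib, Finset.sum_ite_eq, if_pos ha, Finset.sum_const,
                    nsmul_eq_mul]
                rw [Finset.sum_congr rfl this, Finset.sum_const, nsmul_eq_mul]
                ring
  -- lower bound for the sum of the M_q
  have step3 : c * Q.card * A.card ≤ ∑ q ∈ Q, ((A.filter (fun a => E a q)).card : ℝ) := by
    have e : ∑ q ∈ Q, ((A.filter (fun a => E a q)).card : ℝ) =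
        ∑ a ∈ A, ((Q.filter (fun q => E a q)).card : ℝ) := by
      have e1 : ∀ q ∈ Q, ((A.filter (fun a => E a q)).card : ℝ) =
          ∑ a ∈ A, (if E a q then (1 : ℝ) else 0) := by
        intro q _
        rw [Finset.card_filter]
        push_cast
        rfl
      have e2 : ∀ a ∈ A, ((Q.filter (fun q => E a q)).card : ℝ) =
          ∑ q ∈ Q, (if E a q then (1 : ℝ) else 0) := by
        intro q _
        rw [Finset.card_filter]
        push_cast
        rfl
      rw [Finset.sum_congr rfl e1, Finset.sum_congr rfl e2, Finset.sum_comm]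
    rw [e]
    calc c * Q.card * A.card = ∑ a ∈ A, c * (Q.card : ℝ) := by
          rw [Finset.sum_const, nsmul_eq_mul]; ring
      _ ≤ _ := Finset.sum_le_sum h2
  have step4 : (∑ q ∈ Q, ((A.filter (fun a => E a q)).card : ℝ)) ^ 2 ≤
      Q.card * ∑ q ∈ Q, (((A.filter (fun a => E a q)).card : ℝ)) ^ 2 := by
    exact sq_sum_le_card_mul_sum_sq
  have h0 : 0 ≤ c * Q.card * (A.card : ℝ) := by positivity
  have step5 : (c * Q.card * (A.card : ℝ)) ^ 2 ≤
      Q.card * (V * ((A.card : ℝ) * Q.card + (A.card : ℝ) ^ 2 * Ω)) := by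
    calc (c * Q.card * (A.card : ℝ)) ^ 2
        ≤ (∑ q ∈ Q, ((A.filter (fun a => E a q)).card : ℝ)) ^ 2 := by
          exact pow_le_pow_left₀ h0 step3 2
      _ ≤ _ := step4
      _ ≤ _ := mul_le_mul_of_nonneg_left step2 hQpos.le
  have : (Q.card : ℝ) * (c ^ 2 * Q.card * (A.card : ℝ) ^ 2) ≤
      Q.card * (V * ((A.card : ℝ) * Q.card + (A.card : ℝ) ^ 2 * Ω)) := by
    calc (Q.card : ℝ) * (c ^ 2 * Q.card * (A.card : ℝ) ^ 2) = (c * Q.card * (A.card : ℝ)) ^ 2 := by
          ring
      _ ≤ _ := step5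
  exact le_of_mul_le_mul_left this hQpos

/-- If for a proportion `η` of the `b ∈ B` the sum `∑ p ∈ P, x b p` is at least `c₀ |P|` in absolute
value, then for many pairs `(p, q)` the correlation `∑ b ∈ B, x b p * x b q` is large.

PROOF. `∑_{b ∈ B} (∑_{p ∈ P} x b p)² ≥ η |B| c₀² |P|²`, and the left side is
`∑_{(p,q) ∈ P × P} s(p,q)`, `s(p,q) = ∑_b x b p * x b q`, `|s| ≤ |B|`. Let `R` be the number of pairs
with `|s| ≥ (η c₀²/2)|B|`. Then `η c₀² |B| |P|² ≤ R |B| + |P|² (η c₀²/2)|B|`; divide by `|B| > 0`. -/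
theorem abundant {ι : Type*} [DecidableEq ι] (B : Finset ι) (hB : B.Nonempty) (P : Finset ℕ)
    (x : ι → ℕ → ℝ) (hx : ∀ b p, |x b p| ≤ 1) (c₀ η : ℝ) (hc0 : 0 ≤ c₀) (hη : 0 ≤ η)
    (h : η * B.card ≤ ((B.filter (fun b => c₀ * P.card ≤ |∑ p ∈ P, x b p|)).card : ℝ)) :
    (η * c₀ ^ 2 / 2) * (P.card : ℝ) ^ 2 ≤
      (((P ×ˢ P).filter (fun w => (η * c₀ ^ 2 / 2) * B.card ≤
        |∑ b ∈ B, x b w.1 * x b w.2|)).card : ℝ) := by
  classical
  have hBpos : (0 : ℝ) < B.card := by exact_mod_cast hB.card_pos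
  set t : ℝ := η * c₀ ^ 2 / 2 with ht
  have ht0 : 0 ≤ t := by positivity
  set s : ℕ × ℕ → ℝ := fun w => ∑ b ∈ B, x b w.1 * x b w.2 with hs
  set R := (P ×ˢ P).filter (fun w => t * B.card ≤ |s w|) with hR
  -- the total
  have htot : ∑ w ∈ P ×ˢ P, s w = ∑ b ∈ B, (∑ p ∈ P, x b p) ^ 2 := by
    rw [hs, Finset.sum_comm]
    refine Finset.sum_congr rfl fun b _ => ?_
    rw [sq, Finset.sum_mul_sum, Finset.sum_product]
  have hlow : (η * B.card) * (c₀ * P.card) ^ 2 ≤ ∑ b ∈ B, (∑ p ∈ P, x b p) ^ 2 := by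
    calc (η * B.card) * (c₀ * P.card) ^ 2
        ≤ ((B.filter (fun b => c₀ * P.card ≤ |∑ p ∈ P, x b p|)).card : ℝ) * (c₀ * P.card) ^ 2 :=
          mul_le_mul_of_nonneg_right h (by positivity)
      _ = ∑ b ∈ B.filter (fun b => c₀ * P.card ≤ |∑ p ∈ P, x b p|), (c₀ * (P.card : ℝ)) ^ 2 := by
          rw [Finset.sum_const, nsmul_eq_mul]
      _ ≤ ∑ b ∈ B.filter (fun b => c₀ * P.card ≤ |∑ p ∈ P, x b p|), (∑ p ∈ P, x b p) ^ 2 := by
          refine Finset.sum_le_sum fun b hb => ?_
          have h1 := (Finset.mem_filter.mp hb).2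
          rw [← sq_abs (∑ p ∈ P, x b p)]
          exact pow_le_pow_left₀ (by positivity) h1 2
      _ ≤ ∑ b ∈ B, (∑ p ∈ P, x b p) ^ 2 :=
          Finset.sum_le_sum_of_subset_of_nonneg (Finset.filter_subset _ _)
            (fun _ _ _ => by positivity)
  have hsle : ∀ w, |s w| ≤ B.card := by
    intro w
    calc |s w| ≤ ∑ b ∈ B, |x b w.1 * x b w.2| := Finset.abs_sum_le_sum_abs _ _
      _ ≤ ∑ b ∈ B, (1 : ℝ) := by
          refine Finset.sum_le_sum fun b _ => ?_
          rw [abs_mul]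
          calc |x b w.1| * |x b w.2| ≤ 1 * 1 :=
                mul_le_mul (hx _ _) (hx _ _) (abs_nonneg _) zero_le_one
            _ = 1 := one_mul 1
      _ = B.card := by simp
  have hup : ∑ w ∈ P ×ˢ P, s w ≤ R.card * B.card + (P.card : ℝ) ^ 2 * (t * B.card) := by
    calc ∑ w ∈ P ×ˢ P, s w ≤ ∑ w ∈ P ×ˢ P, ((if t * B.card ≤ |s w| then (B.card : ℝ) else 0)
          + t * B.card) := by
          refine Finset.sum_le_sum fun w _ => ?_
          by_cases hw : t * B.card ≤ |s w|
          · rw [if_pos hw]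
            have h1 := hsle w
            have h2 := le_abs_self (s w)
            have h3 : 0 ≤ t * B.card := by positivity
            linarith
          · rw [if_neg hw]
            push Not at hw
            have h2 := le_abs_self (s w)
            linarith
      _ = R.card * B.card + (P.card : ℝ) ^ 2 * (t * B.card) := by
          rw [Finset.sum_add_distrib, ← Finset.sum_filter, Finset.sum_const, Finset.sum_const,
            nsmul_eq_mul, nsmul_eq_mul, Finset.card_product]
          push_cast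
          ring
  have hfin : (t * (P.card : ℝ) ^ 2) * B.card ≤ R.card * B.card := by
    have h1 : (η * B.card) * (c₀ * P.card) ^ 2 = 2 * (t * (P.card : ℝ) ^ 2) * B.card := by
      rw [ht]; ring
    have h2 := hlow.trans (htot ▸ hup)
    rw [h1] at h2
    nlinarith
  exact le_of_mul_le_mul_right hfin hBpos

/-- Prime divisors in a set of primes `≥ z`: their number is at most `log m / log z`.

PROOF. The product of the `k` primes in `P` dividing `m ≠ 0` divides `m`
(`Finset.prod_primes_dvd`), so `z ^ k ≤ |m| ≤ D`, `k log z ≤ log D`. -/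
theorem omega_P {m : ℤ} (hm : m ≠ 0) {D z : ℝ} (hz : 1 < z) (hD : |(m : ℝ)| ≤ D) (P : Finset ℕ)
    (hP : ∀ p ∈ P, p.Prime ∧ z ≤ (p : ℝ)) :
    ((P.filter (fun p : ℕ => (p : ℤ) ∣ m)).card : ℝ) ≤ Real.log D / Real.log z := by
  set F := P.filter (fun p : ℕ => (p : ℤ) ∣ m) with hF
  have hdvd : ∏ p ∈ F, p ∣ m.natAbs := by
    apply Finset.prod_primes_dvd
    · intro p hp
      exact (hP p (Finset.mem_filter.mp hp).1).1.prime
    · intro p hp
      exact Int.natCast_dvd.mp (Finset.mem_filter.mp hp).2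
  have hle : ∏ p ∈ F, p ≤ m.natAbs := Nat.le_of_dvd (Int.natAbs_pos.mpr hm) hdvd
  have hle2 : ((∏ p ∈ F, p : ℕ) : ℝ) ≤ D := by
    have h1 : ((∏ p ∈ F, p : ℕ) : ℝ) ≤ (m.natAbs : ℝ) := by exact_mod_cast hle
    have h2 : (m.natAbs : ℝ) = |(m : ℝ)| := by
      rw [Nat.cast_natAbs, Int.cast_abs]
    rw [h2] at h1
    exact h1.trans hD
  have hpow : z ^ F.card ≤ ((∏ p ∈ F, p : ℕ) : ℝ) := by
    push_cast
    calc z ^ F.card = ∏ p ∈ F, z := by rw [Finset.prod_const]
      _ ≤ ∏ p ∈ F, (p : ℝ) := by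
          refine Finset.prod_le_prod (fun _ _ => by linarith) fun p hp => ?_
          exact (hP p (Finset.mem_filter.mp hp).1).2
  have hlog : (F.card : ℝ) * Real.log z ≤ Real.log D := by
    have h1 : z ^ F.card ≤ D := hpow.trans hle2
    have h2 : (0 : ℝ) < z ^ F.card := by positivity
    have h3 := Real.log_le_log h2 h1
    rwa [Real.log_pow] at h3
  rw [le_div_iff₀ (Real.log_pos hz)]
  exact hlog

end T9
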