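import Pool.Agent.W_aaa0df_t9.W2
import Pool.Agent.W_aaa0df_t9.G1

/-!
# T9, G2: the block lemma

`B` a block of vectors, `P` a finite set of good primes, `A` a set of vectors each of which sees a
proportion `η` of the block with a bias `c₀ |P|`; conclusion: `A` is small.
-/

set_option autoImplicit false

namespace T9

open Finset

/-- The pairs `(p, q)` that catch the vector `a`: many.

PROOF. Apply `abundant` with `x b p = jacobiSym (dt a b) p` (values in `{-1, 0, 1}`); among the pairs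
`(p, q) ∈ P × P` found there, at most `|P|` have `p = q`, and at most `2 ω |P|` have `p ∣ a.2` or
`q ∣ a.2`, where `ω` bounds the number of `p ∈ P` dividing `a.2` (`hω`). By `hbig` these are at most
`(η c₀²/4)|P|²`. -/
theorem pairs_abundant (B : Finset (ℤ × ℤ)) (hB : B.Nonempty) (P : Finset ℕ)
    (a : ℤ × ℤ) (c₀ η ω : ℝ) (hc0 : 0 < c₀) (hη : 0 < η)
    (hω : ((P.filter (fun p : ℕ => (p : ℤ) ∣ a.2)).card : ℝ) ≤ ω)
    (hbig : 1 + 2 * ω ≤ (η * c₀ ^ 2 / 4) * P.card)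
    (h : η * B.card ≤ ((B.filter (fun b => c₀ * P.card ≤
      |∑ p ∈ P, (jacobiSym (dt a b) p : ℝ)|)).card : ℝ)) :
    (η * c₀ ^ 2 / 4) * (P.card : ℝ) ^ 2 ≤
      (((P ×ˢ P).filter (fun w => w.1 ≠ w.2 ∧ ¬ (w.1 : ℤ) ∣ a.2 ∧ ¬ (w.2 : ℤ) ∣ a.2 ∧
        (η * c₀ ^ 2 / 2) * B.card ≤ |S B a w.1 w.2|)).card : ℝ) := by
  have hx : ∀ (b : ℤ × ℤ) (p : ℕ), |(jacobiSym (dt a b) p : ℝ)| ≤ 1 := by
    intro b p
    rcases jacobiSym.trichotomy (dt a b) p with h0 | h0 | h0 <;> rw [h0] <;> simp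
  have hab := abundant B hB P (fun b p => (jacobiSym (dt a b) p : ℝ)) hx c₀ η hc0.le hη.le h
  set R := (P ×ˢ P).filter (fun w : ℕ × ℕ => (η * c₀ ^ 2 / 2) * B.card ≤
        |∑ b ∈ B, (jacobiSym (dt a b) w.1 : ℝ) * (jacobiSym (dt a b) w.2 : ℝ)|) with hR
  set G := (P ×ˢ P).filter (fun w : ℕ × ℕ => w.1 ≠ w.2 ∧ ¬ (w.1 : ℤ) ∣ a.2 ∧ ¬ (w.2 : ℤ) ∣ a.2 ∧
        (η * c₀ ^ 2 / 2) * B.card ≤ |S B a w.1 w.2|) with hG
  set Z := P.filter (fun p : ℕ => (p : ℤ) ∣ a.2) with hZ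
  have hsub : R ⊆ G ∪ (P.image (fun p => (p, p)) ∪ (Z ×ˢ P ∪ P ×ˢ Z)) := by
    intro w hw
    rw [hR, mem_filter, mem_product] at hw
    obtain ⟨⟨h1, h2⟩, h3⟩ := hw
    by_cases e : w.1 = w.2
    · refine mem_union_right _ (mem_union_left _ ?_)
      rw [mem_image]
      exact ⟨w.1, h1, by ext <;> simp [e]⟩
    by_cases e1 : (w.1 : ℤ) ∣ a.2
    · refine mem_union_right _ (mem_union_right _ (mem_union_left _ ?_))
      rw [mem_product, hZ, mem_filter]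
      exact ⟨⟨h1, e1⟩, h2⟩
    by_cases e2 : (w.2 : ℤ) ∣ a.2
    · refine mem_union_right _ (mem_union_right _ (mem_union_right _ ?_))
      rw [mem_product, hZ, mem_filter]
      exact ⟨h1, ⟨h2, e2⟩⟩
    · refine mem_union_left _ ?_
      rw [hG, mem_filter, mem_product]
      exact ⟨⟨h1, h2⟩, e, e1, e2, h3⟩
  have hcard : (R.card : ℝ) ≤ G.card + (P.card + (Z.card * P.card + P.card * Z.card)) := by
    have h1 := card_le_card hsub
    have h2 := card_union_le G (P.image (fun p => (p, p)) ∪ (Z ×ˢ P ∪ P ×ˢ Z))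
    have h3 := card_union_le (P.image (fun p => (p, p))) (Z ×ˢ P ∪ P ×ˢ Z)
    have h4 := card_union_le (Z ×ˢ P) (P ×ˢ Z)
    have h5 : (P.image (fun p => (p, p))).card ≤ P.card := card_image_le
    rw [card_product, card_product] at h4
    exact_mod_cast (by omega : R.card ≤ G.card + (P.card + (Z.card * P.card + P.card * Z.card)))
  have hP0 : (0 : ℝ) ≤ P.card := Nat.cast_nonneg _
  have h6 : (Z.card : ℝ) * P.card ≤ ω * P.card := mul_le_mul_of_nonneg_right hω hP0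
  have h7 : (1 + 2 * ω) * P.card ≤ (η * c₀ ^ 2 / 4) * P.card * P.card :=
    mul_le_mul_of_nonneg_right hbig hP0
  nlinarith [hab, hcard, h6, h7]

/-- Same class modulo `p` means `p ∣ cr a a'`.

PROOF. `a.1 / a.2 = a'.1 / a'.2` in the field `ZMod p` with `a.2, a'.2 ≠ 0`. -/
theorem dvd_cr_of_class (p : ℕ) (hp : p.Prime) (a a' : ℤ × ℤ) (h : ¬ (p : ℤ) ∣ a.2)
    (h' : ¬ (p : ℤ) ∣ a'.2)
    (he : ((a.1 : ZMod p) * (a.2 : ZMod p)⁻¹ : ZMod p) = ((a'.1 : ZMod p) * (a'.2 : ZMod p)⁻¹)) :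
    (p : ℤ) ∣ cr a a' := by
  haveI := Fact.mk hp
  have h1 : (a.2 : ZMod p) ≠ 0 := by
    rw [Ne, ZMod.intCast_zmod_eq_zero_iff_dvd]; exact h
  have h2 : (a'.2 : ZMod p) ≠ 0 := by
    rw [Ne, ZMod.intCast_zmod_eq_zero_iff_dvd]; exact h'
  rw [← ZMod.intCast_zmod_eq_zero_iff_dvd]
  unfold cr
  push_cast
  rw [← div_eq_mul_inv, ← div_eq_mul_inv, div_eq_div_iff h1 h2] at he
  rw [he]; ring

/-- THE BLOCK LEMMA.

PROOF. Put `c = η c₀²/2`, `Q = P × P`, `E a (p,q)` = (`p ≠ q`, `p, q ∤ a.2`, `|S B a p q| ≥ c |B|`),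
class map `cls (p,q) a` = the pair of classes of `a` (a dependent type: use
`γ = (p q : ℕ) × ...` or, simpler, `γ = ℕ × ℕ` with the `ZMod.val` of the classes; for the primes `p, q`
the map `ZMod.val` is injective). `h1` of `gallagher`: for `(p,q) ∈ Q` with some caught `a`,
`card_classes` bounds the number of classes by
`(1/c)^(2k) ((k²/|B|)^k p q + (24k)² √p √q) ≤ V` since `p, q ≤ y₁` (and `V ≥ 0` if nothing is caught).
`h2` with constant `η c₀²/4`: `pairs_abundant` (`ω = Ω`, `a.2 ≠ 0`, `|a.2| ≤ X ≤ 2X²`, `omega_P`).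
`h3`: for `a ≠ a'` in `A`, every caught pair `(p, q)` in the same class has `p, q ∣ cr a a' ≠ 0`,
`|cr a a'| ≤ 2X²`; there are at most `Ω` such `p` and at most `Ω` such `q`, so at most `Ω²` pairs. -/
theorem block (B : Finset (ℤ × ℤ)) (hB : B.Nonempty) (P : Finset ℕ) (hP : ∀ p ∈ P, GoodP B p)
    (y₀ y₁ X : ℝ) (hy0 : 1 < y₀) (hX : 1 ≤ X) (hPy : ∀ p ∈ P, y₀ ≤ (p : ℝ) ∧ (p : ℝ) ≤ y₁)
    (A : Finset (ℤ × ℤ)) (hA : ∀ a ∈ A, |(a.1 : ℝ)| ≤ X ∧ |(a.2 : ℝ)| ≤ X ∧ a.2 ≠ 0)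
    (hA2 : ∀ a ∈ A, ∀ a' ∈ A, a ≠ a' → cr a a' ≠ 0)
    (c₀ η Ω V : ℝ) (hc0 : 0 < c₀) (hη : 0 < η) (k : ℕ)
    (hΩ : Real.log (2 * X ^ 2) / Real.log y₀ ≤ Ω)
    (hbig : 1 + 2 * Ω ≤ (η * c₀ ^ 2 / 4) * P.card)
    (hV : (1 / (η * c₀ ^ 2 / 2)) ^ (2 * k) * (((k : ℝ) ^ 2 / B.card) ^ k * (y₁ * y₁) +
      (24 * k) ^ 2 * y₁) ≤ V)
    (h : ∀ a ∈ A, η * B.card ≤ ((B.filter (fun b => c₀ * P.card ≤
      |∑ p ∈ P, (jacobiSym (dt a b) p : ℝ)|)).card : ℝ)) :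
    (η * c₀ ^ 2 / 4) ^ 2 * (P.card : ℝ) ^ 2 * A.card ≤
      V * ((P.card : ℝ) ^ 2 + A.card * Ω ^ 2) := by
  have hlogy : 0 < Real.log y₀ := Real.log_pos hy0
  have hX2 : (1 : ℝ) ≤ 2 * X ^ 2 := by nlinarith
  have hΩ0 : 0 ≤ Ω := le_trans (div_nonneg (Real.log_nonneg hX2) hlogy.le) hΩ
  have hc : 0 < η * c₀ ^ 2 / 2 := by positivity
  have hc4 : 0 < η * c₀ ^ 2 / 4 := by positivity
  -- P is nonempty
  have hPc : (0 : ℝ) < P.card := by
    by_contra hcon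
    have : (P.card : ℝ) = 0 := le_antisymm (not_lt.mp hcon) (Nat.cast_nonneg _)
    rw [this, mul_zero] at hbig
    linarith
  have hPne : P.Nonempty := by
    rw [← card_pos]; exact_mod_cast hPc
  obtain ⟨p₀, hp₀⟩ := hPne
  have hy1 : 0 < y₁ := by
    have := hPy p₀ hp₀
    linarith [this.1, this.2]
  have hBc : (0 : ℝ) < B.card := by exact_mod_cast hB.card_pos
  have hV0 : 0 ≤ V := by
    refine le_trans ?_ hV
    positivity
  -- apply the larger sieve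
  classical
  have key := gallagher A (P ×ˢ P)
    (fun a w => w.1 ≠ w.2 ∧ ¬ (w.1 : ℤ) ∣ a.2 ∧ ¬ (w.2 : ℤ) ∣ a.2 ∧
        (η * c₀ ^ 2 / 2) * B.card ≤ |S B a w.1 w.2|)
    (fun w a => (ZMod.val ((a.1 : ZMod w.1) * (a.2 : ZMod w.1)⁻¹ : ZMod w.1),
      ZMod.val ((a.1 : ZMod w.2) * (a.2 : ZMod w.2)⁻¹ : ZMod w.2)))
    V (Ω ^ 2) (η * c₀ ^ 2 / 4) hV0 (by positivity) hc4.le ?_ ?_ ?_
  · rw [card_product] at key
    push_cast at key
    rcases (Nat.cast_nonneg (α := ℝ) A.card).eq_or_lt with hA0 | hA0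
    · rw [← hA0]
      have : 0 ≤ V * (P.card : ℝ) ^ 2 := by positivity
      nlinarith
    · have h1 : (A.card : ℝ) * ((η * c₀ ^ 2 / 4) ^ 2 * (P.card : ℝ) ^ 2 * A.card) ≤
          A.card * (V * ((P.card : ℝ) ^ 2 + A.card * Ω ^ 2)) := by nlinarith [key]
      exact le_of_mul_le_mul_left h1 hA0
  · -- h1
    rintro ⟨p, q⟩ hw
    rw [mem_product] at hw
    obtain ⟨hp, hq⟩ := hw
    simp only at hp hq ⊢
    set A' := A.filter (fun a => p ≠ q ∧ ¬ (p : ℤ) ∣ a.2 ∧ ¬ (q : ℤ) ∣ a.2 ∧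
        (η * c₀ ^ 2 / 2) * B.card ≤ |S B a p q|) with hA'
    have him : (A'.image (fun a => (ZMod.val ((a.1 : ZMod p) * (a.2 : ZMod p)⁻¹ : ZMod p),
      ZMod.val ((a.1 : ZMod q) * (a.2 : ZMod q)⁻¹ : ZMod q)))) =
      (A'.image (fun a => (((a.1 : ZMod p) * (a.2 : ZMod p)⁻¹ : ZMod p),
      ((a.1 : ZMod q) * (a.2 : ZMod q)⁻¹ : ZMod q)))).image
        (fun z => (ZMod.val z.1, ZMod.val z.2)) := by
      rw [image_image]; rfl
    rw [him]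
    have hle := card_image_le (s := A'.image (fun a => (((a.1 : ZMod p) * (a.2 : ZMod p)⁻¹ : ZMod p),
      ((a.1 : ZMod q) * (a.2 : ZMod q)⁻¹ : ZMod q)))) (f := fun z => (ZMod.val z.1, ZMod.val z.2))
    have hcl := card_classes B hB p q (hP p hp) (hP q hq) k (η * c₀ ^ 2 / 2) hc A' (by
      intro a ha
      rw [hA', mem_filter] at ha
      exact ha.2.2)
    refine le_trans (Nat.cast_le.mpr hle) (le_trans hcl (le_trans ?_ hV))
    have hp1 := (hPy p hp).2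
    have hq1 := (hPy q hq).2
    have hpq : (p : ℝ) * q ≤ y₁ * y₁ :=
      mul_le_mul hp1 hq1 (Nat.cast_nonneg _) hy1.le
    have hsq : √(p : ℝ) * √(q : ℝ) ≤ y₁ := by
      calc √(p : ℝ) * √(q : ℝ) ≤ √y₁ * √y₁ :=
            mul_le_mul (Real.sqrt_le_sqrt hp1) (Real.sqrt_le_sqrt hq1) (Real.sqrt_nonneg _)
              (Real.sqrt_nonneg _)
        _ = y₁ := Real.mul_self_sqrt hy1.le
    gcongr
  · -- h2
    intro a ha
    obtain ⟨h1, h2, h3⟩ := hA a ha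
    have hom : ((P.filter (fun p : ℕ => (p : ℤ) ∣ a.2)).card : ℝ) ≤ Ω := by
      refine le_trans (omega_P h3 hy0 (D := 2 * X ^ 2) ?_ P ?_) hΩ
      · nlinarith
      · intro p hp
        exact ⟨(hP p hp).1, (hPy p hp).1⟩
    have := pairs_abundant B hB P a c₀ η Ω hc0 hη hom hbig (h a ha)
    rw [card_product]
    push_cast
    rw [← pow_two]
    exact this
  · -- h3
    intro a ha a' ha' hne
    have hcr := hA2 a ha a' ha' hne
    obtain ⟨h1, h2, h3⟩ := hA a ha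
    obtain ⟨h1', h2', h3'⟩ := hA a' ha'
    have hcrb : |((cr a a' : ℤ) : ℝ)| ≤ 2 * X ^ 2 := by
      unfold cr
      push_cast
      have e1 : |(a.1 : ℝ) * a'.2| ≤ X * X := by
        rw [abs_mul]; exact mul_le_mul h1 h2' (abs_nonneg _) (by linarith)
      have e2 : |(a.2 : ℝ) * a'.1| ≤ X * X := by
        rw [abs_mul]; exact mul_le_mul h2 h1' (abs_nonneg _) (by linarith)
      have e3 := abs_sub (a.1 * a'.2 : ℝ) (a.2 * a'.1)
      nlinarith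
    have hom : ((P.filter (fun p : ℕ => (p : ℤ) ∣ cr a a')).card : ℝ) ≤ Ω := by
      refine le_trans (omega_P hcr hy0 (D := 2 * X ^ 2) hcrb P ?_) hΩ
      intro p hp
      exact ⟨(hP p hp).1, (hPy p hp).1⟩
    have hsub : (P ×ˢ P).filter (fun w => (w.1 ≠ w.2 ∧ ¬ (w.1 : ℤ) ∣ a.2 ∧ ¬ (w.2 : ℤ) ∣ a.2 ∧
        (η * c₀ ^ 2 / 2) * B.card ≤ |S B a w.1 w.2|) ∧
        (w.1 ≠ w.2 ∧ ¬ (w.1 : ℤ) ∣ a'.2 ∧ ¬ (w.2 : ℤ) ∣ a'.2 ∧
        (η * c₀ ^ 2 / 2) * B.card ≤ |S B a' w.1 w.2|) ∧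
        (ZMod.val ((a.1 : ZMod w.1) * (a.2 : ZMod w.1)⁻¹ : ZMod w.1),
          ZMod.val ((a.1 : ZMod w.2) * (a.2 : ZMod w.2)⁻¹ : ZMod w.2)) =
        (ZMod.val ((a'.1 : ZMod w.1) * (a'.2 : ZMod w.1)⁻¹ : ZMod w.1),
          ZMod.val ((a'.1 : ZMod w.2) * (a'.2 : ZMod w.2)⁻¹ : ZMod w.2))) ⊆
        (P.filter (fun p : ℕ => (p : ℤ) ∣ cr a a')) ×ˢ
        (P.filter (fun p : ℕ => (p : ℤ) ∣ cr a a')) := by
      rintro ⟨p, q⟩ hw
      rw [mem_filter, mem_product] at hw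
      obtain ⟨⟨hp, hq⟩, ⟨-, u1, u2, -⟩, ⟨-, v1, v2, -⟩, he⟩ := hw
      simp only at hp hq u1 u2 v1 v2 he
      rw [Prod.mk.injEq] at he
      haveI : NeZero p := ⟨(hP p hp).1.ne_zero⟩
      haveI : NeZero q := ⟨(hP q hq).1.ne_zero⟩
      rw [mem_product, mem_filter, mem_filter]
      exact ⟨⟨hp, dvd_cr_of_class p (hP p hp).1 a a' u1 v1 (ZMod.val_injective p he.1)⟩,
        ⟨hq, dvd_cr_of_class q (hP q hq).1 a a' u2 v2 (ZMod.val_injective q he.2)⟩⟩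
    have hle := card_le_card hsub
    rw [card_product] at hle
    calc _ ≤ (((P.filter (fun p : ℕ => (p : ℤ) ∣ cr a a')).card *
          (P.filter (fun p : ℕ => (p : ℤ) ∣ cr a a')).card : ℕ) : ℝ) := by
            exact_mod_cast hle
      _ = ((P.filter (fun p : ℕ => (p : ℤ) ∣ cr a a')).card : ℝ) *
          (P.filter (fun p : ℕ => (p : ℤ) ∣ cr a a')).card := by push_cast; ring
      _ ≤ Ω * Ω := mul_le_mul hom hom (Nat.cast_nonneg _) hΩ0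
      _ = Ω ^ 2 := by ring

end T9
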