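import Pool.Agent.W_aaa0df_t9.P2
import Pool.Agent.W_aaa0df_t9.G2

/-!
# T9, P3: the block lemma with the parameters of the problem
-/

set_option autoImplicit false

namespace T9

open Finset MPaaa0df

/-- Parameter inequalities, `L = log X`.

PROOF. (1) `log (2X²) / log √L = (2L + log 2) / (½ log L) ≤ 5 L / log L`. (2) `log (3L) ≤ 2 log L`, so
`Y1 ≤ 36 L² (log L)²`. (3) `pi_Y0_lower` and `log (κL) ≥ ½ log L`. All for large `X`. -/
theorem par_basic (κ : ℝ) (hκ : 0 < κ) : ∃ X₀ : ℝ, ∀ X : ℝ, X₀ ≤ X →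
    1 < √(Real.log X) ∧ 1 ≤ X ∧ 1 ≤ Real.log (Real.log X) ∧
    Real.log (2 * X ^ 2) / Real.log (√(Real.log X)) ≤ 5 * Real.log X / Real.log (Real.log X) ∧
    Y1 X ≤ 36 * Real.log X ^ 2 * Real.log (Real.log X) ^ 2 ∧
    κ ^ 2 * Real.log X ^ 2 * Real.log (Real.log X) / 32 ≤ (primeCount (Y0 κ X) : ℝ) := by
  obtain ⟨X₁, hX₁⟩ := pi_Y0_lower κ hκ
  refine ⟨max X₁ (Real.exp (max 3 ((1 / κ) ^ 2))), fun X hX => ?_⟩
  have hX1 : X₁ ≤ X := (le_max_left _ _).trans hX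
  have hX2 : Real.exp (max 3 ((1 / κ) ^ 2)) ≤ X := (le_max_right _ _).trans hX
  have hX0 : 0 < X := (Real.exp_pos _).trans_le hX2
  have hL0 : max 3 ((1 / κ) ^ 2) ≤ Real.log X := (Real.le_log_iff_exp_le hX0).mpr hX2
  have h6 := hX₁ X hX1
  set L := Real.log X with hL
  have hL3 : 3 ≤ L := (le_max_left _ _).trans hL0
  have hLκ : (1 / κ) ^ 2 ≤ L := (le_max_right _ _).trans hL0
  have hLpos : 0 < L := by linarith only [hL3]
  have hl1 : 1 ≤ Real.log L := by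
    rw [Real.le_log_iff_exp_le hLpos]
    have := Real.exp_one_lt_d9
    linarith only [hL3, this]
  have hs : 1 < √L := by
    rw [Real.lt_sqrt (by norm_num)]
    linarith only [hL3]
  have hX1' : 1 ≤ X := by
    refine le_trans ?_ hX2
    apply Real.one_le_exp
    exact le_trans (by norm_num) (le_max_left _ _)
  refine ⟨hs, hX1', hl1, ?_, ?_, ?_⟩
  · have e1 : Real.log (2 * X ^ 2) = Real.log 2 + 2 * L := by
      rw [Real.log_mul (by norm_num) (by (clear * - hX0; positivity)), Real.log_pow]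
      push_cast
      rfl
    have e2 : Real.log (√L) = Real.log L / 2 := Real.log_sqrt hLpos.le
    have h2 : Real.log 2 < 1 := by
      have := Real.log_two_lt_d9
      linarith only [this]
    rw [e1, e2, div_le_div_iff₀ (by linarith only [hl1]) (by linarith only [hl1])]
    nlinarith only [hL3, hl1, h2]
  · unfold Y1
    rw [← hL]
    have e3 : Real.log (3 * L) = Real.log 3 + Real.log L :=
      Real.log_mul (by norm_num) hLpos.ne'
    have h3 : Real.log 3 ≤ Real.log L := Real.log_le_log (by norm_num) hL3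
    have h30 : 0 ≤ Real.log 3 := Real.log_nonneg (by norm_num)
    have h4 : Real.log (3 * L) ^ 2 ≤ (2 * Real.log L) ^ 2 := by
      apply pow_le_pow_left₀
      · linarith only [hl1, e3, h30]
      · linarith only [e3, h3]
    calc (3 * L) ^ 2 * Real.log (3 * L) ^ 2 ≤ (3 * L) ^ 2 * (2 * Real.log L) ^ 2 :=
          mul_le_mul_of_nonneg_left h4 (by (clear * - hL3; positivity))
      _ = 36 * L ^ 2 * Real.log L ^ 2 := by ring
  · refine le_trans ?_ h6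
    have e4 : Real.log (κ * L) = Real.log κ + Real.log L := Real.log_mul hκ.ne' hLpos.ne'
    have h5 : -2 * Real.log κ ≤ Real.log L := by
      have e5 : Real.log ((1 / κ) ^ 2) = -2 * Real.log κ := by
        rw [Real.log_pow, one_div, Real.log_inv]
        push_cast
        ring
      rw [← e5]
      exact Real.log_le_log (by (clear * - hκ; positivity)) hLκ
    rw [e4]
    have h7 : 0 ≤ κ ^ 2 * L ^ 2 := by (clear * - hκ hL3; positivity)
    nlinarith only [h5]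

/-- The asymptotic inequalities needed in `block_asym`: for constants `K` and `ε ≤ 1/8` all terms on
the left are smaller than `K⁻¹ L² log L`, resp. `L^4` beats `Y1`, etc.

PROOF. `L^(2ε) ≤ L^(1/4)`; `L^(5/4) / log L = o(L² log L)`, `L = o(L²)`, and
`L² (log L)² · L² / (log L)² = L⁴ = o(L⁴ (log L)²)`. Use `Real.isLittleO_log_rpow_atTop`,
`isLittleO_...` or explicit estimates `log L ≤ L^(1/8) * 8`. -/
theorem par_asym (K ε : ℝ) (hK : 0 < K) (hε : 0 < ε) (hε8 : ε ≤ 1 / 8) : ∃ X₀ : ℝ, ∀ X : ℝ, X₀ ≤ X →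
    K * ((Real.log X ^ ε) ^ 2 * (Real.log X / Real.log (Real.log X))) ≤
      Real.log X ^ 2 * Real.log (Real.log X) ∧
    K * (1 + Real.log X) ≤ Real.log X ^ 2 * Real.log (Real.log X) ∧
    K * (Real.log X ^ 2 * Real.log (Real.log X) ^ 2) ≤ Real.log X ^ 4 ∧
    K * ((Real.log X ^ 2 * Real.log (Real.log X) ^ 2) *
        (Real.log X / Real.log (Real.log X)) ^ 2) ≤
      (Real.log X ^ 2 * Real.log (Real.log X)) ^ 2 := by
  refine ⟨Real.exp (max (max 3 (4 * K)) (Real.exp (K + 1))), fun X hX2 => ?_⟩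
  have hX0 : 0 < X := (Real.exp_pos _).trans_le hX2
  have hL0 : max (max 3 (4 * K)) (Real.exp (K + 1)) ≤ Real.log X :=
    (Real.le_log_iff_exp_le hX0).mpr hX2
  set L := Real.log X with hL
  have hL3 : 3 ≤ L := ((le_max_left _ _).trans (le_max_left _ _)).trans hL0
  have hL4 : 4 * K ≤ L := ((le_max_right _ _).trans (le_max_left _ _)).trans hL0
  have hLpos : 0 < L := by linarith only [hε, hε8, hL3]
  have hl : K + 1 ≤ Real.log L :=
    (Real.le_log_iff_exp_le hLpos).mpr ((le_max_right _ _).trans hL0)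
  set l := Real.log L with hl'
  have hl1 : 1 ≤ l := by linarith only [hK, hl]
  have hKl : K ≤ l ^ 2 := by nlinarith only [hε8, hl, hK, hε]
  have hrp : (L ^ ε) ^ 2 ≤ L := by
    have h1 : L ^ ε ≤ L ^ (1 / 2 : ℝ) :=
      Real.rpow_le_rpow_of_exponent_le (by linarith only [hε, hε8, hL3]) (by linarith only [hε, hε8])
    have h2 : (L ^ (1 / 2 : ℝ)) ^ 2 = L := by
      rw [← Real.sqrt_eq_rpow, Real.sq_sqrt hLpos.le]
    calc (L ^ ε) ^ 2 ≤ (L ^ (1 / 2 : ℝ)) ^ 2 :=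
          pow_le_pow_left₀ (Real.rpow_nonneg hLpos.le _) h1 2
      _ = L := h2
  have hl2 : l ^ 2 ≤ 4 * L := by
    have h1 : l = 2 * Real.log (√L) := by
      rw [Real.log_sqrt hLpos.le]
      ring
    have hs : 0 < √L := Real.sqrt_pos.mpr hLpos
    have h2 : Real.log (√L) ≤ √L := (Real.log_le_sub_one_of_pos hs).trans (by linarith only [hε, hε8])
    have h3 : l ≤ 2 * √L := by linarith only [h1, h2]
    calc l ^ 2 ≤ (2 * √L) ^ 2 := pow_le_pow_left₀ (by linarith only [hK, hε, hε8, hl]) h3 2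
      _ = 4 * L := by rw [mul_pow, Real.sq_sqrt hLpos.le]; norm_num
  refine ⟨?_, ?_, ?_, ?_⟩
  · calc K * ((L ^ ε) ^ 2 * (L / l)) ≤ l ^ 2 * (L * (L / l)) := by
          apply mul_le_mul hKl
          · exact mul_le_mul_of_nonneg_right hrp (by (clear * - hL3 hl1; positivity))
          · (clear * - hL3 hl1; positivity)
          · (clear * - hl1; positivity)
      _ = L ^ 2 * l := by
          field_simp
  · have h1 : 2 * K ≤ L * l := by nlinarith only [hε8, hL3, hl, hK, hε]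
    nlinarith only [hε8, hL3, hL4, hK, hl, hε]
  · have h1 : K * (L ^ 2 * l ^ 2) ≤ K * (L ^ 2 * (4 * L)) := by
      apply mul_le_mul_of_nonneg_left _ hK.le
      exact mul_le_mul_of_nonneg_left hl2 (by (clear * - hL3; positivity))
    refine h1.trans ?_
    have h2 : 4 * K * L ^ 3 ≤ L * L ^ 3 := mul_le_mul_of_nonneg_right hL4 (by (clear * - hL3; positivity))
    calc K * (L ^ 2 * (4 * L)) = 4 * K * L ^ 3 := by ring
      _ ≤ L * L ^ 3 := h2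
      _ = L ^ 4 := by ring
  · have h1 : L ^ 2 * l ^ 2 * (L / l) ^ 2 = L ^ 4 := by
      field_simp
    rw [h1]
    calc K * L ^ 4 ≤ l ^ 2 * L ^ 4 := mul_le_mul_of_nonneg_right hKl (by (clear * - hL3; positivity))
      _ = (L ^ 2 * l) ^ 2 := by ring

/-- THE BLOCK LEMMA AT THE SCALE OF THE PROBLEM.

PROOF. `L = log X`, `z = √L`, `P ⊆ T` the good primes of `few_bad_primes`:
`|T \ P| ≤ 2 |B|² (log (2X²)/log z) ≤ 160 (L^ε)² L / log L · ... ≤ (δ/4)|T|` for large `X` (`par_basic`,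
`par_asym`, `|T| ≥ (δ/2) π(Y0) ≥ (δ/64) κ² L² log L`). For `a ∈ A` and `b ∈ B'` :
`|∑_{p∈P}| ≥ (δ/2)|T| - |T \ P| ≥ (δ/4)|T| ≥ (δ/4)|P|`, so the filter set in the hypothesis of `block`
with `c₀ = δ/4` contains `B'`. `k = ⌈4/ε⌉₊`, `y₀ = z`, `y₁ = Y1 X`, `Ω = log (2X²)/log z`,
`V = C₁ Y1` with `C₁ = (1/(η c₀²/2))^(2k) (1 + (24k)²)`: indeed `(k²/|B|)^k Y1 ≤ 1` since
`|B|^k ≥ L^(εk) ≥ L^4` and `k^(2k) Y1 ≤ L^4` (third inequality of `par_asym`). `hbig`: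
`1 + 2Ω ≤ 1 + 10 L ≤ (η c₀²/4)|T|/2 ≤ (η c₀²/4)|P|`. `block` gives
`(η c₀²/4)² |P|² |A| ≤ C₁ Y1 |P|² + |A| C₁ Y1 Ω²`; by the last inequality of `par_asym`
(`|P| ≥ |T|/2`, `|P|² ≥ c (L² log L)²`) `C₁ Y1 Ω² ≤ ½ (η c₀²/4)² |P|²`. So
`|A| ≤ 2 C₁ Y1 / (η c₀²/4)² ≤ C L² (log L)²`. -/
theorem block_asym (κ δ η ε : ℝ) (hκ : 0 < κ) (hδ : 0 < δ) (hη : 0 < η) (hε : 0 < ε)
    (hε8 : ε ≤ 1 / 8) : ∃ C X₀ : ℝ, 0 < C ∧ ∀ X : ℝ, X₀ ≤ X → ∀ T : Finset ℕ,
      T ⊆ Pr (√(Real.log X)) (Y1 X) → (δ / 2) * primeCount (Y0 κ X) ≤ T.card →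
      ∀ B : Finset (ℤ × ℤ), Real.log X ^ ε ≤ B.card → (B.card : ℝ) ≤ 4 * Real.log X ^ ε →
      (∀ b ∈ B, |(b.1 : ℝ)| ≤ X ∧ |(b.2 : ℝ)| ≤ X ∧ b.1 ≠ 0) →
      (∀ b ∈ B, ∀ b' ∈ B, b ≠ b' → cr b b' ≠ 0) →
      ∀ A : Finset (ℤ × ℤ), (∀ a ∈ A, |(a.1 : ℝ)| ≤ X ∧ |(a.2 : ℝ)| ≤ X ∧ a.2 ≠ 0) →
      (∀ a ∈ A, ∀ a' ∈ A, a ≠ a' → cr a a' ≠ 0) →
      (∀ a ∈ A, ∃ B' ⊆ B, η * B.card ≤ (B'.card : ℝ) ∧
        ∀ b ∈ B', (δ / 2) * T.card ≤ |∑ p ∈ T, (jacobiSym (dt a b) p : ℝ)|) →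
      (A.card : ℝ) ≤ C * (Real.log X ^ 2 * Real.log (Real.log X) ^ 2) := by
  obtain ⟨c₀, hc₀⟩ : ∃ c : ℝ, c = δ / 4 := ⟨_, rfl⟩
  have hc0 : 0 < c₀ := by rw [hc₀]; (clear * - hδ; positivity)
  obtain ⟨k, hk⟩ : ∃ k : ℕ, k = ⌈4 / ε⌉₊ := ⟨_, rfl⟩
  have hk4 : 4 ≤ ε * k := by
    have h1 : 4 / ε ≤ k := by
      rw [hk]
      exact Nat.le_ceil _
    rw [div_le_iff₀ hε] at h1
    linarith only [h1]
  obtain ⟨D, hD⟩ : ∃ D : ℝ, D = (1 / (η * c₀ ^ 2 / 2)) ^ (2 * k) * (1 + (24 * k) ^ 2) := ⟨_, rfl⟩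
  have hD0 : 0 < D := by rw [hD]; (clear * - hη hc0; positivity)
  obtain ⟨g, hg⟩ : ∃ g : ℝ, g = (η * c₀ ^ 2 / 4) ^ 2 := ⟨_, rfl⟩
  have hg0 : 0 < g := by rw [hg]; (clear * - hη hc0; positivity)
  obtain ⟨m, hm⟩ : ∃ m : ℝ, m = δ * κ ^ 2 / 64 := ⟨_, rfl⟩
  have hm0 : 0 < m := by rw [hm]; (clear * - hδ hκ; positivity)
  obtain ⟨K₁, hK₁⟩ : ∃ K : ℝ, K = 160 / (m * (δ / 4)) := ⟨_, rfl⟩
  obtain ⟨K₂, hK₂⟩ : ∃ K : ℝ, K = 160 / (m * (1 / 2)) := ⟨_, rfl⟩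
  obtain ⟨K₃, hK₃⟩ : ∃ K : ℝ, K = 10 / (η * c₀ ^ 2 / 4 * (m / 2)) := ⟨_, rfl⟩
  obtain ⟨K₄, hK₄⟩ : ∃ K : ℝ, K = 36 * (k : ℝ) ^ (2 * k) := ⟨_, rfl⟩
  obtain ⟨K₅, hK₅⟩ : ∃ K : ℝ, K = D * 36 * 25 * 2 / (g * (m / 2) ^ 2) := ⟨_, rfl⟩
  have hK1 : 0 < K₁ := by rw [hK₁]; (clear * - hm0 hδ; positivity)
  have hK2 : 0 < K₂ := by rw [hK₂]; (clear * - hm0; positivity)
  have hK3 : 0 < K₃ := by rw [hK₃]; (clear * - hη hc0 hm0; positivity)
  have hK4 : 0 ≤ K₄ := by rw [hK₄]; (clear * -; positivity)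
  have hK5 : 0 < K₅ := by rw [hK₅]; (clear * - hD0 hg0 hm0; positivity)
  obtain ⟨X₁, hX₁⟩ := par_basic κ hκ
  obtain ⟨X₂, hX₂⟩ := par_asym (K₁ + K₂ + K₃ + K₄ + K₅) ε (by linarith only [hK1, hK2, hK3, hK4, hK5]) hε hε8
  refine ⟨2 * D * 36 / g, max X₁ X₂, by (clear * - hD0 hg0; positivity), ?_⟩
  intro X hX T hT hTc B hB1 hB2 hB3 hB4 A hA1 hA2 hA3
  obtain ⟨b1, b2, b3, b4, b5, b6⟩ := hX₁ X ((le_max_left _ _).trans hX)
  obtain ⟨a1, a2, a3, a4⟩ := hX₂ X ((le_max_right _ _).trans hX)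
  set L := Real.log X with hL
  set l := Real.log L with hl
  have hL1 : 1 < L := by
    have h1 := Real.lt_sqrt (x := 1) (y := L) (by norm_num)
    have h2 := h1.mp b1
    linarith only [h2]
  have hLpos : 0 < L := by linarith only [hε, hε8, hL1]
  have hl0 : 0 < l := by linarith only [hε, hε8, b3]
  have hLe : 0 < L ^ ε := Real.rpow_pos_of_pos hLpos _
  have hLl : 0 ≤ L ^ 2 * l := by (clear * - hL1 b3; positivity)
  -- cardinality of T
  have hTm : m * (L ^ 2 * l) ≤ T.card := by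
    refine le_trans ?_ hTc
    rw [hm]
    calc δ * κ ^ 2 / 64 * (L ^ 2 * l) = (δ / 2) * (κ ^ 2 * L ^ 2 * l / 32) := by ring
      _ ≤ _ := mul_le_mul_of_nonneg_left b6 (by (clear * - hδ; positivity))
  -- the elements of T
  have hTp : ∀ p ∈ T, p.Prime ∧ p ≠ 2 ∧ √L ≤ (p : ℝ) ∧ (p : ℝ) ≤ Y1 X := by
    intro p hp
    have h1 := hT hp
    unfold Pr at h1
    rw [Finset.mem_filter, Nat.mem_primesBelow] at h1
    obtain ⟨⟨h2, h3⟩, h4, h5⟩ := h1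
    exact ⟨h3, h5, h4, (Nat.lt_ceil.mp h2).le⟩
  obtain ⟨P, hPT, hPg, hPc⟩ := few_bad_primes B X (√L) b2 b1 hB3 hB4 T
    (fun p hp => ⟨(hTp p hp).1, (hTp p hp).2.1, (hTp p hp).2.2.1⟩)
  set Ω := Real.log (2 * X ^ 2) / Real.log (√L) with hΩ
  have hΩ0 : 0 ≤ Ω := by
    apply div_nonneg
    · apply Real.log_nonneg
      nlinarith only [hε8, b2, hε]
    · exact Real.log_nonneg b1.le
  have hBpos : (0 : ℝ) < B.card := hLe.trans_le hB1
  have hBne : B.Nonempty := by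
    rw [← Finset.card_pos]
    exact_mod_cast hBpos
  have hTP : ((T \ P).card : ℝ) ≤ 160 * ((L ^ ε) ^ 2 * (L / l)) := by
    refine hPc.trans ?_
    have h1 : (B.card : ℝ) ^ 2 ≤ (4 * L ^ ε) ^ 2 := pow_le_pow_left₀ hBpos.le hB2 2
    calc 2 * (B.card : ℝ) ^ 2 * Ω ≤ 2 * (4 * L ^ ε) ^ 2 * (5 * L / l) := by
          apply mul_le_mul _ b4 hΩ0 (by (clear * - hL1; positivity))
          linarith only [h1]
      _ = _ := by ring
  have hnn1 : 0 ≤ (L ^ ε) ^ 2 * (L / l) := by (clear * - hL1 b3; positivity)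
  have hTP1 : ((T \ P).card : ℝ) ≤ (δ / 4) * T.card := by
    have h1 : K₁ * ((L ^ ε) ^ 2 * (L / l)) ≤ L ^ 2 * l := by
      refine le_trans (mul_le_mul_of_nonneg_right ?_ hnn1) a1
      linarith only [hK2, hK3, hK4, hK5]
    have h2 : 160 * ((L ^ ε) ^ 2 * (L / l)) = (m * (δ / 4)) * (K₁ * ((L ^ ε) ^ 2 * (L / l))) := by
      rw [hK₁]
      field_simp
    calc ((T \ P).card : ℝ) ≤ _ := hTP
      _ = (m * (δ / 4)) * (K₁ * ((L ^ ε) ^ 2 * (L / l))) := h2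
      _ ≤ (m * (δ / 4)) * (L ^ 2 * l) := mul_le_mul_of_nonneg_left h1 (by (clear * - hm0 hδ; positivity))
      _ = (δ / 4) * (m * (L ^ 2 * l)) := by ring
      _ ≤ (δ / 4) * T.card := mul_le_mul_of_nonneg_left hTm (by (clear * - hδ; positivity))
  have hTP2 : ((T \ P).card : ℝ) ≤ (1 / 2) * T.card := by
    have h1 : K₂ * ((L ^ ε) ^ 2 * (L / l)) ≤ L ^ 2 * l := by
      refine le_trans (mul_le_mul_of_nonneg_right ?_ hnn1) a1
      linarith only [hK1, hK3, hK4, hK5]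
    have h2 : 160 * ((L ^ ε) ^ 2 * (L / l)) = (m * (1 / 2)) * (K₂ * ((L ^ ε) ^ 2 * (L / l))) := by
      rw [hK₂]
      field_simp
    calc ((T \ P).card : ℝ) ≤ _ := hTP
      _ = (m * (1 / 2)) * (K₂ * ((L ^ ε) ^ 2 * (L / l))) := h2
      _ ≤ (m * (1 / 2)) * (L ^ 2 * l) := mul_le_mul_of_nonneg_left h1 (by (clear * - hm0; positivity))
      _ = (1 / 2) * (m * (L ^ 2 * l)) := by ring
      _ ≤ (1 / 2) * T.card := mul_le_mul_of_nonneg_left hTm (by (clear * -; positivity))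
  have hcardTP : ((T \ P).card : ℝ) + P.card = T.card := by
    have h1 := Finset.card_sdiff_add_card_eq_card hPT
    exact_mod_cast h1
  have hPhalf : (1 / 2) * (T.card : ℝ) ≤ P.card := by linarith only [hTP2, hcardTP]
  have hPm : m / 2 * (L ^ 2 * l) ≤ (P.card : ℝ) := by linarith only [hTm, hTP2, hcardTP]
  have hLl0 : 0 < L ^ 2 * l := by (clear * - hL1 b3; positivity)
  have hPpos : (0 : ℝ) < P.card := lt_of_lt_of_le (by (clear * - hm0 hL1 b3; positivity)) hPm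
  have hy1 : 0 ≤ Y1 X := by
    unfold Y1
    (clear * - hL1; positivity)
  have hPTle : (P.card : ℝ) ≤ T.card := by
    have : (0 : ℝ) ≤ (T \ P).card := Nat.cast_nonneg _
    linarith only [hcardTP]
  -- the bias on P
  have hbias : ∀ a ∈ A, η * B.card ≤ ((B.filter (fun b => c₀ * P.card ≤
      |∑ p ∈ P, (jacobiSym (dt a b) p : ℝ)|)).card : ℝ) := by
    intro a ha
    obtain ⟨B', hB'B, hB'c, hB'⟩ := hA3 a ha
    refine hB'c.trans ?_
    have h1 : B' ⊆ B.filter (fun b => c₀ * P.card ≤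
        |∑ p ∈ P, (jacobiSym (dt a b) p : ℝ)|) := by
      intro b hb
      rw [Finset.mem_filter]
      refine ⟨hB'B hb, ?_⟩
      have h2 := hB' b hb
      have h3 : ∑ p ∈ T \ P, (jacobiSym (dt a b) p : ℝ) + ∑ p ∈ P, (jacobiSym (dt a b) p : ℝ) =
          ∑ p ∈ T, (jacobiSym (dt a b) p : ℝ) := Finset.sum_sdiff hPT
      have h4 : |∑ p ∈ T \ P, (jacobiSym (dt a b) p : ℝ)| ≤ (T \ P).card := by
        calc |∑ p ∈ T \ P, (jacobiSym (dt a b) p : ℝ)|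
            ≤ ∑ p ∈ T \ P, |(jacobiSym (dt a b) p : ℝ)| := Finset.abs_sum_le_sum_abs _ _
          _ ≤ ∑ p ∈ T \ P, (1 : ℝ) := by
              refine Finset.sum_le_sum fun p _ => ?_
              rcases jacobiSym.trichotomy (dt a b) p with h0 | h0 | h0 <;> rw [h0] <;> simp
          _ = (T \ P).card := by simp
      have h5 : |∑ p ∈ T, (jacobiSym (dt a b) p : ℝ)| ≤
          |∑ p ∈ T \ P, (jacobiSym (dt a b) p : ℝ)| + |∑ p ∈ P, (jacobiSym (dt a b) p : ℝ)| := by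
        rw [← h3]
        exact abs_add_le _ _
      have h6 : c₀ * P.card ≤ (δ / 4) * T.card := by
        rw [hc₀]
        exact mul_le_mul_of_nonneg_left hPTle (by (clear * - hδ; positivity))
      linarith only [hTP1, h2, h4, h5, h6]
    exact_mod_cast Finset.card_le_card h1
  -- hbig
  have hΩ5 : Ω ≤ 5 * (L / l) := by
    refine b4.trans (le_of_eq ?_)
    ring
  have hΩL : Ω ≤ 5 * L := by
    refine hΩ5.trans ?_
    have : L / l ≤ L := div_le_self hLpos.le b3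
    linarith only [this]
  have hbig : 1 + 2 * Ω ≤ (η * c₀ ^ 2 / 4) * P.card := by
    have h1 : K₃ * (1 + L) ≤ L ^ 2 * l := by
      refine le_trans (mul_le_mul_of_nonneg_right ?_ (by (clear * - hL1; positivity))) a2
      linarith only [hK1, hK2, hK4, hK5]
    have h2 : 10 * (1 + L) = (η * c₀ ^ 2 / 4 * (m / 2)) * (K₃ * (1 + L)) := by
      rw [hK₃]
      field_simp
    calc 1 + 2 * Ω ≤ 10 * (1 + L) := by linarith only [hε, hε8, hΩL]
      _ = (η * c₀ ^ 2 / 4 * (m / 2)) * (K₃ * (1 + L)) := h2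
      _ ≤ (η * c₀ ^ 2 / 4 * (m / 2)) * (L ^ 2 * l) :=
          mul_le_mul_of_nonneg_left h1 (by (clear * - hη hc0 hm0; positivity))
      _ = (η * c₀ ^ 2 / 4) * (m / 2 * (L ^ 2 * l)) := by ring
      _ ≤ (η * c₀ ^ 2 / 4) * P.card := mul_le_mul_of_nonneg_left hPm (by (clear * - hη hc0; positivity))
  -- hV
  have hV : (1 / (η * c₀ ^ 2 / 2)) ^ (2 * k) * (((k : ℝ) ^ 2 / B.card) ^ k * (Y1 X * Y1 X) +
      (24 * k) ^ 2 * Y1 X) ≤ D * Y1 X := by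
    have h1 : ((k : ℝ) ^ 2 / B.card) ^ k * Y1 X ≤ 1 := by
      have h2 : L ^ 4 ≤ (B.card : ℝ) ^ k := by
        calc L ^ 4 = L ^ ((4 : ℕ) : ℝ) := (Real.rpow_natCast L 4).symm
          _ ≤ L ^ (ε * k) := Real.rpow_le_rpow_of_exponent_le hL1.le (by push_cast; exact hk4)
          _ = (L ^ ε) ^ k := by rw [Real.rpow_mul hLpos.le, Real.rpow_natCast]
          _ ≤ (B.card : ℝ) ^ k := pow_le_pow_left₀ hLe.le hB1 k
      have h3 : (k : ℝ) ^ (2 * k) * Y1 X ≤ L ^ 4 := by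
        calc (k : ℝ) ^ (2 * k) * Y1 X ≤ (k : ℝ) ^ (2 * k) * (36 * L ^ 2 * l ^ 2) :=
              mul_le_mul_of_nonneg_left b5 (by (clear * -; positivity))
          _ = K₄ * (L ^ 2 * l ^ 2) := by rw [hK₄]; ring
          _ ≤ (K₁ + K₂ + K₃ + K₄ + K₅) * (L ^ 2 * l ^ 2) := by
              apply mul_le_mul_of_nonneg_right _ (by (clear * - hL1 b3; positivity))
              linarith only [hK1, hK2, hK3, hK5]
          _ ≤ L ^ 4 := a3
      rw [div_pow, ← pow_mul, div_mul_eq_mul_div, div_le_one (by (clear * - hBne hK5 hK4 hK3 hK2 hK1 hX₂ a1 a2 a3 a4 hm hm0 hK₁ hK₂ hTm hPm hg0 hD0 hK₅ hk hk4 hK₄ h2 h3 hc₀ hc0 hD hg hK₃ hbias hbig; positivity))]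
      exact h3.trans h2
    have h4 : ((k : ℝ) ^ 2 / B.card) ^ k * (Y1 X * Y1 X) ≤ Y1 X := by
      calc ((k : ℝ) ^ 2 / B.card) ^ k * (Y1 X * Y1 X)
          = (((k : ℝ) ^ 2 / B.card) ^ k * Y1 X) * Y1 X := by ring
        _ ≤ 1 * Y1 X := mul_le_mul_of_nonneg_right h1 hy1
        _ = Y1 X := one_mul _
    calc (1 / (η * c₀ ^ 2 / 2)) ^ (2 * k) * (((k : ℝ) ^ 2 / B.card) ^ k * (Y1 X * Y1 X) +
        (24 * k) ^ 2 * Y1 X)
        ≤ (1 / (η * c₀ ^ 2 / 2)) ^ (2 * k) * (Y1 X + (24 * k) ^ 2 * Y1 X) := by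
          apply mul_le_mul_of_nonneg_left _ (by (clear * - hη hc0; positivity))
          linarith only [h4]
      _ = D * Y1 X := by rw [hD]; ring
  have hfin := block B hBne P hPg (√L) (Y1 X) X b1 b2
    (fun p hp => ⟨(hTp p (hPT hp)).2.2.1, (hTp p (hPT hp)).2.2.2⟩) A hA1 hA2 c₀ η Ω (D * Y1 X)
    hc0 hη k le_rfl hbig hV hbias
  rw [← hg] at hfin
  have hVle : D * Y1 X ≤ D * 36 * (L ^ 2 * l ^ 2) := by
    calc D * Y1 X ≤ D * (36 * L ^ 2 * l ^ 2) := mul_le_mul_of_nonneg_left b5 hD0.le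
      _ = _ := by ring
  have hVΩ : D * Y1 X * Ω ^ 2 ≤ g / 2 * (P.card : ℝ) ^ 2 := by
    have h1 : K₅ * ((L ^ 2 * l ^ 2) * (L / l) ^ 2) ≤ (L ^ 2 * l) ^ 2 := by
      refine le_trans (mul_le_mul_of_nonneg_right ?_ (by (clear * - hL1 b3; positivity))) a4
      linarith only [hK1, hK2, hK3, hK4]
    have h2 : D * 36 * (L ^ 2 * l ^ 2) * (5 * (L / l)) ^ 2 =
        (g / 2 * (m / 2) ^ 2) * (K₅ * ((L ^ 2 * l ^ 2) * (L / l) ^ 2)) := by
      rw [hK₅]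
      field_simp
      ring
    calc D * Y1 X * Ω ^ 2 ≤ D * 36 * (L ^ 2 * l ^ 2) * (5 * (L / l)) ^ 2 := by
          apply mul_le_mul hVle (pow_le_pow_left₀ hΩ0 hΩ5 2) (by (clear * -; positivity)) (by (clear * - hD0 hL1 b3; positivity))
      _ = (g / 2 * (m / 2) ^ 2) * (K₅ * ((L ^ 2 * l ^ 2) * (L / l) ^ 2)) := h2
      _ ≤ (g / 2 * (m / 2) ^ 2) * (L ^ 2 * l) ^ 2 := mul_le_mul_of_nonneg_left h1 (by (clear * - hg0 hm0; positivity))
      _ = g / 2 * (m / 2 * (L ^ 2 * l)) ^ 2 := by ring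
      _ ≤ g / 2 * (P.card : ℝ) ^ 2 := by
          apply mul_le_mul_of_nonneg_left _ (by (clear * - hg0; positivity))
          exact pow_le_pow_left₀ (by (clear * - hm0 hL1 b3; positivity)) hPm 2
  have hA0 : (0 : ℝ) ≤ A.card := Nat.cast_nonneg _
  have h1 : (A.card : ℝ) * (D * Y1 X * Ω ^ 2) ≤ A.card * (g / 2 * (P.card : ℝ) ^ 2) :=
    mul_le_mul_of_nonneg_left hVΩ hA0
  have h2 : (g / 2 * A.card) * (P.card : ℝ) ^ 2 ≤ (D * Y1 X) * (P.card : ℝ) ^ 2 := by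
    nlinarith only [hfin, h1]
  have h3 : g / 2 * A.card ≤ D * Y1 X := le_of_mul_le_mul_right h2 (by (clear * - hPpos; positivity))
  have h4 : g / 2 * A.card ≤ D * 36 * (L ^ 2 * l ^ 2) := h3.trans hVle
  have h5 : (A.card : ℝ) = (g / 2 * A.card) * (2 / g) := by
    field_simp
  rw [h5]
  calc g / 2 * A.card * (2 / g) ≤ D * 36 * (L ^ 2 * l ^ 2) * (2 / g) :=
        mul_le_mul_of_nonneg_right h4 (by (clear * - hg0; positivity))
    _ = 2 * D * 36 / g * (L ^ 2 * l ^ 2) := by ring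

end T9
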