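import Pool.Agent.W_aaa0df_t9.P3

/-!
# T9, P4: theorem M (arbitrary bilinear families)
-/

set_option autoImplicit false

namespace T9

open Finset MPaaa0df

/-- At most one vector of a pairwise non-proportional family has a given coordinate equal to zero.

PROOF. If `b.1 = b'.1 = 0` then `cr b b' = 0`, so `b = b'`; same for the second coordinate. -/
theorem card_ne_zero (B : Finset (ℤ × ℤ)) (hB : ∀ b ∈ B, ∀ b' ∈ B, b ≠ b' → cr b b' ≠ 0) :
    B.card ≤ (B.filter (fun b => b.1 ≠ 0)).card + 1 ∧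
      B.card ≤ (B.filter (fun b => b.2 ≠ 0)).card + 1 := by
  constructor
  · have h := Finset.card_filter_add_card_filter_not (s := B) (fun b => b.1 ≠ 0)
    have h2 : (B.filter (fun b => ¬ b.1 ≠ 0)).card ≤ 1 := by
      rw [Finset.card_le_one]
      intro a ha b hb
      rw [mem_filter, not_not] at ha hb
      by_contra hne
      exact hB a ha.1 b hb.1 hne (by simp [cr, ha.2, hb.2])
    omega
  · have h := Finset.card_filter_add_card_filter_not (s := B) (fun b => b.2 ≠ 0)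
    have h2 : (B.filter (fun b => ¬ b.2 ≠ 0)).card ≤ 1 := by
      rw [Finset.card_le_one]
      intro a ha b hb
      rw [mem_filter, not_not] at ha hb
      by_contra hne
      exact hB a ha.1 b hb.1 hne (by simp [cr, ha.2, hb.2])
    omega

/-- a bound for the bilinear form -/
theorem P4_dt_le (a b : ℤ × ℤ) (X : ℝ) (h1 : |(a.1 : ℝ)| ≤ X) (h2 : |(a.2 : ℝ)| ≤ X)
    (h3 : |(b.1 : ℝ)| ≤ X) (h4 : |(b.2 : ℝ)| ≤ X) : |((dt a b : ℤ) : ℝ)| ≤ 2 * X ^ 2 := by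
  have hX : 0 ≤ X := le_trans (abs_nonneg _) h1
  unfold dt
  push_cast
  calc |(a.1 : ℝ) * b.1 + a.2 * b.2| ≤ |(a.1 : ℝ) * b.1| + |(a.2 : ℝ) * b.2| := abs_add_le _ _
    _ = |(a.1 : ℝ)| * |(b.1 : ℝ)| + |(a.2 : ℝ)| * |(b.2 : ℝ)| := by rw [abs_mul, abs_mul]
    _ ≤ X * X + X * X := by
        apply add_le_add
        · exact mul_le_mul h1 h3 (abs_nonneg _) hX
        · exact mul_le_mul h2 h4 (abs_nonneg _) hX
    _ = 2 * X ^ 2 := by ring

/-- asymptotic inequalities for `bilinear` -/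
theorem P4_asym (ε ε' η : ℝ) (hε : 0 < ε) (hε' : 0 < ε') (h : 2 * ε' ≤ ε) :
    ∃ X₀ : ℝ, ∀ X : ℝ, X₀ ≤ X → 1 ≤ Real.log X ∧ 1 ≤ Real.log (Real.log X) ∧
      2 / η ≤ Real.log X ^ ε ∧ 2 ≤ Real.log X ^ ε' ∧ Real.log X ^ ε' + 2 ≤ Real.log X ^ ε := by
  have t1 : Filter.Tendsto (fun X : ℝ => Real.log X) Filter.atTop Filter.atTop :=
    Real.tendsto_log_atTop
  have e1 := t1.eventually_ge_atTop 1
  have e2 := (Real.tendsto_log_atTop.comp t1).eventually_ge_atTop 1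
  have e3 := ((tendsto_rpow_atTop hε).comp t1).eventually_ge_atTop (2 / η)
  have e4 := ((tendsto_rpow_atTop hε').comp t1).eventually_ge_atTop 2
  obtain ⟨X₀, hX₀⟩ := Filter.eventually_atTop.mp (e1.and (e2.and (e3.and e4)))
  refine ⟨X₀, fun X hX => ?_⟩
  obtain ⟨h1, h2, h3, h4⟩ := hX₀ X hX
  simp only [Function.comp] at h2 h3 h4
  refine ⟨h1, h2, h3, h4, ?_⟩
  have h5 : Real.log X ^ (2 * ε') ≤ Real.log X ^ ε := Real.rpow_le_rpow_of_exponent_le h1 h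
  have h6 : Real.log X ^ (2 * ε') = Real.log X ^ ε' * Real.log X ^ ε' := by
    rw [two_mul, Real.rpow_add (by linarith)]
  nlinarith

open Classical in
/-- THEOREM M. Arbitrary sets `A`, `B` of pairwise non-proportional integer vectors with entries at
most `X`, `|B| ≥ (log X)^ε`. If for every `a ∈ A` at least a proportion `η` of the values
`a₁ b₁ + a₂ b₂`, `b ∈ B`, is bad, then `|A| ≤ C (log X)² (log log X)²`.

PROOF. Let `L = log X`. `A₁` = elements of `A` with `a.2 ≠ 0`, `B₁` = elements of `B` with `b.1 ≠ 0`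
(`card_ne_zero`: at most one element is lost in each). For `a ∈ A₁` the bad `b ∈ B₁` are at least
`η|B| - 1 ≥ (η/2)|B₁|` for large `X`. `|dt a b| ≤ 2X²`. By `bad_bias` and `grid` each bad `b` has some
`i ≤ J` with `G i a b : (δ/2)|T i| ≤ |∑_{p ∈ T i} jacobiSym (dt a b) p| ∧ (δ/2) π(Y0) ≤ |T i|`.
`pigeon` gives `i` and `A₂ ⊆ A₁`, `|A₂| ≥ |A₁|/(J+1)`, each `a ∈ A₂` with `η₂|B₁|` related `b`,
`η₂ = η/(2(J+1))`. `exists_block` with `n = ⌈L^ε'⌉₊`, `ε' = min ε (1/8) / 2` (so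
`n ≤ L^ε - 1 ≤ |B₁|` for large `X`) gives `B₀ ⊆ B₁`, `n ≤ |B₀| ≤ 2n ≤ 4 L^ε'`, and `A₃ ⊆ A₂`,
`|A₃| ≥ (η₂/2)|A₂|`, each `a ∈ A₃` related to `(η₂/2)|B₀|` elements of `B₀`. If `A₃` is empty then
`|A₂| = 0`. Otherwise `T i` satisfies the lower bound (a related `b` exists as `(η₂/2)|B₀| > 0`) and
`block_asym` (with `η := η₂/2`) gives `|A₃| ≤ C L² (log L)²`. Hence
`|A| ≤ 1 + (J+1) (2/η₂) C L² (log L)²`. -/
theorem bilinear (ε κ δ η : ℝ) (hε : 0 < ε) (hκ : 0 < κ) (hδ : 0 < δ) (hη : 0 < η) :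
    ∃ C X₀ : ℝ, ∀ X : ℝ, X₀ ≤ X → ∀ A B : Finset (ℤ × ℤ),
      (∀ a ∈ A, |(a.1 : ℝ)| ≤ X ∧ |(a.2 : ℝ)| ≤ X) → (∀ b ∈ B, |(b.1 : ℝ)| ≤ X ∧ |(b.2 : ℝ)| ≤ X) →
      (∀ a ∈ A, ∀ a' ∈ A, a ≠ a' → cr a a' ≠ 0) → (∀ b ∈ B, ∀ b' ∈ B, b ≠ b' → cr b b' ≠ 0) →
      Real.log X ^ ε ≤ B.card →
      (∀ a ∈ A, η * B.card ≤ ((B.filter (fun b => Bad κ δ X (dt a b))).card : ℝ)) →
      (A.card : ℝ) ≤ C * (Real.log X ^ 2 * Real.log (Real.log X) ^ 2) := by
  set ε' : ℝ := min ε (1 / 8) / 2 with hε'def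
  have hε' : 0 < ε' := by
    have : 0 < min ε (1 / 8) := lt_min hε (by norm_num)
    positivity
  have hε'2 : 2 * ε' ≤ ε := by
    have : min ε (1 / 8) ≤ ε := min_le_left _ _
    linarith
  have hε'8 : ε' ≤ 1 / 8 := by
    have : min ε (1 / 8) ≤ 1 / 8 := min_le_right _ _
    linarith
  obtain ⟨X1, hX1⟩ := bad_bias κ δ hκ hδ
  obtain ⟨J, X2, hX2⟩ := grid κ δ hκ hδ
  set η₂ : ℝ := η / 2 / (J + 1) with hη₂def
  have hη₂ : 0 < η₂ := by positivity
  obtain ⟨C, X3, hC, hX3⟩ := block_asym κ δ (η₂ / 2) ε' hκ hδ (by positivity) hε' hε'8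
  obtain ⟨X4, hX4⟩ := P4_asym ε ε' η hε hε' hε'2
  refine ⟨1 + (J + 1) * (2 / η₂ * C), max (max X1 X2) (max X3 X4), ?_⟩
  intro X hX A B hA hB hA2 hB2 hBc hbad
  have g1 : X1 ≤ X := le_trans (le_trans (le_max_left _ _) (le_max_left _ _)) hX
  have g2 : X2 ≤ X := le_trans (le_trans (le_max_right _ _) (le_max_left _ _)) hX
  have g3 : X3 ≤ X := le_trans (le_trans (le_max_left _ _) (le_max_right _ _)) hX
  have g4 : X4 ≤ X := le_trans (le_trans (le_max_right _ _) (le_max_right _ _)) hX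
  obtain ⟨hL1, hLL1, hL2, hL3, hL4⟩ := hX4 X g4
  obtain ⟨T, hT1, hT2⟩ := hX2 X g2
  set A₁ := A.filter (fun a => a.2 ≠ 0) with hA₁
  set B₁ := B.filter (fun b => b.1 ≠ 0) with hB₁
  have hAc : A.card ≤ A₁.card + 1 := (card_ne_zero A hA2).2
  have hBc1 : B.card ≤ B₁.card + 1 := (card_ne_zero B hB2).1
  have hAcR : (A.card : ℝ) ≤ A₁.card + 1 := by exact_mod_cast hAc
  have hBcR : (B.card : ℝ) ≤ B₁.card + 1 := by exact_mod_cast hBc1
  have hB₁B : (B₁.card : ℝ) ≤ B.card := by exact_mod_cast Finset.card_le_card (filter_subset _ _)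
  let G : ℕ → (ℤ × ℤ) → (ℤ × ℤ) → Prop := fun i a b =>
    (δ / 2) * (T i).card ≤ |∑ p ∈ T i, (jacobiSym (dt a b) p : ℝ)| ∧
      (δ / 2) * primeCount (Y0 κ X) ≤ (T i).card
  -- every a in A₁ has many related b in B₁
  have h1 : ∀ a ∈ A₁, ∃ B' ⊆ B₁, (η / 2) * B₁.card ≤ (B'.card : ℝ) ∧
      ∀ b ∈ B', ∃ i ∈ range (J + 1), G i a b := by
    intro a ha
    have haA : a ∈ A := (mem_filter.mp ha).1
    refine ⟨B₁.filter (fun b => Bad κ δ X (dt a b)), filter_subset _ _, ?_, ?_⟩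
    · have hsub : B.filter (fun b => Bad κ δ X (dt a b)) ⊆
          B₁.filter (fun b => Bad κ δ X (dt a b)) ∪ B.filter (fun b => ¬ b.1 ≠ 0) := by
        intro b hb
        rw [mem_filter] at hb
        rw [mem_union, mem_filter, mem_filter, mem_filter]
        by_cases h0 : b.1 ≠ 0
        · exact Or.inl ⟨⟨hb.1, h0⟩, hb.2⟩
        · exact Or.inr ⟨hb.1, h0⟩
      have hcard := Finset.card_le_card hsub
      have hcard2 := Finset.card_union_le (B₁.filter (fun b => Bad κ δ X (dt a b)))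
        (B.filter (fun b => ¬ b.1 ≠ 0))
      have hsplit : B₁.card + (B.filter (fun b => ¬ b.1 ≠ 0)).card = B.card :=
        Finset.card_filter_add_card_filter_not (s := B) (fun b => b.1 ≠ 0)
      have hle : (B.filter (fun b => Bad κ δ X (dt a b))).card ≤
          (B₁.filter (fun b => Bad κ δ X (dt a b))).card + 1 := by
        have : (B.filter (fun b => ¬ b.1 ≠ 0)).card ≤ 1 := by omega
        omega
      have hleR : ((B.filter (fun b => Bad κ δ X (dt a b))).card : ℝ) ≤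
          (B₁.filter (fun b => Bad κ δ X (dt a b))).card + 1 := by exact_mod_cast hle
      have h2 := hbad a haA
      have h3 : 2 / η ≤ B.card := le_trans hL2 hBc
      have h4 : 2 ≤ η * B.card := by
        rw [div_le_iff₀ hη] at h3
        linarith
      have h5 : (η / 2) * B₁.card ≤ (η / 2) * B.card :=
        mul_le_mul_of_nonneg_left hB₁B (by positivity)
      linarith
    · intro b hb
      rw [mem_filter] at hb
      have hbB : b ∈ B := (mem_filter.mp hb.1).1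
      obtain ⟨y, hy0, hy1, hy⟩ := hX1 X g1 (dt a b)
        (P4_dt_le a b X (hA a haA).1 (hA a haA).2 (hB b hbB).1 (hB b hbB).2) hb.2
      exact hT2 y hy0 hy1 (dt a b) hy
  obtain ⟨i, hi, A₂, hA₂, hA₂c, hA₂r⟩ := pigeon A₁ B₁ J G (η / 2) h1
  -- block
  have hn1 : 1 ≤ ⌈Real.log X ^ ε'⌉₊ := by
    rw [Nat.one_le_ceil_iff]
    linarith
  have hnceil : (⌈Real.log X ^ ε'⌉₊ : ℝ) < Real.log X ^ ε' + 1 :=
    Nat.ceil_lt_add_one (by linarith)
  have hnB : ⌈Real.log X ^ ε'⌉₊ ≤ B₁.card := by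
    have : (⌈Real.log X ^ ε'⌉₊ : ℝ) < B₁.card := by linarith
    exact_mod_cast this.le
  obtain ⟨B₀, hB₀, hB₀n, hB₀2n, A₃, hA₃, hA₃c, hA₃r⟩ :=
    exists_block A₂ B₁ (G i) η₂ hη₂.le ⌈Real.log X ^ ε'⌉₊ hn1 hnB hA₂r
  have hM0 : 1 ≤ Real.log X ^ 2 * Real.log (Real.log X) ^ 2 := by
    have a1 : 1 ≤ Real.log X ^ 2 := one_le_pow₀ hL1
    have a2 : 1 ≤ Real.log (Real.log X) ^ 2 := one_le_pow₀ hLL1
    nlinarith
  -- the bound for A₃
  have hA₃b : (A₃.card : ℝ) ≤ C * (Real.log X ^ 2 * Real.log (Real.log X) ^ 2) := by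
    rcases Finset.eq_empty_or_nonempty A₃ with he | ⟨a₀, ha₀⟩
    · rw [he]
      simp only [card_empty, Nat.cast_zero]
      positivity
    · have hB₀pos : 0 < (B₀.card : ℝ) := by
        have : 1 ≤ B₀.card := le_trans hn1 hB₀n
        exact_mod_cast this
      have hTi : (δ / 2) * primeCount (Y0 κ X) ≤ (T i).card := by
        obtain ⟨B', hB', hB'c, hB'r⟩ := hA₃r a₀ ha₀
        have : 0 < (B'.card : ℝ) := lt_of_lt_of_le (by positivity) hB'c
        have h0 : 0 < B'.card := by exact_mod_cast this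
        obtain ⟨b, hb⟩ := Finset.card_pos.mp h0
        exact (hB'r b hb).2
      apply hX3 X g3 (T i) (hT1 i) hTi B₀
      · have : (⌈Real.log X ^ ε'⌉₊ : ℝ) ≤ B₀.card := by exact_mod_cast hB₀n
        exact le_trans (Nat.le_ceil _) this
      · have : (B₀.card : ℝ) ≤ 2 * ⌈Real.log X ^ ε'⌉₊ := by exact_mod_cast hB₀2n
        linarith
      · intro b hb
        have hb1 := mem_filter.mp (hB₀ hb)
        exact ⟨(hB b hb1.1).1, (hB b hb1.1).2, hb1.2⟩
      · intro b hb b' hb' hne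
        exact hB2 b (mem_filter.mp (hB₀ hb)).1 b' (mem_filter.mp (hB₀ hb')).1 hne
      · intro a ha
        have ha1 := mem_filter.mp (hA₂ (hA₃ ha))
        exact ⟨(hA a ha1.1).1, (hA a ha1.1).2, ha1.2⟩
      · intro a ha a' ha' hne
        exact hA2 a (mem_filter.mp (hA₂ (hA₃ ha))).1 a' (mem_filter.mp (hA₂ (hA₃ ha'))).1 hne
      · intro a ha
        obtain ⟨B', hB', hB'c, hB'r⟩ := hA₃r a ha
        exact ⟨B', hB', hB'c, fun b hb => (hB'r b hb).1⟩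
  have hJ : (0 : ℝ) < J + 1 := by positivity
  have hA₁b : (A₁.card : ℝ) ≤ (J + 1) * A₂.card := by
    rw [div_le_iff₀ hJ] at hA₂c
    linarith
  have hA₂b : (A₂.card : ℝ) ≤ 2 / η₂ * A₃.card := by
    rw [div_mul_eq_mul_div, le_div_iff₀ hη₂]
    linarith
  calc (A.card : ℝ) ≤ A₁.card + 1 := hAcR
    _ ≤ (J + 1) * (2 / η₂ * (C * (Real.log X ^ 2 * Real.log (Real.log X) ^ 2))) +
        (Real.log X ^ 2 * Real.log (Real.log X) ^ 2) := by
        apply add_le_add _ hM0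
        refine le_trans hA₁b (mul_le_mul_of_nonneg_left (le_trans hA₂b ?_) hJ.le)
        exact mul_le_mul_of_nonneg_left hA₃b (by positivity)
    _ = (1 + (J + 1) * (2 / η₂ * C)) * (Real.log X ^ 2 * Real.log (Real.log X) ^ 2) := by ring

end T9
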