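import Pool.Agent.W_aaa0df_t9.Defs
import Pool.Agent.W_aaa0df_h65.Stepanov

/-!
# T9, W1: the Weil (Stepanov) bound for a tuple of vectors of the block
-/

set_option autoImplicit false

namespace T9

open Finset Polynomial

theorem W1_rm_prod {p : ℕ} [Fact p.Prime] {ι : Type*} [DecidableEq ι] (s : Finset ι)
    (g : ι → (ZMod p)[X]) (hg : ∀ i ∈ s, g i ≠ 0) (x : ZMod p) :
    rootMultiplicity x (∏ i ∈ s, g i) = ∑ i ∈ s, rootMultiplicity x (g i) := by
  induction s using Finset.induction_on with
  | empty =>
    rw [Finset.prod_empty, Finset.sum_empty, ← C_1, rootMultiplicity_C]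
  | insert i s his ih =>
    rw [Finset.prod_insert his, Finset.sum_insert his, rootMultiplicity_mul,
      ih (fun j hj => hg j (Finset.mem_insert_of_mem hj))]
    exact mul_ne_zero (hg i (Finset.mem_insert_self i s))
      (Finset.prod_ne_zero_iff.mpr fun j hj => hg j (Finset.mem_insert_of_mem hj))

theorem W1_lin_ne {p : ℕ} [Fact p.Prime] (a b : ZMod p) (ha : a ≠ 0) :
    (C a * X + C b : (ZMod p)[X]) ≠ 0 := by
  intro h
  have h1 := congrArg (fun q => q.coeff 1) h
  simp at h1
  exact ha h1

theorem W1_rm_root {p : ℕ} [Fact p.Prime] (a b x : ZMod p) (ha : a ≠ 0) (h : a * x + b = 0) :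
    rootMultiplicity x (C a * X + C b : (ZMod p)[X]) = 1 := by
  have h1 : (C a * X + C b : (ZMod p)[X]) = C a * (X - C x) := by
    have hb : b = -(a * x) := by linear_combination h
    rw [hb, C_neg, C_mul]
    ring
  rw [h1, rootMultiplicity_mul, rootMultiplicity_C, rootMultiplicity_X_sub_C_self]
  rw [← h1]
  exact W1_lin_ne a b ha

theorem W1_rm_nroot {p : ℕ} [Fact p.Prime] (a b x : ZMod p) (h : a * x + b ≠ 0) :
    rootMultiplicity x (C a * X + C b : (ZMod p)[X]) = 0 := by
  apply rootMultiplicity_eq_zero
  intro hr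
  apply h
  have := hr
  simpa [IsRoot] using this

/-- Let `p` be a good prime for `B` and `t` a tuple of `2k` elements of `B` in which some element
occurs an odd number of times. Then the complete sum of the product of the Legendre symbols of
`t_i.1 u + t_i.2` is at most `24 k √p`.

PROOF. Put `f = ∏ i, (C (t i).1 * X + C (t i).2)` in `(ZMod p)[X]`; all `(t i).1` are nonzero mod
`p` (GoodP), so `f ≠ 0`, `f.natDegree ≤ 2k`, and the product of the quadratic characters is
`quadraticChar (f.eval u)` (`map_prod`, `eval_prod`). `f` is not of the form `C c * h ^ 2`: the root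
`ρ = -(b.2)/(b.1)` of the element `b` with odd multiplicity is not a root of the factors with
`t i ≠ b` (that would give `p ∣ cr b (t i)`), and a simple root of the factors with `t i = b`, so its
multiplicity in `f` (`rootMultiplicity`, multiplicative: `rootMultiplicity_mul`) is the odd number of
`i` with `t i = b`, whereas in `C c * h ^ 2` (nonzero) it is even. Apply `Stepanov.stepanov`:
`12 * f.natDegree * √p ≤ 12 * (2 k) * √p`. -/
theorem weil_tuple (p : ℕ) [Fact p.Prime] (B : Finset (ℤ × ℤ)) (hg : GoodP B p) (k : ℕ)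
    (t : Fin (2 * k) → ℤ × ℤ) (ht : ∀ i, t i ∈ B)
    (hodd : ∃ b ∈ B, Odd ((Finset.univ.filter (fun i => t i = b)).card)) :
    |((∑ u : ZMod p, ∏ i, quadraticChar (ZMod p)
      (((t i).1 : ZMod p) * u + ((t i).2 : ZMod p)) : ℤ) : ℝ)| ≤ 24 * k * √(p : ℝ) := by
  obtain ⟨hpp, hp2, h1, hcr⟩ := hg
  have hne : ∀ i, ((t i).1 : ZMod p) ≠ 0 := by
    intro i h0
    exact h1 (t i) (ht i) ((ZMod.intCast_zmod_eq_zero_iff_dvd _ _).mp h0)
  obtain ⟨f, hf⟩ : ∃ f : (ZMod p)[X], f = ∏ i, (C ((t i).1 : ZMod p) * X + C ((t i).2 : ZMod p)) :=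
    ⟨_, rfl⟩
  have hlin : ∀ i ∈ (Finset.univ : Finset (Fin (2 * k))),
      (C ((t i).1 : ZMod p) * X + C ((t i).2 : ZMod p) : (ZMod p)[X]) ≠ 0 :=
    fun i _ => W1_lin_ne _ _ (hne i)
  have hf0 : f ≠ 0 := by
    rw [hf]
    exact Finset.prod_ne_zero_iff.mpr hlin
  have hsq : ∀ (c : ZMod p) (h : (ZMod p)[X]), f ≠ C c * h ^ 2 := by
    intro c h hfe
    obtain ⟨b, hbB, hb⟩ := hodd
    have hb1 : (b.1 : ZMod p) ≠ 0 := by
      intro h0
      exact h1 b hbB ((ZMod.intCast_zmod_eq_zero_iff_dvd _ _).mp h0)
    have hrm : rootMultiplicity (-(b.2 : ZMod p) / (b.1 : ZMod p)) f =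
        (Finset.univ.filter (fun i => t i = b)).card := by
      rw [hf, W1_rm_prod _ _ hlin, Finset.card_filter]
      refine Finset.sum_congr rfl fun i _ => ?_
      by_cases hi : t i = b
      · rw [if_pos hi, W1_rm_root _ _ _ (hne i)]
        rw [hi]
        field_simp
        ring
      · rw [if_neg hi, W1_rm_nroot]
        intro h0
        apply hcr b hbB (t i) (ht i) (fun h => hi h.symm)
        rw [← ZMod.intCast_zmod_eq_zero_iff_dvd]
        unfold cr
        push_cast
        have h2 : ((t i).1 : ZMod p) * (-(b.2 : ZMod p) / (b.1 : ZMod p)) * (b.1 : ZMod p) +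
            ((t i).2 : ZMod p) * (b.1 : ZMod p) = 0 := by
          rw [← add_mul, h0, zero_mul]
        have h3 : ((t i).1 : ZMod p) * (-(b.2 : ZMod p) / (b.1 : ZMod p)) * (b.1 : ZMod p) =
            -((t i).1 : ZMod p) * (b.2 : ZMod p) := by
          field_simp
        rw [h3] at h2
        linear_combination h2
    have hc : c ≠ 0 := by
      rintro rfl
      apply hf0
      rw [hfe]
      simp
    have hh : h ≠ 0 := by
      rintro rfl
      apply hf0
      rw [hfe]
      simp
    have hrm2 : rootMultiplicity (-(b.2 : ZMod p) / (b.1 : ZMod p)) f =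
        2 * rootMultiplicity (-(b.2 : ZMod p) / (b.1 : ZMod p)) h := by
      have h4 : C c * h ^ 2 ≠ 0 := by
        rw [← hfe]
        exact hf0
      have h5 : h * h ≠ 0 := mul_ne_zero hh hh
      rw [hfe, rootMultiplicity_mul h4, rootMultiplicity_C, pow_two, rootMultiplicity_mul h5]
      ring
    rw [← hrm, hrm2] at hb
    rw [Nat.odd_iff] at hb
    omega
  have hst := Stepanov.stepanov hp2 f hsq
  have hsum : (∑ u : ZMod p, ∏ i, quadraticChar (ZMod p)
      (((t i).1 : ZMod p) * u + ((t i).2 : ZMod p)) : ℤ) =
      ∑ x : ZMod p, quadraticChar (ZMod p) (f.eval x) := by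
    refine Finset.sum_congr rfl fun u _ => ?_
    rw [hf, eval_prod, map_prod]
    refine Finset.prod_congr rfl fun i _ => ?_
    simp
  rw [hsum]
  refine hst.trans ?_
  have hdeg : f.natDegree ≤ 2 * k := by
    rw [hf]
    refine (natDegree_prod_le _ _).trans ?_
    calc ∑ i : Fin (2 * k), (C ((t i).1 : ZMod p) * X + C ((t i).2 : ZMod p) :
          (ZMod p)[X]).natDegree ≤ ∑ i : Fin (2 * k), 1 :=
          Finset.sum_le_sum fun i _ => natDegree_linear_le
      _ = 2 * k := by simp
  have hdeg' : (f.natDegree : ℝ) ≤ 2 * k := by exact_mod_cast hdeg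
  have hs : 0 ≤ √(p : ℝ) := Real.sqrt_nonneg _
  nlinarith [mul_le_mul_of_nonneg_right hdeg' hs]

/-- Number of tuples with all multiplicities even: at most `|B|^k k^(2k)`.

PROOF. If `k = 0` there is one tuple. If `k ≥ 1`: such a tuple `t` takes at most `k` distinct values
(each value is taken at least twice, and the multiplicities add up to `2k`), all in `B`; hence there
are `s : Fin k → α` with values in `B` (list the values, repeat one of them; the tuple is nonempty so
there is at least one value) and `g : Fin (2k) → Fin k` with `t = s ∘ g`. So the set is contained in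
the image of `piFinset (fun _ : Fin k => B) ×ˢ univ` under `(s, g) ↦ s ∘ g`; its cardinality is
`B.card ^ k * k ^ (2k)`. -/
theorem even_tuples {α : Type*} [DecidableEq α] (B : Finset α) (k : ℕ) :
    ((Fintype.piFinset (fun _ : Fin (2 * k) => B)).filter
      (fun t => ∀ b ∈ B, Even ((Finset.univ.filter (fun i => t i = b)).card))).card
      ≤ B.card ^ k * k ^ (2 * k) := by
  rcases Nat.eq_zero_or_pos k with hk | hk
  · subst hk
    refine (Finset.card_filter_le _ _).trans ?_
    rw [Fintype.card_piFinset]
    simp
  · have hsub : ((Fintype.piFinset (fun _ : Fin (2 * k) => B)).filter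
        (fun t => ∀ b ∈ B, Even ((Finset.univ.filter (fun i => t i = b)).card))) ⊆
        ((Fintype.piFinset (fun _ : Fin k => B)) ×ˢ
          (Finset.univ : Finset (Fin (2 * k) → Fin k))).image (fun q => q.1 ∘ q.2) := by
      intro t ht
      rw [Finset.mem_filter, Fintype.mem_piFinset] at ht
      obtain ⟨htB, hev⟩ := ht
      have hcard : (Finset.univ.image t).card ≤ k := by
        have h1 : (Finset.univ : Finset (Fin (2 * k))).card =
            ∑ v ∈ Finset.univ.image t, (Finset.univ.filter (fun i => t i = v)).card :=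
          Finset.card_eq_sum_card_fiberwise (fun i _ => Finset.mem_coe.mpr
            (Finset.mem_image_of_mem t (Finset.mem_univ i)))
        have h2 : ∑ v ∈ Finset.univ.image t, 2 ≤
            ∑ v ∈ Finset.univ.image t, (Finset.univ.filter (fun i => t i = v)).card := by
          refine Finset.sum_le_sum fun v hv => ?_
          obtain ⟨i, _, rfl⟩ := Finset.mem_image.mp hv
          have h3 := hev (t i) (htB i)
          have h4 : 0 < (Finset.univ.filter (fun j => t j = t i)).card :=
            Finset.card_pos.mpr ⟨i, by simp⟩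
          obtain ⟨m, hm⟩ := h3
          omega
        rw [Finset.card_univ, Fintype.card_fin] at h1
        rw [Finset.sum_const, smul_eq_mul] at h2
        omega
      have hne : Nonempty {x // x ∈ Finset.univ.image t} :=
        ⟨⟨t ⟨0, by omega⟩, Finset.mem_image_of_mem t (Finset.mem_univ _)⟩⟩
      obtain ⟨e⟩ : Nonempty ({x // x ∈ Finset.univ.image t} ↪ Fin k) := by
        apply Function.Embedding.nonempty_of_card_le
        rw [Fintype.card_coe, Fintype.card_fin]
        exact hcard
      rw [Finset.mem_image]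
      refine ⟨(fun j => (Function.invFun e j).1,
        fun i => e ⟨t i, Finset.mem_image_of_mem t (Finset.mem_univ i)⟩), ?_, ?_⟩
      · rw [Finset.mem_product]
        refine ⟨?_, Finset.mem_univ _⟩
        rw [Fintype.mem_piFinset]
        intro j
        obtain ⟨i, _, hi⟩ := Finset.mem_image.mp (Function.invFun e j).2
        change (Function.invFun e j).1 ∈ B
        rw [← hi]
        exact htB i
      · funext i
        change (Function.invFun e (e ⟨t i, _⟩)).1 = t i
        rw [Function.leftInverse_invFun e.injective]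
    calc _ ≤ _ := Finset.card_le_card hsub
      _ ≤ _ := Finset.card_image_le
      _ = B.card ^ k * k ^ (2 * k) := by
        rw [Finset.card_product, Fintype.card_piFinset_const, Finset.card_univ]
        simp

end T9
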