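import Pool.Agent.W_aaa0df_t9.G1

/-!
# T9: from theorem M (as a hypothesis) to arithmetic progressions with arbitrary difference
-/

set_option autoImplicit false

namespace T9

open Finset Filter

open Classical in
/-- The statement of theorem M. -/
def MStatement : Prop :=
  ∀ ε κ δ η : ℝ, 0 < ε → 0 < κ → 0 < δ → 0 < η → ∃ C X₀ : ℝ, ∀ X : ℝ, X₀ ≤ X →
    ∀ A B : Finset (ℤ × ℤ),
      (∀ a ∈ A, |(a.1 : ℝ)| ≤ X ∧ |(a.2 : ℝ)| ≤ X) →
      (∀ b ∈ B, |(b.1 : ℝ)| ≤ X ∧ |(b.2 : ℝ)| ≤ X) →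
      (∀ a ∈ A, ∀ a' ∈ A, a ≠ a' → cr a a' ≠ 0) →
      (∀ b ∈ B, ∀ b' ∈ B, b ≠ b' → cr b b' ≠ 0) →
      Real.log X ^ ε ≤ B.card →
      (∀ a ∈ A, η * B.card ≤ ((B.filter (fun b => Bad κ δ X (dt a b))).card : ℝ)) →
      (A.card : ℝ) ≤ C * Real.log X ^ 2 * Real.log (Real.log X) ^ 2

open Classical in
/-- Every index `s < H` has at least `n + 1` representations `s = i + j m`, `0 ≤ i < H`,
`|j| ≤ n`, for every `m`. -/
theorem ap_cover (H n : ℕ) (Pr : Finset ℕ) (hPr : ∀ m ∈ Pr, 2 * (n * m) ≤ H)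
    (Bd : ℤ → Prop) :
    Pr.card * (((range H).filter (fun s : ℕ => Bd (s : ℤ))).card * (n + 1)) ≤
      ∑ w ∈ Pr ×ˢ range H,
        ((Icc (-(n : ℤ)) n).filter (fun j => Bd ((w.2 : ℤ) + j * w.1))).card := by
  have e1 : ∑ w ∈ Pr ×ˢ range H,
        ((Icc (-(n : ℤ)) n).filter (fun j => Bd ((w.2 : ℤ) + j * w.1))).card =
      (((Pr ×ˢ range H) ×ˢ Icc (-(n : ℤ)) n).filter
        (fun v => Bd ((v.1.2 : ℤ) + v.2 * v.1.1))).card := by
    rw [Finset.card_filter, Finset.sum_product (Pr ×ˢ range H) (Icc (-(n : ℤ)) n)]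
    apply Finset.sum_congr rfl
    intro w _
    rw [Finset.card_filter]
  rw [e1]
  have e2 : Pr.card * (((range H).filter (fun s : ℕ => Bd (s : ℤ))).card * (n + 1)) =
      (Pr ×ˢ (((range H).filter (fun s : ℕ => Bd (s : ℤ))) ×ˢ range (n + 1))).card := by
    rw [Finset.card_product, Finset.card_product, Finset.card_range]
  rw [e2]
  refine Finset.card_le_card_of_injOn
    (fun v : ℕ × (ℕ × ℕ) => if H ≤ 2 * v.2.1 then
        (((v.1, v.2.1 - v.2.2 * v.1) : ℕ × ℕ), (v.2.2 : ℤ))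
      else (((v.1, v.2.1 + v.2.2 * v.1) : ℕ × ℕ), -(v.2.2 : ℤ))) ?_ ?_
  · intro v hv
    have hv' := Finset.mem_coe.mp hv
    rw [Finset.mem_product, Finset.mem_product, Finset.mem_filter, Finset.mem_range,
      Finset.mem_range] at hv'
    obtain ⟨h1, ⟨h2, h3⟩, h4⟩ := hv'
    have hm := hPr _ h1
    have h5 : v.2.2 * v.1 ≤ n * v.1 := Nat.mul_le_mul_right _ (by omega)
    by_cases hc : H ≤ 2 * v.2.1
    · simp only [if_pos hc, Finset.mem_coe, Finset.mem_filter, Finset.mem_product, Finset.mem_range,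
        Finset.mem_Icc]
      have h6 : v.2.2 * v.1 ≤ v.2.1 := by omega
      refine ⟨⟨⟨h1, by omega⟩, by omega, by omega⟩, ?_⟩
      have : (((v.2.1 - v.2.2 * v.1 : ℕ) : ℤ) + (v.2.2 : ℤ) * (v.1 : ℤ)) = (v.2.1 : ℤ) := by
        push_cast [Nat.cast_sub h6]; ring
      rw [this]
      exact h3
    · simp only [if_neg hc, Finset.mem_coe, Finset.mem_filter, Finset.mem_product, Finset.mem_range,
        Finset.mem_Icc]
      refine ⟨⟨⟨h1, by omega⟩, by omega, by omega⟩, ?_⟩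
      have : (((v.2.1 + v.2.2 * v.1 : ℕ) : ℤ) + (-(v.2.2 : ℤ)) * (v.1 : ℤ)) = (v.2.1 : ℤ) := by
        push_cast; ring
      rw [this]
      exact h3
  · intro v hv v' hv' heq
    have key : ∀ u : ℕ × (ℕ × ℕ), u ∈ (↑(Pr ×ˢ (((range H).filter (fun s : ℕ => Bd (s : ℤ))) ×ˢ
        range (n + 1))) : Set (ℕ × (ℕ × ℕ))) → ∃ x : (ℕ × ℕ) × ℤ,
        x = (if H ≤ 2 * u.2.1 then (((u.1, u.2.1 - u.2.2 * u.1) : ℕ × ℕ), (u.2.2 : ℤ))
          else (((u.1, u.2.1 + u.2.2 * u.1) : ℕ × ℕ), -(u.2.2 : ℤ))) ∧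
        u.1 = x.1.1 ∧ (u.2.1 : ℤ) = (x.1.2 : ℤ) + x.2 * x.1.1 ∧ u.2.2 = x.2.natAbs := by
      intro u hu
      have hu' := Finset.mem_coe.mp hu
      rw [Finset.mem_product, Finset.mem_product, Finset.mem_filter, Finset.mem_range,
        Finset.mem_range] at hu'
      obtain ⟨h1, ⟨h2, h3⟩, h4⟩ := hu'
      have hm := hPr _ h1
      have h5 : u.2.2 * u.1 ≤ n * u.1 := Nat.mul_le_mul_right _ (by omega)
      refine ⟨_, rfl, ?_⟩
      by_cases hc : H ≤ 2 * u.2.1
      · simp only [if_pos hc]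
        have h6 : u.2.2 * u.1 ≤ u.2.1 := by omega
        refine ⟨trivial, ?_, by simp⟩
        push_cast [Nat.cast_sub h6]; ring
      · simp only [if_neg hc]
        refine ⟨trivial, ?_, by simp⟩
        push_cast; ring
    obtain ⟨x, hx, hx1, hx2, hx3⟩ := key v hv
    obtain ⟨x', hx', hx1', hx2', hx3'⟩ := key v' hv'
    have hxx : x = x' := by rw [hx, hx']; exact heq
    subst hxx
    have a1 : v.1 = v'.1 := hx1.trans hx1'.symm
    have a2 : v.2.1 = v'.2.1 := by
      have : (v.2.1 : ℤ) = (v'.2.1 : ℤ) := hx2.trans hx2'.symm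
      exact_mod_cast this
    have a3 : v.2.2 = v'.2.2 := hx3.trans hx3'.symm
    exact Prod.ext a1 (Prod.ext a2 a3)

/-- the vectors `(m r, g + i r)` are pairwise non-proportional as long as `m` does not divide the
reduced term `g' + i r'`. -/
theorem ap_cr (g r h g' r' : ℤ) (hg : g = h * g') (hr : r = h * r') (hr0 : r ≠ 0)
    (m m' i i' : ℕ) (hm : m.Prime) (hm' : m'.Prime)
    (hd : ¬ (m : ℤ) ∣ g' + i * r') 
    (hne : (m, i) ≠ (m', i')) :
    cr ((m : ℤ) * r, g + i * r) ((m' : ℤ) * r, g + i' * r) ≠ 0 := by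
  intro h0
  have hh0 : h ≠ 0 := by rintro rfl; simp at hr; exact hr0 hr
  have hr'0 : r' ≠ 0 := by rintro rfl; simp at hr; exact hr0 hr
  have e : cr ((m : ℤ) * r, g + i * r) ((m' : ℤ) * r, g + i' * r) =
      r * h * (m * (g' + i' * r') - m' * (g' + i * r')) := by
    unfold cr
    simp only
    rw [hg, hr]; ring
  rw [e] at h0
  have h1 : (m : ℤ) * (g' + i' * r') - m' * (g' + i * r') = 0 := by
    rcases mul_eq_zero.mp h0 with h2 | h2
    · exact absurd h2 (mul_ne_zero hr0 hh0)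
    · exact h2
  by_cases hmm : m = m'
  · subst hmm
    have hm0 : (m : ℤ) ≠ 0 := by exact_mod_cast hm.ne_zero
    have h2 : (m : ℤ) * ((i' : ℤ) - i) * r' = 0 := by linear_combination h1
    have h3 : (i' : ℤ) - i = 0 := by
      rcases mul_eq_zero.mp h2 with h4 | h4
      · rcases mul_eq_zero.mp h4 with h5 | h5
        · exact absurd h5 hm0
        · exact h5
      · exact absurd h4 hr'0
    apply hne
    have : i = i' := by omega
    rw [this]
  · have h2 : (m : ℤ) ∣ m' * (g' + i * r') := ⟨g' + i' * r', by linear_combination -h1⟩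
    have hp : Prime (m : ℤ) := Nat.prime_iff_prime_int.mp hm
    rcases hp.dvd_or_dvd h2 with h3 | h3
    · have h4 : m ∣ m' := by exact_mod_cast h3
      exact hmm ((Nat.prime_dvd_prime_iff_eq hm hm').mp h4)
    · exact hd h3

open Classical in
/-- Number of pairs `(m, i)` with `m ∣ T i`: at most `H log X / log 2 + |Pr|`. -/
theorem ap_excl (H : ℕ) (Pr : Finset ℕ) (hPr : ∀ m ∈ Pr, m.Prime) (X : ℝ) (hX : 1 ≤ X)
    (g' r' : ℤ) (hr' : r' ≠ 0) (hT : ∀ i : ℕ, i < H → |((g' + i * r' : ℤ) : ℝ)| ≤ X) :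
    (((Pr ×ˢ range H).filter (fun w => (w.1 : ℤ) ∣ g' + w.2 * r')).card : ℝ) ≤
      H * (Real.log X / Real.log 2) + Pr.card := by
  have e1 : (((Pr ×ˢ range H).filter (fun w => (w.1 : ℤ) ∣ g' + w.2 * r')).card : ℝ) =
      ∑ i ∈ range H, ((Pr.filter (fun m : ℕ => (m : ℤ) ∣ g' + i * r')).card : ℝ) := by
    rw [Finset.card_filter, Finset.sum_product_right]
    push_cast
    apply Finset.sum_congr rfl
    intro i _
    rw [Finset.card_filter]
    push_cast
    rfl
  rw [e1]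
  have e2 : ∀ i ∈ range H, ((Pr.filter (fun m : ℕ => (m : ℤ) ∣ g' + i * r')).card : ℝ) ≤
      Real.log X / Real.log 2 + (if g' + i * r' = 0 then (Pr.card : ℝ) else 0) := by
    intro i hi
    have hL : 0 ≤ Real.log X / Real.log 2 :=
      div_nonneg (Real.log_nonneg hX) (Real.log_nonneg (by norm_num))
    by_cases h0 : g' + i * r' = 0
    · rw [if_pos h0]
      have : ((Pr.filter (fun m : ℕ => (m : ℤ) ∣ g' + i * r')).card : ℝ) ≤ Pr.card := by
        exact_mod_cast Finset.card_filter_le _ _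
      linarith
    · rw [if_neg h0, add_zero]
      exact omega_P h0 (by norm_num) (hT i (Finset.mem_range.mp hi)) Pr
        (fun p hp => ⟨hPr p hp, by exact_mod_cast (hPr p hp).two_le⟩)
  refine (Finset.sum_le_sum e2).trans ?_
  rw [Finset.sum_add_distrib, Finset.sum_const, nsmul_eq_mul, Finset.card_range]
  have e3 : ∑ i ∈ range H, (if g' + i * r' = 0 then (Pr.card : ℝ) else 0) ≤ Pr.card := by
    rw [← Finset.sum_filter, Finset.sum_const, nsmul_eq_mul]
    have : ((range H).filter (fun i : ℕ => g' + i * r' = 0)).card ≤ 1 := by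
      rw [Finset.card_le_one]
      intro i hi j hj
      have h1 := (Finset.mem_filter.mp hi).2
      have h2 := (Finset.mem_filter.mp hj).2
      have h3 : ((i : ℤ) - j) * r' = 0 := by linear_combination h1 - h2
      rcases mul_eq_zero.mp h3 with h4 | h4
      · omega
      · exact absurd h4 hr'
    have h5 : (((range H).filter (fun i : ℕ => g' + i * r' = 0)).card : ℝ) ≤ 1 := by
      exact_mod_cast this
    have h6 : (0 : ℝ) ≤ Pr.card := by positivity
    nlinarith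
  linarith



theorem ev_cheb : ∀ᶠ x : ℝ in atTop, x / 2 ≤ (x - 1) * Real.log 2 - Real.log (x + 2) := by
  have hl2 : (0.6931471803 : ℝ) < Real.log 2 := Real.log_two_gt_d9
  have h1 : (fun x : ℝ => Real.log x) =o[atTop] (fun x : ℝ => x) := Real.isLittleO_log_id_atTop
  have h2 := h1.bound (show (0 : ℝ) < 1 / 20 by norm_num)
  have h3 : Tendsto (fun x : ℝ => x + 2) atTop atTop := tendsto_atTop_add_const_right _ _ tendsto_id
  filter_upwards [h3.eventually h2, eventually_ge_atTop 100] with x hx hx1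
  have hx0 : 0 ≤ Real.log (x + 2) := Real.log_nonneg (by linarith)
  rw [Real.norm_of_nonneg hx0, Real.norm_of_nonneg (by linarith)] at hx
  nlinarith

theorem ev_pi (ε : ℝ) (hε : 0 < ε) (hε1 : ε ≤ 1) : ∀ᶠ L : ℝ in atTop,
    L ^ (1 + ε / 2) ≤ (Nat.primeCounting ⌊L ^ (1 + 3 * ε / 4) / 4⌋₊ : ℝ) := by
  have h1 : Tendsto (fun L : ℝ => L ^ (1 + 3 * ε / 4) / 4) atTop atTop :=
    (tendsto_rpow_atTop (by positivity)).atTop_div_const (by norm_num)
  have h3 : ∀ᶠ L : ℝ in atTop, 16 * Real.log L ≤ L ^ (ε / 4) := by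
    have := (isLittleO_log_rpow_atTop (show (0 : ℝ) < ε / 4 by positivity)).bound
      (show (0 : ℝ) < 1 / 16 by norm_num)
    filter_upwards [this, eventually_ge_atTop 1] with L hL hL1
    rw [Real.norm_of_nonneg (Real.log_nonneg hL1), Real.norm_of_nonneg (by positivity)] at hL
    linarith
  filter_upwards [h1.eventually ev_cheb, h1.eventually (eventually_ge_atTop 2), h3,
    eventually_ge_atTop 2] with L h4 h5 h6 h7
  set x := L ^ (1 + 3 * ε / 4) / 4 with hx
  have hL0 : 0 < L := by linarith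
  have hlogL : 0 < Real.log L := Real.log_pos (by linarith)
  have hlogx : 0 < Real.log x := Real.log_pos (by linarith)
  have h8 := Chebyshev.pi_ge' (x := x) (by linarith)
  have h9 : Real.log x ≤ 2 * Real.log L := by
    have : x ≤ L ^ (2 : ℝ) := by
      rw [hx]
      have : L ^ (1 + 3 * ε / 4) ≤ L ^ (2 : ℝ) :=
        Real.rpow_le_rpow_of_exponent_le (by linarith) (by linarith)
      have h0 : 0 ≤ L ^ (1 + 3 * ε / 4) := by positivity
      linarith
    calc Real.log x ≤ Real.log (L ^ (2 : ℝ)) := Real.log_le_log (by linarith) this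
      _ = 2 * Real.log L := Real.log_rpow hL0 2
  have h10 : x / 2 / Real.log x ≤ (Nat.primeCounting ⌊x⌋₊ : ℝ) :=
    (div_le_div_of_nonneg_right h4 hlogx.le).trans h8
  refine le_trans ?_ h10
  rw [le_div_iff₀ hlogx]
  have h11 : L ^ (1 + 3 * ε / 4) = L ^ (1 + ε / 2) * L ^ (ε / 4) := by
    rw [← Real.rpow_add hL0]; ring_nf
  have h12 : 0 < L ^ (1 + ε / 2) := by positivity
  calc L ^ (1 + ε / 2) * Real.log x ≤ L ^ (1 + ε / 2) * (2 * Real.log L) := by gcongr
    _ ≤ L ^ (1 + ε / 2) * (L ^ (ε / 4) / 8) := by gcongr; linarith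
    _ = x / 2 := by rw [hx, h11]; ring

theorem ev_params (ε η C : ℝ) (hε : 0 < ε) (hη : 0 < η) : ∀ᶠ L : ℝ in atTop,
    1 ≤ L ∧ 8 * |C| * Real.log L ^ 2 ≤ η * L ^ (3 * ε / 2) ∧ 8 / (η * Real.log 2) ≤ L ^ (ε / 2) ∧
      8 / η ≤ L := by
  have hb : ∀ᶠ L : ℝ in atTop, Real.log L ≤ L ^ (ε / 2) := by
    have := (isLittleO_log_rpow_atTop (show (0 : ℝ) < ε / 2 by positivity)).bound
      (show (0 : ℝ) < 1 by norm_num)
    filter_upwards [this, eventually_ge_atTop 1] with L hL hL1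
    rw [Real.norm_of_nonneg (Real.log_nonneg hL1), Real.norm_of_nonneg (by positivity)] at hL
    linarith
  have hc : Tendsto (fun L : ℝ => L ^ (ε / 2)) atTop atTop := tendsto_rpow_atTop (by positivity)
  filter_upwards [eventually_ge_atTop 1, hb, hc.eventually (eventually_ge_atTop (8 * |C| / η)),
    hc.eventually (eventually_ge_atTop (8 / (η * Real.log 2))), eventually_ge_atTop (8 / η)]
    with L h1 h2 h3 h4 h5
  refine ⟨h1, ?_, h4, h5⟩
  have hL0 : 0 < L := by linarith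
  have h6 : L ^ (3 * ε / 2) = L ^ (ε / 2) * (L ^ (ε / 2)) ^ 2 := by
    rw [← Real.rpow_natCast, ← Real.rpow_mul hL0.le, ← Real.rpow_add hL0]
    congr 1
    push_cast
    ring
  have h7 : 0 ≤ Real.log L := Real.log_nonneg h1
  have h8 : Real.log L ^ 2 ≤ (L ^ (ε / 2)) ^ 2 := pow_le_pow_left₀ h7 h2 2
  rw [h6]
  have h9 : 8 * |C| ≤ η * L ^ (ε / 2) := by
    rw [div_le_iff₀ hη] at h3
    linarith
  calc 8 * |C| * Real.log L ^ 2 ≤ (η * L ^ (ε / 2)) * (L ^ (ε / 2)) ^ 2 := by gcongr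
    _ = _ := by ring



open Classical in
/-- The combinatorial core: if theorem M bounds the number of exceptional vectors by `K`, then the
number of bad indices is small. -/
theorem ap_core (κ δ X η' K : ℝ) (hX : 1 ≤ X) (hη' : 0 ≤ η') (g r : ℤ) (hr0 : r ≠ 0) (H n : ℕ)
    (hn2 : 2 ≤ n) (hH2 : 2 ≤ H) (hnX : (n : ℝ) ≤ X)
    (hT : ∀ s : ℕ, s < H → |((g + s * r : ℤ) : ℝ)| ≤ X)
    (hM : ∀ A B : Finset (ℤ × ℤ),
      (∀ a ∈ A, |(a.1 : ℝ)| ≤ X ∧ |(a.2 : ℝ)| ≤ X) →
      (∀ b ∈ B, |(b.1 : ℝ)| ≤ X ∧ |(b.2 : ℝ)| ≤ X) →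
      (∀ a ∈ A, ∀ a' ∈ A, a ≠ a' → cr a a' ≠ 0) →
      (∀ b ∈ B, ∀ b' ∈ B, b ≠ b' → cr b b' ≠ 0) →
      B.card = 2 * n + 1 →
      (∀ a ∈ A, η' * B.card ≤ ((B.filter (fun b => Bad κ δ X (dt a b))).card : ℝ)) →
      (A.card : ℝ) ≤ K) :
    ((Nat.primeCounting (H / (2 * n)) : ℝ)) *
      (((range H).filter (fun s : ℕ => Bad κ δ X (g + s * r))).card : ℝ) ≤
      2 * (K + H * (Real.log X / Real.log 2) + Nat.primeCounting (H / (2 * n)) +
        η' * Nat.primeCounting (H / (2 * n)) * H) := by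
  set Pr : Finset ℕ := Nat.primesLE (H / (2 * n)) with hPr
  have hPrcard : Pr.card = Nat.primeCounting (H / (2 * n)) := by
    rw [hPr]; exact Nat.primesLE_card_eq_primeCounting _
  have hPrprime : ∀ m ∈ Pr, m.Prime := fun m hm => Nat.prime_of_mem_primesLE hm
  have hPrle : ∀ m ∈ Pr, 2 * (n * m) ≤ H := by
    intro m hm
    have h1 : m ≤ H / (2 * n) := Nat.le_of_mem_primesLE hm
    have h2 : m * (2 * n) ≤ H := (Nat.le_div_iff_mul_le (by omega)).mp h1
    nlinarith
  -- the size of the difference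
  have hr : ((H : ℝ) - 1) * |(r : ℝ)| ≤ 2 * X := by
    have h1 := hT 0 (by omega)
    have h2 := hT (H - 1) (by omega)
    have h3 : ((H : ℝ) - 1) * (r : ℝ) = ((g + ((H - 1 : ℕ) : ℤ) * r : ℤ) : ℝ) -
        ((g + ((0 : ℕ) : ℤ) * r : ℤ) : ℝ) := by
      push_cast [Nat.cast_sub (show 1 ≤ H by omega)]
      ring
    have h4 : |((H : ℝ) - 1) * (r : ℝ)| ≤ 2 * X := by
      rw [h3]
      calc |((g + ((H - 1 : ℕ) : ℤ) * r : ℤ) : ℝ) - ((g + ((0 : ℕ) : ℤ) * r : ℤ) : ℝ)|
          ≤ |((g + ((H - 1 : ℕ) : ℤ) * r : ℤ) : ℝ)| + |((g + ((0 : ℕ) : ℤ) * r : ℤ) : ℝ)| :=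
            abs_sub _ _
        _ ≤ X + X := add_le_add h2 h1
        _ = 2 * X := by ring
    have h5 : (0 : ℝ) ≤ (H : ℝ) - 1 := by
      have : (2 : ℝ) ≤ H := by exact_mod_cast hH2
      linarith
    rwa [abs_mul, abs_of_nonneg h5] at h4
  set φ : ℕ × ℕ → ℤ × ℤ := fun w => ((w.1 : ℤ) * r, g + w.2 * r) with hφ
  set J : Finset ℤ := Icc (-(n : ℤ)) n with hJ
  have hJcard : J.card = 2 * n + 1 := by
    rw [hJ, Int.card_Icc]; omega
  set B : Finset (ℤ × ℤ) := J.image (fun j => (j, 1)) with hB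
  have hinj : Function.Injective (fun j : ℤ => ((j, 1) : ℤ × ℤ)) := by
    intro j j' hjj
    exact (Prod.ext_iff.mp hjj).1
  have hBcard : B.card = 2 * n + 1 := by
    rw [hB, Finset.card_image_of_injective _ hinj, hJcard]
  set Bd : ℤ → Prop := fun z => Bad κ δ X (g + z * r) with hBd
  -- the number of bad `b` for the vector of `w`
  have hf : ∀ w : ℕ × ℕ, ((J.filter (fun j => Bd ((w.2 : ℤ) + j * w.1))).card) =
      (B.filter (fun b => Bad κ δ X (dt (φ w) b))).card := by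
    intro w
    rw [hB, Finset.filter_image, Finset.card_image_of_injective _ hinj]
    congr 1
    apply Finset.filter_congr
    intro j _
    have : dt (φ w) (j, 1) = g + ((w.2 : ℤ) + j * w.1) * r := by
      rw [hφ]; unfold dt; simp only; ring
    rw [this]
  have hcover := ap_cover H n Pr hPrle Bd
  have hexcl := ap_excl H Pr hPrprime X hX g r hr0 hT
  set Ex := (Pr ×ˢ range H).filter (fun w => (w.1 : ℤ) ∣ g + w.2 * r) with hEx
  set Ie := (Pr ×ˢ range H).filter (fun w => ¬ (w.1 : ℤ) ∣ g + w.2 * r ∧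
    η' * B.card ≤ ((B.filter (fun b => Bad κ δ X (dt (φ w) b))).card : ℝ)) with hIe
  -- pairwise non-proportional
  have hcr : ∀ w ∈ Ie, ∀ w' ∈ Ie, w ≠ w' → cr (φ w) (φ w') ≠ 0 := by
    intro w hw w' hw' hne
    have h1 := Finset.mem_filter.mp hw
    have h2 := Finset.mem_filter.mp hw'
    have h3 := Finset.mem_product.mp h1.1
    have h4 := Finset.mem_product.mp h2.1
    exact ap_cr g r 1 g r (by ring) (by ring) hr0 w.1 w'.1 w.2 w'.2 (hPrprime _ h3.1)
      (hPrprime _ h4.1) h1.2.1 hne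
  have hinjφ : Set.InjOn φ (Ie : Set (ℕ × ℕ)) := by
    intro w hw w' hw' heq
    by_contra hne
    apply hcr w hw w' hw' hne
    rw [heq]
    unfold cr
    ring
  have hIeK : (Ie.card : ℝ) ≤ K := by
    have h1 := hM (Ie.image φ) B ?_ ?_ ?_ ?_ hBcard ?_
    · rwa [Finset.card_image_of_injOn hinjφ] at h1
    · intro a ha
      obtain ⟨w, hw, rfl⟩ := Finset.mem_image.mp ha
      have h1 := Finset.mem_filter.mp hw
      have h3 := Finset.mem_product.mp h1.1
      have h5 := hPrle _ h3.1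
      have h6 : w.2 < H := Finset.mem_range.mp h3.2
      refine ⟨?_, hT _ h6⟩
      have h7 : 2 * w.1 + 1 ≤ H := by nlinarith
      have h8 : (2 * (w.1 : ℝ)) ≤ (H : ℝ) - 1 := by
        have : ((2 * w.1 + 1 : ℕ) : ℝ) ≤ H := by exact_mod_cast h7
        push_cast at this
        linarith
      have h9 : |(((w.1 : ℤ) * r : ℤ) : ℝ)| = (w.1 : ℝ) * |(r : ℝ)| := by
        push_cast
        rw [abs_mul, abs_of_nonneg (by positivity : (0 : ℝ) ≤ (w.1 : ℝ))]
      show |(((w.1 : ℤ) * r : ℤ) : ℝ)| ≤ X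
      rw [h9]
      have h10 : 2 * ((w.1 : ℝ) * |(r : ℝ)|) ≤ 2 * X := by
        calc 2 * ((w.1 : ℝ) * |(r : ℝ)|) = (2 * (w.1 : ℝ)) * |(r : ℝ)| := by ring
          _ ≤ ((H : ℝ) - 1) * |(r : ℝ)| := mul_le_mul_of_nonneg_right h8 (abs_nonneg _)
          _ ≤ 2 * X := hr
      linarith
    · intro b hb
      obtain ⟨j, hj, rfl⟩ := Finset.mem_image.mp hb
      have h1 := Finset.mem_Icc.mp hj
      refine ⟨?_, by simpa using hX⟩
      have h2 : |(j : ℝ)| ≤ n := by
        rw [abs_le]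
        constructor
        · have : ((-(n : ℤ) : ℤ) : ℝ) ≤ (j : ℝ) := by exact_mod_cast h1.1
          push_cast at this
          exact this
        · exact_mod_cast h1.2
      exact h2.trans hnX
    · intro a ha a' ha' hne
      obtain ⟨w, hw, rfl⟩ := Finset.mem_image.mp ha
      obtain ⟨w', hw', rfl⟩ := Finset.mem_image.mp ha'
      exact hcr w hw w' hw' (fun h => hne (by rw [h]))
    · intro b hb b' hb' hne
      obtain ⟨j, hj, rfl⟩ := Finset.mem_image.mp hb
      obtain ⟨j', hj', rfl⟩ := Finset.mem_image.mp hb'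
      unfold cr
      simp only
      intro h
      apply hne
      have : j = j' := by linarith
      rw [this]
    · intro a ha
      obtain ⟨w, hw, rfl⟩ := Finset.mem_image.mp ha
      exact (Finset.mem_filter.mp hw).2.2
  -- upper bound for the sum
  have hup : (∑ w ∈ Pr ×ˢ range H,
      ((J.filter (fun j => Bd ((w.2 : ℤ) + j * w.1))).card : ℝ)) ≤
      (2 * n + 1) * (Ie.card + Ex.card + η' * (Pr.card * H)) := by
    have h1 : ∀ w ∈ Pr ×ˢ range H, ((J.filter (fun j => Bd ((w.2 : ℤ) + j * w.1))).card : ℝ) ≤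
        (2 * n + 1) * ((if ¬ (w.1 : ℤ) ∣ g + w.2 * r ∧
          η' * B.card ≤ ((B.filter (fun b => Bad κ δ X (dt (φ w) b))).card : ℝ) then (1 : ℝ) else 0)
          + (if (w.1 : ℤ) ∣ g + w.2 * r then (1 : ℝ) else 0) + η') := by
      intro w _
      have h2 : ((J.filter (fun j => Bd ((w.2 : ℤ) + j * w.1))).card : ℝ) ≤ 2 * n + 1 := by
        have : (J.filter (fun j => Bd ((w.2 : ℤ) + j * w.1))).card ≤ J.card :=
          Finset.card_filter_le _ _
        rw [hJcard] at this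
        exact_mod_cast this
      have h3 : (0 : ℝ) ≤ 2 * n + 1 := by positivity
      by_cases ha : (w.1 : ℤ) ∣ g + w.2 * r
      · rw [if_pos ha, if_neg (fun h => h.1 ha)]
        nlinarith
      · by_cases hb : η' * B.card ≤ ((B.filter (fun b => Bad κ δ X (dt (φ w) b))).card : ℝ)
        · rw [if_pos ⟨ha, hb⟩, if_neg ha]
          nlinarith
        · rw [if_neg ha, if_neg (fun h => hb h.2)]
          rw [hf w]
          push Not at hb
          rw [hBcard] at hb
          push_cast at hb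
          linarith
    refine (Finset.sum_le_sum h1).trans ?_
    rw [← Finset.mul_sum, Finset.sum_add_distrib, Finset.sum_add_distrib, Finset.sum_const,
      nsmul_eq_mul, Finset.card_product, Finset.card_range, ← Finset.sum_filter,
      ← Finset.sum_filter, Finset.sum_const, Finset.sum_const, nsmul_eq_mul, nsmul_eq_mul,
      ← hIe, ← hEx]
    push_cast
    apply le_of_eq
    ring
  have hlow : (Pr.card : ℝ) * ((((range H).filter (fun s : ℕ => Bd (s : ℤ))).card : ℝ) * (n + 1)) ≤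
      (2 * n + 1) * (Ie.card + Ex.card + η' * (Pr.card * H)) := by
    refine le_trans ?_ hup
    exact_mod_cast hcover
  rw [← hPrcard]
  have h20 : (0 : ℝ) ≤ Ie.card + Ex.card + η' * (Pr.card * H) := by positivity
  have h21 : (Pr.card : ℝ) * (((range H).filter (fun s : ℕ => Bd (s : ℤ))).card : ℝ) * (n + 1) ≤
      (2 * (Ie.card + Ex.card + η' * (Pr.card * H))) * (n + 1) := by
    nlinarith
  have h22 := le_of_mul_le_mul_right h21 (by positivity : (0 : ℝ) < (n : ℝ) + 1)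
  refine h22.trans ?_
  have h23 : (Ex.card : ℝ) ≤ H * (Real.log X / Real.log 2) + Pr.card := hexcl
  nlinarith


open Classical in
/-- Arithmetic progressions with arbitrary difference, from theorem M. -/
theorem ap_of_M (hM : MStatement) (ε κ δ η : ℝ) (hε : 0 < ε) (hκ : 0 < κ) (hδ : 0 < δ)
    (hη : 0 < η) :
    ∃ X₀ : ℝ, ∀ X : ℝ, X₀ ≤ X → ∀ g r : ℤ, r ≠ 0 → ∀ H : ℕ, Real.log X ^ (1 + ε) ≤ H →
      (∀ s : ℕ, s < H → |((g + s * r : ℤ) : ℝ)| ≤ X) →
      (((range H).filter (fun s : ℕ => Bad κ δ X (g + s * r))).card : ℝ) ≤ η * H := by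
  set ε₁ := min ε 1 with hε₁
  have he1 : 0 < ε₁ := lt_min hε one_pos
  have he2 : ε₁ ≤ 1 := min_le_right _ _
  have he3 : ε₁ ≤ ε := min_le_left _ _
  obtain ⟨C, X₁, hC⟩ := hM (ε₁ / 4) κ δ (η / 8) (by positivity) hκ hδ (by positivity)
  obtain ⟨L₀, hL₀⟩ := Filter.eventually_atTop.mp
    ((ev_pi ε₁ he1 he2).and (ev_params ε₁ η C he1 hη))
  refine ⟨max X₁ (Real.exp (max L₀ 2)), fun X hX g r hr H hH hT => ?_⟩
  have hX1 : X₁ ≤ X := (le_max_left _ _).trans hX
  have hX2 : Real.exp (max L₀ 2) ≤ X := (le_max_right _ _).trans hX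
  have hX0 : 0 < X := (Real.exp_pos _).trans_le hX2
  set L := Real.log X with hL
  have hL1 : max L₀ 2 ≤ L := by
    rw [hL, ← Real.log_exp (max L₀ 2)]
    exact Real.log_le_log (Real.exp_pos _) hX2
  have hLL₀ : L₀ ≤ L := (le_max_left _ _).trans hL1
  have hL2 : 2 ≤ L := (le_max_right _ _).trans hL1
  obtain ⟨hpi, hp1, hp2, hp3, hp4⟩ := hL₀ L hLL₀
  have hLpos : 0 < L := by linarith
  have hXL : L + 1 ≤ X := by
    have := Real.add_one_le_exp L
    rwa [hL, Real.exp_log hX0, ← hL] at this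
  have hX3 : 1 ≤ X := by linarith
  set n : ℕ := ⌈L ^ (ε₁ / 4)⌉₊ with hn
  have hn1 : L ^ (ε₁ / 4) ≤ n := Nat.le_ceil _
  have hn1' : 1 < L ^ (ε₁ / 4) := Real.one_lt_rpow (by linarith) (by positivity)
  have hn2 : 2 ≤ n := by
    have : (1 : ℝ) < n := lt_of_lt_of_le hn1' hn1
    have : 1 < n := by exact_mod_cast this
    omega
  have hn3 : (n : ℝ) ≤ L ^ (ε₁ / 4) + 1 := (Nat.ceil_lt_add_one (by positivity)).le
  have hn4 : (n : ℝ) ≤ 2 * L ^ (ε₁ / 4) := by linarith
  have hn5 : L ^ (ε₁ / 4) ≤ L := by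
    calc L ^ (ε₁ / 4) ≤ L ^ (1 : ℝ) :=
          Real.rpow_le_rpow_of_exponent_le (by linarith) (by linarith)
      _ = L := Real.rpow_one L
  have hnX : (n : ℝ) ≤ X := by linarith
  have hH1 : L ^ (1 + ε₁) ≤ H :=
    (Real.rpow_le_rpow_of_exponent_le (by linarith) (by linarith)).trans hH
  have hHL : L ≤ H := by
    refine le_trans ?_ hH1
    calc L = L ^ (1 : ℝ) := (Real.rpow_one L).symm
      _ ≤ L ^ (1 + ε₁) := Real.rpow_le_rpow_of_exponent_le (by linarith) (by linarith)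
  have hH2 : 2 ≤ H := by
    have : (2 : ℝ) ≤ H := hL2.trans hHL
    exact_mod_cast this
  set K : ℝ := C * L ^ 2 * Real.log L ^ 2 with hK
  have hcore := ap_core κ δ X (η / 8) K hX3 (by positivity) g r hr H n hn2 hH2 hnX hT
    (by
      intro A B hA hB hA2 hB2 hBc hbad
      refine hC X hX1 A B hA hB hA2 hB2 ?_ hbad
      rw [hBc]
      push_cast
      linarith)
  -- lower bound for the number of primes
  have hP : L ^ (1 + ε₁ / 2) ≤ (Nat.primeCounting (H / (2 * n)) : ℝ) := by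
    refine hpi.trans ?_
    have : ⌊L ^ (1 + 3 * ε₁ / 4) / 4⌋₊ ≤ H / (2 * n) := by
      rw [← Nat.floor_div_eq_div (K := ℝ)]
      apply Nat.floor_le_floor
      push_cast
      rw [le_div_iff₀ (by positivity)]
      calc L ^ (1 + 3 * ε₁ / 4) / 4 * (2 * (n : ℝ)) ≤
            L ^ (1 + 3 * ε₁ / 4) / 4 * (2 * (2 * L ^ (ε₁ / 4))) := by gcongr
        _ = L ^ (1 + 3 * ε₁ / 4) * L ^ (ε₁ / 4) := by ring
        _ = L ^ (1 + ε₁) := by rw [← Real.rpow_add hLpos]; ring_nf
        _ ≤ H := hH1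
    exact_mod_cast Nat.monotone_primeCounting this
  set P : ℝ := (Nat.primeCounting (H / (2 * n)) : ℝ) with hPdef
  have hPpos : 0 < P := lt_of_lt_of_le (by positivity) hP
  set Sc : ℝ := (((range H).filter (fun s : ℕ => Bad κ δ X (g + s * r))).card : ℝ) with hSc
  have hHpos : (0 : ℝ) < H := by linarith
  -- the four terms
  have t1 : 2 * K ≤ η / 4 * (P * H) := by
    have h1 : L ^ 2 * L ^ (3 * ε₁ / 2) ≤ P * H := by
      calc L ^ 2 * L ^ (3 * ε₁ / 2) = L ^ (1 + ε₁ / 2) * L ^ (1 + ε₁) := by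
            rw [← Real.rpow_natCast, ← Real.rpow_add hLpos, ← Real.rpow_add hLpos]
            congr 1
            push_cast
            ring
        _ ≤ P * H := mul_le_mul hP hH1 (by positivity) hPpos.le
    have h2 : 2 * K ≤ L ^ 2 * (2 * |C| * Real.log L ^ 2) := by
      rw [hK]
      have : C * (L ^ 2 * Real.log L ^ 2) ≤ |C| * (L ^ 2 * Real.log L ^ 2) :=
        mul_le_mul_of_nonneg_right (le_abs_self C) (by positivity)
      nlinarith
    have h3 : 2 * |C| * Real.log L ^ 2 ≤ η / 4 * L ^ (3 * ε₁ / 2) := by linarith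
    calc 2 * K ≤ L ^ 2 * (2 * |C| * Real.log L ^ 2) := h2
      _ ≤ L ^ 2 * (η / 4 * L ^ (3 * ε₁ / 2)) := by gcongr
      _ = η / 4 * (L ^ 2 * L ^ (3 * ε₁ / 2)) := by ring
      _ ≤ η / 4 * (P * H) := by gcongr
  have hlog2 : 0 < Real.log 2 := Real.log_pos (by norm_num)
  have t2 : 2 * (H * (L / Real.log 2)) ≤ η / 4 * (P * H) := by
    have h1 : 8 / (η * Real.log 2) * L ≤ P := by
      calc 8 / (η * Real.log 2) * L ≤ L ^ (ε₁ / 2) * L := by gcongr
        _ = L ^ (1 + ε₁ / 2) := by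
            rw [Real.rpow_add hLpos, Real.rpow_one]; ring
        _ ≤ P := hP
    have h2 : 2 * (L / Real.log 2) = η / 4 * (8 / (η * Real.log 2) * L) := by
      field_simp
      ring
    calc 2 * (H * (L / Real.log 2)) = (2 * (L / Real.log 2)) * H := by ring
      _ = η / 4 * (8 / (η * Real.log 2) * L) * H := by rw [h2]
      _ ≤ η / 4 * P * H := by gcongr
      _ = η / 4 * (P * H) := by ring
  have t3 : 2 * P ≤ η / 4 * (P * H) := by
    have h1 : 8 ≤ η * H := by
      have h2 : 8 / η ≤ H := hp4.trans hHL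
      rw [div_le_iff₀ hη] at h2
      linarith
    calc 2 * P = P * 8 / 4 := by ring
      _ ≤ P * (η * H) / 4 := by gcongr
      _ = η / 4 * (P * H) := by ring
  have hfin : P * Sc ≤ P * (η * H) := by
    calc P * Sc ≤ 2 * (K + H * (L / Real.log 2) + P + η / 8 * P * H) := hcore
      _ = 2 * K + 2 * (H * (L / Real.log 2)) + 2 * P + η / 4 * (P * H) := by ring
      _ ≤ η / 4 * (P * H) + η / 4 * (P * H) + η / 4 * (P * H) + η / 4 * (P * H) :=
          add_le_add (add_le_add (add_le_add t1 t2) t3) le_rfl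
      _ = P * (η * H) := by ring
  exact le_of_mul_le_mul_left hfin hPpos

end T9
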