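import Pool.Agent.W_MP_aaa0df_nt.Defs

/-!
# T9, theorem M: definitions

`dt a b` is the bilinear form of two integer vectors, `cr a b` their determinant.
-/

set_option autoImplicit false

namespace T9

open MPaaa0df

/-- the value `a₁ b₁ + a₂ b₂` -/
def dt (a b : ℤ × ℤ) : ℤ := a.1 * b.1 + a.2 * b.2

/-- the determinant `a₁ b₂ - a₂ b₁` -/
def cr (a b : ℤ × ℤ) : ℤ := a.1 * b.2 - a.2 * b.1

/-- `D` is bad at scale `X`: the quadratic field attached to `D` (discriminant `d`, or more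
generally any `d ≡ 0, 1 mod 4` with `4 D = d f²`) has `|d| ≥ X^κ`, and the number `N(d)` of split
primes below the threshold of the problem is not `(1/2 ± δ)` times the number of all primes. -/
def Bad (κ δ X : ℝ) (D : ℤ) : Prop :=
  D ≠ 0 ∧ ∃ d f : ℤ, 4 * D = d * f ^ 2 ∧ (d % 4 = 0 ∨ d % 4 = 1) ∧ X ^ κ ≤ |(d : ℝ)| ∧
    δ * primeCount (threshold d) < |(N d : ℝ) - primeCount (threshold d) / 2|

open Classical in
/-- the correlation sum over the block `B` at the two primes `p, q` -/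
noncomputable def S (B : Finset (ℤ × ℤ)) (a : ℤ × ℤ) (p q : ℕ) : ℝ :=
  ∑ b ∈ B, (jacobiSym (dt a b) p : ℝ) * (jacobiSym (dt a b) q : ℝ)

/-- the prime `p` is good for the block `B` -/
def GoodP (B : Finset (ℤ × ℤ)) (p : ℕ) : Prop :=
  p.Prime ∧ p ≠ 2 ∧ (∀ b ∈ B, ¬ (p : ℤ) ∣ b.1) ∧
    ∀ b ∈ B, ∀ b' ∈ B, b ≠ b' → ¬ (p : ℤ) ∣ cr b b'

end T9
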