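import Pool.Agent.W_aaa0df_t9.G1
import Pool.Agent.W_MP_aaa0df_nt.RelA
import Pool.Agent.W_MP_aaa0df_nt.Asym

/-!
# T9, P1: from bad discriminants to biased character sums
-/

set_option autoImplicit false

namespace T9

open Finset MPaaa0df

/-- the odd primes `p` with `z ≤ p < y` -/
noncomputable def Pr (z y : ℝ) : Finset ℕ :=
  (Nat.primesBelow ⌈y⌉₊).filter (fun p : ℕ => z ≤ (p : ℝ) ∧ p ≠ 2)

/-- lower end of the possible thresholds -/
noncomputable def Y0 (κ X : ℝ) : ℝ := (κ * Real.log X) ^ 2 * (Real.log (κ * Real.log X)) ^ 2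

/-- upper end of the possible thresholds -/
noncomputable def Y1 (X : ℝ) : ℝ := (3 * Real.log X) ^ 2 * (Real.log (3 * Real.log X)) ^ 2

/-- PROOF. `primeCount y = |primesBelow ⌈y⌉₊|` (`primeCount_eq`) and `splitCount d y` is the number
of `p` in it with `p ∤ d` and the square condition (`splitCount_eq`); for odd `p ∤ d` the condition
is `jacobiSym d p = 1` (`split_iff`), otherwise `jacobiSym d p = -1`; for `p ∣ d` it is `0`. So with
`a` = number of primes `p ∈ Pr z y` with symbol `1`, `b` = number with symbol `-1`, `c` = number with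
symbol `0`: `∑ = a - b`, `|splitCount - a| ≤ e`, `primeCount = a + b + c + e'` with `e, e' ≤` number of
primes `p < y` with `p = 2` or `p < z`, at most `z + 2` (`z ≥ 0`). -/
theorem sum_eq_split (d : ℤ) (hd : d % 4 = 0 ∨ d % 4 = 1) (z y : ℝ) (hz : 0 ≤ z) :
    |(∑ p ∈ Pr z y, (jacobiSym d p : ℝ)) - (2 * (splitCount d y : ℝ) - primeCount y)| ≤
      3 * (z + 2) + ((Pr z y).filter (fun p : ℕ => (p : ℤ) ∣ d)).card := by
  classical
  set P := Pr z y with hP
  rw [primeCount_eq, splitCount_eq]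
  set F := Nat.primesBelow ⌈y⌉₊ with hF
  have hPF : P ⊆ F := Finset.filter_subset _ _
  set σ : ℕ → ℝ := fun p => if (¬ ((p : ℤ) ∣ d) ∧ ∃ x : ℤ, (4 * (p : ℤ)) ∣ x ^ 2 - d) then 1 else -1
    with hσ
  have h1 : 2 * ((F.filter (fun p : ℕ => ¬ ((p : ℤ) ∣ d) ∧
      ∃ x : ℤ, (4 * (p : ℤ)) ∣ x ^ 2 - d)).card : ℝ) - F.card = ∑ p ∈ F, σ p := by
    have e1 : ∀ p ∈ F, σ p = 2 * (if (¬ ((p : ℤ) ∣ d) ∧ ∃ x : ℤ, (4 * (p : ℤ)) ∣ x ^ 2 - d)
        then (1 : ℝ) else 0) - 1 := by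
      intro p _
      rw [hσ]
      simp only
      split_ifs <;> norm_num
    rw [Finset.sum_congr rfl e1, Finset.sum_sub_distrib, ← Finset.mul_sum, Finset.sum_const,
      nsmul_eq_mul, mul_one, Finset.sum_ite, Finset.sum_const_zero, add_zero, Finset.sum_const,
      nsmul_eq_mul, mul_one]
  rw [h1]
  have hσ1 : ∀ p, |σ p| ≤ 1 := by
    intro p; rw [hσ]; simp only
    split_ifs <;> norm_num
  have h2 : ∑ p ∈ P, (jacobiSym d p : ℝ) - ∑ p ∈ F, σ p =
      ∑ p ∈ P, ((jacobiSym d p : ℝ) - σ p) - ∑ p ∈ F \ P, σ p := by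
    rw [Finset.sum_sub_distrib, ← Finset.sum_sdiff hPF]
    ring
  have h3 : |∑ p ∈ F \ P, σ p| ≤ z + 2 := by
    have e1 : ((F \ P).card : ℝ) ≤ z + 2 := by
      have e2 : F \ P ⊆ insert 2 (Finset.range ⌈z⌉₊) := by
        intro p hp
        rw [Finset.mem_sdiff, hP, Pr, Finset.mem_filter, not_and, not_and_or] at hp
        rw [Finset.mem_insert, Finset.mem_range, Nat.lt_ceil]
        rcases hp.2 hp.1 with h | h
        · right
          exact not_le.1 h
        · left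
          exact not_not.1 h
      have e3 : (F \ P).card ≤ ⌈z⌉₊ + 1 := by
        refine (Finset.card_le_card e2).trans ?_
        refine (Finset.card_insert_le _ _).trans ?_
        rw [Finset.card_range]
      have e4 : (⌈z⌉₊ : ℝ) < z + 1 := Nat.ceil_lt_add_one hz
      have e5 : ((F \ P).card : ℝ) ≤ (⌈z⌉₊ : ℝ) + 1 := by exact_mod_cast e3
      linarith only [e4, e5]
    calc |∑ p ∈ F \ P, σ p| ≤ ∑ p ∈ F \ P, |σ p| := Finset.abs_sum_le_sum_abs _ _
      _ ≤ ∑ _p ∈ F \ P, (1 : ℝ) := Finset.sum_le_sum (fun p _ => hσ1 p)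
      _ = (F \ P).card := by rw [Finset.sum_const, nsmul_eq_mul, mul_one]
      _ ≤ _ := e1
  have h4 : |∑ p ∈ P, ((jacobiSym d p : ℝ) - σ p)| ≤
      ((P.filter (fun p : ℕ => (p : ℤ) ∣ d)).card : ℝ) := by
    have e1 : ∀ p ∈ P, |(jacobiSym d p : ℝ) - σ p| ≤ (if (p : ℤ) ∣ d then 1 else 0) := by
      intro p hp
      rw [hP, Pr, Finset.mem_filter, Nat.mem_primesBelow] at hp
      obtain ⟨⟨_, hpp⟩, _, hp2⟩ := hp
      have hpF : Fact p.Prime := ⟨hpp⟩
      by_cases hpd : (p : ℤ) ∣ d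
      · rw [if_pos hpd]
        have e2 : jacobiSym d p = 0 := by
          rw [← jacobiSym.legendreSym.to_jacobiSym, legendreSym.eq_zero_iff,
            ZMod.intCast_zmod_eq_zero_iff_dvd]
          exact hpd
        rw [e2, Int.cast_zero, zero_sub, abs_neg]
        exact hσ1 p
      · rw [if_neg hpd]
        have e3 := split_iff hd hpp hp2 hpd
        rcases jacobiSym.trichotomy d p with h | h | h
        · exfalso
          rw [← jacobiSym.legendreSym.to_jacobiSym, legendreSym.eq_zero_iff,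
            ZMod.intCast_zmod_eq_zero_iff_dvd] at h
          exact hpd h
        · have : σ p = 1 := by
            rw [hσ]; simp only; rw [if_pos ⟨hpd, e3.2 h⟩]
          rw [this, h]; norm_num
        · have : σ p = -1 := by
            rw [hσ]; simp only
            rw [if_neg]
            rintro ⟨_, h'⟩
            rw [e3.1 h'] at h
            norm_num at h
          rw [this, h]; norm_num
    calc |∑ p ∈ P, ((jacobiSym d p : ℝ) - σ p)| ≤ ∑ p ∈ P, |(jacobiSym d p : ℝ) - σ p| :=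
          Finset.abs_sum_le_sum_abs _ _
      _ ≤ ∑ p ∈ P, (if (p : ℤ) ∣ d then (1 : ℝ) else 0) := Finset.sum_le_sum e1
      _ = (P.filter (fun p : ℕ => (p : ℤ) ∣ d)).card := by
          rw [Finset.sum_ite, Finset.sum_const_zero, add_zero, Finset.sum_const, nsmul_eq_mul,
            mul_one]
  rw [h2]
  refine (abs_sub _ _).trans ?_
  linarith only [hz, h3, h4]

/-- PROOF. For an odd prime `p ∤ f`: `jacobiSym D p = jacobiSym (4 D) p = jacobiSym (d f²) p =
jacobiSym d p` (multiplicativity and `jacobiSym.sq_one`, as `p ∤ 2`, `p ∤ f`). For `p ∣ f` the two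
symbols differ by at most `1` in absolute value: `p ∣ 4 D`, `p` odd, so `jacobiSym D p = 0`. -/
theorem sum_sq_factor (D d f : ℤ) (h : 4 * D = d * f ^ 2) (z y : ℝ) :
    |(∑ p ∈ Pr z y, (jacobiSym D p : ℝ)) - ∑ p ∈ Pr z y, (jacobiSym d p : ℝ)| ≤
      ((Pr z y).filter (fun p : ℕ => (p : ℤ) ∣ f)).card := by
  classical
  rw [← Finset.sum_sub_distrib]
  have e1 : ∀ p ∈ Pr z y, |(jacobiSym D p : ℝ) - (jacobiSym d p : ℝ)| ≤
      (if (p : ℤ) ∣ f then 1 else 0) := by
    intro p hp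
    rw [Pr, Finset.mem_filter, Nat.mem_primesBelow] at hp
    obtain ⟨⟨_, hpp⟩, _, hp2⟩ := hp
    have hpF : Fact p.Prime := ⟨hpp⟩
    have hc2 : Int.gcd 2 p = 1 := by
      have h1 : Nat.Coprime 2 p := (Nat.coprime_primes Nat.prime_two hpp).2 (Ne.symm hp2)
      exact h1
    by_cases hpf : (p : ℤ) ∣ f
    · rw [if_pos hpf]
      have h2 : (p : ℤ) ∣ 4 * D := by
        rw [h]
        exact Dvd.dvd.mul_left (dvd_pow hpf two_ne_zero) _
      have h3 : (p : ℤ) ∣ D := by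
        have h4 : IsCoprime (p : ℤ) 4 := by
          have h5 : Nat.Coprime p (2 ^ 2) :=
            Nat.Coprime.pow_right 2 ((Nat.coprime_primes hpp Nat.prime_two).2 hp2)
          have h6 := Nat.isCoprime_iff_coprime.2 h5
          exact_mod_cast h6
        exact h4.dvd_of_dvd_mul_left h2
      have e2 : jacobiSym D p = 0 := by
        rw [← jacobiSym.legendreSym.to_jacobiSym, legendreSym.eq_zero_iff,
          ZMod.intCast_zmod_eq_zero_iff_dvd]
        exact h3
      rw [e2, Int.cast_zero, zero_sub, abs_neg]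
      rcases jacobiSym.trichotomy d p with h | h | h <;> rw [h] <;> norm_num
    · rw [if_neg hpf]
      have hcf : Int.gcd f p = 1 := by
        have h1 : IsCoprime (p : ℤ) f := (Nat.prime_iff_prime_int.1 hpp).coprime_iff_not_dvd.2 hpf
        exact Int.isCoprime_iff_gcd_eq_one.1 h1.symm
      have h4 : jacobiSym (4 * D) p = jacobiSym D p := by
        have h5 : (4 : ℤ) = 2 ^ 2 := by norm_num
        rw [jacobiSym.mul_left, h5, jacobiSym.sq_one' hc2, one_mul]
      have h6 : jacobiSym (d * f ^ 2) p = jacobiSym d p := by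
        rw [jacobiSym.mul_left, jacobiSym.sq_one' hcf, mul_one]
      rw [← h4, h, h6, sub_self, abs_zero]
  calc |∑ p ∈ Pr z y, ((jacobiSym D p : ℝ) - (jacobiSym d p : ℝ))|
      ≤ ∑ p ∈ Pr z y, |(jacobiSym D p : ℝ) - (jacobiSym d p : ℝ)| :=
        Finset.abs_sum_le_sum_abs _ _
    _ ≤ ∑ p ∈ Pr z y, (if (p : ℤ) ∣ f then (1 : ℝ) else 0) := Finset.sum_le_sum e1
    _ = ((Pr z y).filter (fun p : ℕ => (p : ℤ) ∣ f)).card := by
        rw [Finset.sum_ite, Finset.sum_const_zero, add_zero, Finset.sum_const, nsmul_eq_mul,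
          mul_one]

theorem P1_tend (κ : ℝ) (hκ : 0 < κ) :
    Filter.Tendsto (fun X : ℝ => κ * Real.log X) Filter.atTop Filter.atTop :=
  Real.tendsto_log_atTop.const_mul_atTop hκ

theorem P1_one_le {u : ℝ} (hu : Real.exp 1 ≤ u) : 1 ≤ Real.log u := by
  have h := Real.log_le_log (Real.exp_pos 1) hu
  rwa [Real.log_exp] at h

theorem P1_le_Y {u : ℝ} (hu : 1 ≤ u) (hl : 1 ≤ Real.log u) : u ≤ u ^ 2 * (Real.log u) ^ 2 := by
  have h1 : u ≤ u ^ 2 := by nlinarith only [hu]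
  have h2 : 1 ≤ (Real.log u) ^ 2 := by nlinarith only [hl]
  have h3 : 0 ≤ u ^ 2 := sq_nonneg u
  nlinarith only [h1, h2]

theorem P1_logY {u : ℝ} (hu : 1 ≤ u) (hl : 1 ≤ Real.log u) :
    Real.log (u ^ 2 * (Real.log u) ^ 2) = 2 * Real.log u + 2 * Real.log (Real.log u) := by
  have h1 : u ≠ 0 := by (clear * - hu; positivity)
  have h2 : Real.log u ≠ 0 := by (clear * - hl; positivity)
  rw [Real.log_mul (pow_ne_zero 2 h1) (pow_ne_zero 2 h2), Real.log_pow, Real.log_pow]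
  norm_num

theorem P1_mono {x y : ℝ} (h : x ≤ y) : (primeCount x : ℝ) ≤ primeCount y := by
  rw [primeCount_eq, primeCount_eq, Nat.primesBelow_card_eq_primeCounting',
    Nat.primesBelow_card_eq_primeCounting']
  exact_mod_cast Nat.monotone_primeCounting' (Nat.ceil_mono h)

theorem P1_monoY {u w : ℝ} (hu : 1 ≤ u) (huw : u ≤ w) :
    u ^ 2 * (Real.log u) ^ 2 ≤ w ^ 2 * (Real.log w) ^ 2 := by
  have h0 : 0 ≤ Real.log u := Real.log_nonneg hu
  have h1 : Real.log u ≤ Real.log w := Real.log_le_log (by linarith only [hu]) huw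
  have h2 : u ^ 2 ≤ w ^ 2 := pow_le_pow_left₀ (by linarith only [hu]) huw 2
  have h3 : (Real.log u) ^ 2 ≤ (Real.log w) ^ 2 := pow_le_pow_left₀ h0 h1 2
  exact mul_le_mul h2 h3 (sq_nonneg _) (sq_nonneg _)

/-- Lower Chebyshev bound for a real argument.

PROOF. `primes_lower` (`W_MP_aaa0df_nt/Asym.lean`, via `primeCount_eq`) with `m = ⌈y⌉₊`, and
`m / (2 log m) ≥ y / (2 log y)` for `y ≥ e` (monotonicity of `x / log x` on `[e, ∞)`); one may also
lose a constant: only `y / (4 log y)` is claimed. -/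
theorem cheb_lower : ∃ y₀ : ℝ, ∀ y : ℝ, y₀ ≤ y → y / (4 * Real.log y) ≤ (primeCount y : ℝ) := by
  obtain ⟨m0, hm0⟩ := primes_lower
  refine ⟨max 2 m0, fun y hy => ?_⟩
  have hy2 : (2 : ℝ) ≤ y := (le_max_left _ _).trans hy
  have hym : (m0 : ℝ) ≤ y := (le_max_right _ _).trans hy
  have hle : y ≤ (⌈y⌉₊ : ℝ) := Nat.le_ceil y
  have hlt : (⌈y⌉₊ : ℝ) < y + 1 := Nat.ceil_lt_add_one (by linarith only [hy2])
  have h1 := hm0 ⌈y⌉₊ (by exact_mod_cast hym.trans hle)
  rw [primeCount_eq]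
  refine le_trans ?_ h1
  have hlog : 0 < Real.log y := Real.log_pos (by linarith only [hy2])
  have hlogm : 0 < Real.log (⌈y⌉₊ : ℝ) := Real.log_pos (by linarith only [hy2, hle])
  have h2 : Real.log (⌈y⌉₊ : ℝ) ≤ 2 * Real.log y := by
    have h3 : (⌈y⌉₊ : ℝ) ≤ y ^ 2 := by nlinarith only [hy2, hlt]
    have h4 := Real.log_le_log (by linarith only [hy2, hle]) h3
    rw [Real.log_pow] at h4
    exact_mod_cast h4
  exact div_le_div₀ (by linarith only [hy2, hle]) hle (by linarith only [hlogm]) (by linarith only [h2])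

/-- Upper Chebyshev bound for a real argument.

PROOF. `Chebyshev.pi_le_log4_mul_div` (or `Chebyshev.eventually_primeCounting_le`) for
`⌈y⌉₊ ≤ y + 1`; the constant `8` is generous. -/
theorem cheb_upper : ∃ y₀ : ℝ, ∀ y : ℝ, y₀ ≤ y → (primeCount y : ℝ) ≤ 8 * y / Real.log y := by
  obtain ⟨y₁, hy₁⟩ := Filter.eventually_atTop.1 (Chebyshev.eventually_primeCounting_le one_pos)
  refine ⟨max 2 y₁, fun y hy => ?_⟩
  have hy2 : (2 : ℝ) ≤ y := (le_max_left _ _).trans hy
  have h1 := hy₁ y ((le_max_right _ _).trans hy)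
  have hlog : 0 < Real.log y := Real.log_pos (by linarith only [hy2])
  have h2 : (primeCount y : ℝ) ≤ (Nat.primeCounting ⌊y⌋₊ : ℝ) := by
    rw [primeCount_eq, Nat.primesBelow_card_eq_primeCounting']
    exact_mod_cast Nat.monotone_primeCounting' (Nat.ceil_le_floor_add_one y)
  refine h2.trans (h1.trans ?_)
  apply div_le_div_of_nonneg_right _ hlog.le
  have h3 : Real.log 4 < 2 := by
    have h4 : Real.log 4 = 2 * Real.log 2 := by
      have h5 : (4 : ℝ) = 2 ^ 2 := by norm_num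
      rw [h5, Real.log_pow]
      norm_num
    have := Real.log_two_lt_d9
    linarith only [h4, this]
  nlinarith only [hy2, h3]

/-- PROOF. `Y0 = (κL)² (log κL)²`, `log Y0 = 2 log (κL) + 2 log log (κL) ≤ 4 log (κL)`, `cheb_lower`:
`π(Y0) ≥ (κL)² log(κL) / 16` for large `X`. -/
theorem pi_Y0_lower (κ : ℝ) (hκ : 0 < κ) : ∃ X₀ : ℝ, ∀ X : ℝ, X₀ ≤ X →
    (κ * Real.log X) ^ 2 * Real.log (κ * Real.log X) / 16 ≤ (primeCount (Y0 κ X) : ℝ) := by
  obtain ⟨y₀, hy₀⟩ := cheb_lower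
  have ht := P1_tend κ hκ
  obtain ⟨X₀, hX₀⟩ := Filter.eventually_atTop.1
    (ht.eventually (Filter.eventually_ge_atTop (max (Real.exp 1) y₀)))
  refine ⟨X₀, fun X hX => ?_⟩
  have h := hX₀ X hX
  unfold Y0
  set u := κ * Real.log X with hu
  have hu1 : Real.exp 1 ≤ u := (le_max_left _ _).trans h
  have huy : y₀ ≤ u := (le_max_right _ _).trans h
  have hl1 : 1 ≤ Real.log u := P1_one_le hu1
  have hu2 : 1 ≤ u := le_trans (by have := Real.add_one_le_exp (1 : ℝ); linarith only [this]) hu1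
  have hY : u ≤ u ^ 2 * (Real.log u) ^ 2 := P1_le_Y hu2 hl1
  have h1 := hy₀ (u ^ 2 * (Real.log u) ^ 2) (huy.trans hY)
  refine le_trans ?_ h1
  have h2 : Real.log (u ^ 2 * (Real.log u) ^ 2) = 2 * Real.log u + 2 * Real.log (Real.log u) :=
    P1_logY hu2 hl1
  have h3 : Real.log (Real.log u) ≤ Real.log u := by
    have := Real.log_le_sub_one_of_pos (show 0 < Real.log u by linarith only [hl1])
    linarith only [this]
  have h4 : 0 ≤ Real.log (Real.log u) := Real.log_nonneg hl1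
  rw [h2, div_le_div_iff₀ (by norm_num) (by linarith only [hl1, h4])]
  have h5 : 4 * (2 * Real.log u + 2 * Real.log (Real.log u)) ≤ 16 * Real.log u := by linarith only [h3]
  have h6 : 0 ≤ u ^ 2 * Real.log u := by (clear * - hu2 hl1; positivity)
  calc u ^ 2 * Real.log u * (4 * (2 * Real.log u + 2 * Real.log (Real.log u)))
      ≤ u ^ 2 * Real.log u * (16 * Real.log u) := mul_le_mul_of_nonneg_left h5 h6
    _ = u ^ 2 * Real.log u ^ 2 * 16 := by ring

/-- PROOF. `π(Y1) ≤ 8 Y1 / log Y1 ≤ 8 Y1 / (2 log (3L)) = 36 L² log (3L)`, and `pi_Y0_lower`; also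
`log (3L) ≤ 2 log (κL)` for large `X`. -/
theorem pi_ratio (κ : ℝ) (hκ : 0 < κ) : ∃ C X₀ : ℝ, 0 < C ∧ ∀ X : ℝ, X₀ ≤ X →
    (primeCount (Y1 X) : ℝ) ≤ C * primeCount (Y0 κ X) := by
  obtain ⟨X₁, hX₁⟩ := pi_Y0_lower κ hκ
  obtain ⟨y₀, hy₀⟩ := cheb_upper
  obtain ⟨X₂, hX₂⟩ := Filter.eventually_atTop.1
    ((P1_tend 3 (by norm_num)).eventually (Filter.eventually_ge_atTop (max (Real.exp 1) y₀)))
  obtain ⟨X₃, hX₃⟩ := Filter.eventually_atTop.1
    ((P1_tend κ hκ).eventually (Filter.eventually_ge_atTop (max (Real.exp 1) (3 / κ))))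
  refine ⟨1152 / κ ^ 2, max X₁ (max X₂ X₃), by (clear * - hκ; positivity), fun X hX => ?_⟩
  have h1 := hX₁ X ((le_max_left _ _).trans hX)
  have h2 := hX₂ X ((le_max_left _ _).trans ((le_max_right _ _).trans hX))
  have h3 := hX₃ X ((le_max_right _ _).trans ((le_max_right _ _).trans hX))
  set L := Real.log X with hL
  set u := κ * L with hu
  have hv1 : Real.exp 1 ≤ 3 * L := (le_max_left _ _).trans h2
  have hvy : y₀ ≤ 3 * L := (le_max_right _ _).trans h2
  have hu1 : Real.exp 1 ≤ u := (le_max_left _ _).trans h3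
  have hu3 : 3 / κ ≤ u := (le_max_right _ _).trans h3
  have hlv : 1 ≤ Real.log (3 * L) := P1_one_le hv1
  have hlu : 1 ≤ Real.log u := P1_one_le hu1
  have hexp : (2 : ℝ) ≤ Real.exp 1 := by have := Real.add_one_le_exp (1 : ℝ); linarith only [this]
  have hLpos : 0 < L := by linarith only [hv1, hexp]
  have hu0 : 0 < u := by linarith only [hu1, hexp]
  have hY : 3 * L ≤ (3 * L) ^ 2 * (Real.log (3 * L)) ^ 2 := P1_le_Y (by linarith only [hv1, hexp, hLpos]) hlv
  have h4 := hy₀ ((3 * L) ^ 2 * (Real.log (3 * L)) ^ 2) (hvy.trans hY)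
  have h5 : Real.log ((3 * L) ^ 2 * (Real.log (3 * L)) ^ 2) =
      2 * Real.log (3 * L) + 2 * Real.log (Real.log (3 * L)) := P1_logY (by linarith only [hv1, hexp, hLpos]) hlv
  have h6 : 0 ≤ Real.log (Real.log (3 * L)) := Real.log_nonneg hlv
  have h7 : (primeCount (Y1 X) : ℝ) ≤ 36 * L ^ 2 * Real.log (3 * L) := by
    unfold Y1
    refine h4.trans ?_
    rw [h5, div_le_iff₀ (by linarith only [hlv, h6])]
    have h8 : 0 ≤ L ^ 2 * Real.log (3 * L) := by (clear * - hLpos hlv; positivity)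
    nlinarith only [h8, h6, mul_nonneg h8 h6]
  have h9 : Real.log (3 * L) ≤ 2 * Real.log u := by
    have h10 : 3 * L ≤ u ^ 2 := by
      have h11 : 3 ≤ κ * u := by
        rw [div_le_iff₀ hκ] at hu3
        linarith only [hu3]
      calc 3 * L ≤ κ * u * L := mul_le_mul_of_nonneg_right h11 hLpos.le
        _ = u ^ 2 := by rw [hu]; ring
    have h12 := Real.log_le_log (by linarith only [hLpos]) h10
    rw [Real.log_pow] at h12
    exact_mod_cast h12
  have h13 : 36 * L ^ 2 * Real.log (3 * L) ≤ 72 * L ^ 2 * Real.log u := by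
    have h14 : 0 ≤ L ^ 2 := sq_nonneg L
    nlinarith only [h9]
  have h15 : 72 * L ^ 2 * Real.log u = 1152 / κ ^ 2 * (u ^ 2 * Real.log u / 16) := by
    rw [hu]
    field_simp
    ring
  have h16 : 1152 / κ ^ 2 * (u ^ 2 * Real.log u / 16) ≤ 1152 / κ ^ 2 * primeCount (Y0 κ X) :=
    mul_le_mul_of_nonneg_left h1 (by (clear * - hκ; positivity))
  linarith only [h7, h13, h15, h16]

/-- FROM BAD TO BIAS. With `z = √(log X)`.

PROOF. Let `d, f` be the witnesses of `Bad`, `y = threshold d`. As `D ≠ 0`, `f ≠ 0` and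
`|d| ≤ 4 |D| ≤ 8 X²`, so `κ L ≤ log |d| ≤ 2 L + log 8 ≤ 3 L`, `L = log X`, hence `Y0 ≤ y ≤ Y1` (all
logs increasing, `log (κ L) > 0` for large `X`). `|2 N - π(y)| > 2 δ π(y)`. By `sum_eq_split`,
`sum_sq_factor` and `omega_P` (with `m = d` and `m = f`, both nonzero and at most `8 X²` in absolute
value): `|∑ p ∈ Pr z y, jacobiSym D p| ≥ 2 δ π(y) - 3 (z + 2) - 2 log (8 X²) / log z`; the
subtracted terms are at most `10 L` for large `X`, while `δ π(y) ≥ δ π(Y0) ≥ δ (κL)² log(κL)/16`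
(monotonicity of `primeCount`). -/
theorem bad_bias (κ δ : ℝ) (hκ : 0 < κ) (hδ : 0 < δ) : ∃ X₀ : ℝ, ∀ X : ℝ, X₀ ≤ X → ∀ D : ℤ,
    |(D : ℝ)| ≤ 2 * X ^ 2 → Bad κ δ X D → ∃ y : ℝ, Y0 κ X ≤ y ∧ y ≤ Y1 X ∧
      δ * primeCount y ≤ |∑ p ∈ Pr (√(Real.log X)) y, (jacobiSym D p : ℝ)| := by
  obtain ⟨X₁, hX₁⟩ := pi_Y0_lower κ hκ
  obtain ⟨X₂, hX₂⟩ := Filter.eventually_atTop.1
    ((P1_tend κ hκ).eventually (Filter.eventually_ge_atTop (Real.exp 1)))
  obtain ⟨X₃, hX₃⟩ := Filter.eventually_atTop.1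
    (Real.tendsto_log_atTop.eventually (Filter.eventually_ge_atTop
      (max (Real.exp 2) (240 / (δ * κ ^ 2)))))
  refine ⟨max X₁ (max X₂ (max X₃ 1)), fun X hX D hD hbad => ?_⟩
  have h1 := hX₁ X ((le_max_left _ _).trans hX)
  have h2 := hX₂ X ((le_max_left _ _).trans ((le_max_right _ _).trans hX))
  have h3 := hX₃ X ((le_max_left _ _).trans ((le_max_right _ _).trans
    ((le_max_right _ _).trans hX)))
  have hX1 : 1 ≤ X := (le_max_right _ _).trans ((le_max_right _ _).trans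
    ((le_max_right _ _).trans hX))
  obtain ⟨hD0, d, f, hdf, hd4, hdX, hN⟩ := hbad
  set L := Real.log X with hL
  set u := κ * L with hu
  have hL2 : Real.exp 2 ≤ L := (le_max_left _ _).trans h3
  have hL3 : 240 / (δ * κ ^ 2) ≤ L := (le_max_right _ _).trans h3
  have he2 : (3 : ℝ) ≤ Real.exp 2 := by have := Real.add_one_le_exp (2 : ℝ); linarith only [this]
  have hexp : (2 : ℝ) ≤ Real.exp 1 := by have := Real.add_one_le_exp (1 : ℝ); linarith only [this]
  have hLp : 3 ≤ L := he2.trans hL2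
  have hlu : 1 ≤ Real.log u := P1_one_le h2
  have hu1 : 1 ≤ u := by linarith only [h2, hexp]
  -- sizes of `d` and `f`
  have hd0 : d ≠ 0 := by
    rintro rfl
    apply hD0
    have : 4 * D = 0 := by rw [hdf]; ring
    omega
  have hf0 : f ≠ 0 := by
    rintro rfl
    apply hD0
    have : 4 * D = 0 := by rw [hdf]; ring
    omega
  have hprod : |(d : ℝ)| * (f : ℝ) ^ 2 = 4 * |(D : ℝ)| := by
    have e1 : (4 * D : ℝ) = d * f ^ 2 := by exact_mod_cast hdf
    have e2 : |(4 * D : ℝ)| = |(d : ℝ) * f ^ 2| := by rw [e1]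
    rw [abs_mul, abs_mul, abs_of_pos (by norm_num : (0 : ℝ) < 4),
      abs_of_nonneg (sq_nonneg (f : ℝ))] at e2
    exact e2.symm
  have hd1 : (1 : ℝ) ≤ |(d : ℝ)| := by
    have : (1 : ℤ) ≤ |d| := Int.one_le_abs hd0
    exact_mod_cast this
  have hf1 : (1 : ℝ) ≤ |(f : ℝ)| := by
    have : (1 : ℤ) ≤ |f| := Int.one_le_abs hf0
    exact_mod_cast this
  have hf2 : (1 : ℝ) ≤ (f : ℝ) ^ 2 := by rw [← sq_abs]; nlinarith only [hf1]
  have hdle : |(d : ℝ)| ≤ 8 * X ^ 2 := by nlinarith only [hD, hprod, hf2, hd1]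
  have hfle : |(f : ℝ)| ≤ 8 * X ^ 2 := by
    have e1 : |(f : ℝ)| ≤ (f : ℝ) ^ 2 := by rw [← sq_abs]; nlinarith only [hf1]
    nlinarith only [hD, hprod, e1, hd1]
  have hXpos : 0 < X := by linarith only [hX1]
  have hlog8 : Real.log (8 * X ^ 2) ≤ 3 * L := by
    rw [Real.log_mul (by norm_num) (by (clear * - hX1; positivity)), Real.log_pow]
    have e1 : Real.log 8 ≤ 3 := by
      have e2 : (8 : ℝ) = 2 ^ 3 := by norm_num
      rw [e2, Real.log_pow]
      have := Real.log_two_lt_d9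
      push_cast
      linarith only [this]
    push_cast
    linarith only [hL2, he2, e1]
  have hw1 : u ≤ Real.log |(d : ℝ)| := by
    have e1 := Real.log_le_log (Real.rpow_pos_of_pos hXpos κ) hdX
    rwa [Real.log_rpow hXpos] at e1
  have hw2 : Real.log |(d : ℝ)| ≤ 3 * L :=
    (Real.log_le_log (by linarith only [hd1]) hdle).trans hlog8
  refine ⟨threshold d, ?_, ?_, ?_⟩
  · exact P1_monoY hu1 hw1
  · exact P1_monoY (hu1.trans hw1) hw2
  have hY0 : Y0 κ X ≤ threshold d := P1_monoY hu1 hw1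
  set y := threshold d with hy
  have hz0 : 0 ≤ √L := Real.sqrt_nonneg L
  have hzL : √L ≤ L := by
    rw [Real.sqrt_le_left (by linarith only [hL2, he2])]
    nlinarith only [hL2, he2]
  have hz1 : Real.exp 1 ≤ √L := by
    apply Real.le_sqrt_of_sq_le
    rw [← Real.exp_nat_mul]
    refine le_trans (le_of_eq ?_) hL2
    norm_num
  have hlz : 1 ≤ Real.log (√L) := P1_one_le hz1
  have hPr : ∀ p ∈ Pr (√L) y, p.Prime ∧ √L ≤ (p : ℝ) := by
    intro p hp
    rw [Pr, Finset.mem_filter, Nat.mem_primesBelow] at hp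
    exact ⟨hp.1.2, hp.2.1⟩
  have hq : Real.log (8 * X ^ 2) / Real.log (√L) ≤ 3 * L := by
    rw [div_le_iff₀ (by linarith only [hlz])]
    nlinarith only [hlog8, hlz, hL2, he2]
  have a1 := (omega_P hd0 (by linarith only [hexp, hz1] : (1 : ℝ) < √L) hdle (Pr (√L) y) hPr).trans hq
  have a2 := (omega_P hf0 (by linarith only [hexp, hz1] : (1 : ℝ) < √L) hfle (Pr (√L) y) hPr).trans hq
  have a3 := sum_eq_split d hd4 (√L) y hz0
  have a4 := sum_sq_factor D d f hdf (√L) y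
  have a5 : δ * primeCount y < |(splitCount d y : ℝ) - primeCount y / 2| := hN
  have a6 : 15 * L ≤ δ * primeCount y := by
    have b1 : (primeCount (Y0 κ X) : ℝ) ≤ primeCount y := P1_mono hY0
    have b2 : δ * (u ^ 2 * Real.log u / 16) ≤ δ * primeCount y :=
      mul_le_mul_of_nonneg_left (h1.trans b1) hδ.le
    refine le_trans ?_ b2
    rw [div_le_iff₀ (by (clear * - hδ hκ; positivity))] at hL3
    have b3 : 240 * L ≤ δ * u ^ 2 := by
      rw [hu]
      nlinarith only [hL3, hL2, he2]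
    have b4 : 0 ≤ δ * u ^ 2 := by (clear * - hδ hκ hLp; positivity)
    have b5 : δ * u ^ 2 ≤ δ * u ^ 2 * Real.log u := by nlinarith only [hlu, hL2, he2, b3]
    have b6 : δ * (u ^ 2 * Real.log u / 16) = (δ * u ^ 2 * Real.log u) / 16 := by ring
    rw [b6]
    linarith only [b3, b5]
  have a7 : |2 * (splitCount d y : ℝ) - primeCount y| =
      2 * |(splitCount d y : ℝ) - primeCount y / 2| := by
    rw [← abs_of_pos (by norm_num : (0 : ℝ) < 2), ← abs_mul, abs_of_pos (by norm_num : (0 : ℝ) < 2)]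
    congr 1
    ring
  have a8 := abs_sub_abs_le_abs_sub (2 * (splitCount d y : ℝ) - primeCount y)
    (∑ p ∈ Pr (√L) y, (jacobiSym d p : ℝ))
  have a9 := abs_sub_abs_le_abs_sub (∑ p ∈ Pr (√L) y, (jacobiSym d p : ℝ))
    (∑ p ∈ Pr (√L) y, (jacobiSym D p : ℝ))
  rw [abs_sub_comm] at a3 a4
  linarith only [hL2, he2, hzL, a1, a2, a3, a4, a5, a6, a7, a8, a9]

end T9
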