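import Pool.Agent.W_aaa0df_t9.P1

/-!
# T9, P2: the grid of prime sets, blocks of the set `B`, pigeonhole lemmas
-/

set_option autoImplicit false

namespace T9

open Finset MPaaa0df

/-- `primeCount` is monotone -/
theorem P2_mono {y y' : ℝ} (h : y ≤ y') : primeCount y ≤ primeCount y' := by
  rw [primeCount_eq, primeCount_eq, Nat.primesBelow_card_eq_primeCounting',
    Nat.primesBelow_card_eq_primeCounting']
  exact Nat.monotone_primeCounting' (Nat.ceil_le_ceil h)

/-- the index of a prime is smaller than `π'(m)` iff the prime is below `m` -/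
theorem P2_idx {p : ℕ} (hp : p.Prime) (m : ℕ) :
    Nat.primeCounting' p < Nat.primeCounting' m ↔ p < m := by
  constructor
  · intro h
    by_contra hh
    push Not at hh
    exact absurd (Nat.monotone_primeCounting' hh) (not_le.mpr h)
  · intro h
    have h1 : Nat.primeCounting' (p + 1) ≤ Nat.primeCounting' m :=
      Nat.monotone_primeCounting' h
    have h2 : Nat.primeCounting' (p + 1) = Nat.primeCounting' p + 1 := by
      change Nat.count Nat.Prime (p + 1) = Nat.count Nat.Prime p + 1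
      rw [Nat.count_succ, if_pos hp]
    omega

theorem P2_inj {p q : ℕ} (hp : p.Prime) (hq : q.Prime)
    (h : Nat.primeCounting' p = Nat.primeCounting' q) : p = q := by
  rcases lt_trichotomy p q with h1 | h1 | h1
  · have := (P2_idx hp q).mpr h1
    omega
  · exact h1
  · have := (P2_idx hq p).mpr h1
    omega

theorem P2_jac (D : ℤ) (p : ℕ) : |(jacobiSym D p : ℝ)| ≤ 1 := by
  rcases jacobiSym.trichotomy D p with h | h | h <;> rw [h] <;> simp

theorem P2_abs (s : Finset ℕ) (D : ℤ) : |∑ p ∈ s, (jacobiSym D p : ℝ)| ≤ s.card := by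
  calc |∑ p ∈ s, (jacobiSym D p : ℝ)| ≤ ∑ p ∈ s, |(jacobiSym D p : ℝ)| :=
        Finset.abs_sum_le_sum_abs _ _
    _ ≤ ∑ p ∈ s, (1 : ℝ) := Finset.sum_le_sum fun p _ => P2_jac D p
    _ = s.card := by simp

theorem P2_memPr {z y : ℝ} {p : ℕ} : p ∈ Pr z y ↔ p < ⌈y⌉₊ ∧ p.Prime ∧ z ≤ (p : ℝ) ∧ p ≠ 2 := by
  unfold Pr
  rw [Finset.mem_filter, Nat.mem_primesBelow, and_assoc]

/-- `√(log X)` large means `X` large -/
theorem P2_big (κ δ : ℝ) (hκ : 0 < κ) (hδ : 0 < δ) (X : ℝ)
    (hX : Real.exp (max 3 (64 / δ) / κ) ≤ X)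
    (h : (κ * Real.log X) ^ 2 * Real.log (κ * Real.log X) / 16 ≤ (primeCount (Y0 κ X) : ℝ)) :
    4 / δ ≤ (primeCount (Y0 κ X) : ℝ) := by
  have hL : max 3 (64 / δ) / κ ≤ Real.log X := by
    have h1 := Real.log_le_log (Real.exp_pos _) hX
    rwa [Real.log_exp] at h1
  have hL2 : max 3 (64 / δ) ≤ κ * Real.log X := by
    rw [div_le_iff₀ hκ] at hL
    linarith
  set u := κ * Real.log X with hu
  have h3 : 3 ≤ u := (le_max_left _ _).trans hL2
  have h4 : 64 / δ ≤ u := (le_max_right _ _).trans hL2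
  have h5 : 1 ≤ Real.log u := by
    rw [Real.le_log_iff_exp_le (by linarith)]
    exact (Real.exp_one_lt_d9.le.trans (by norm_num)).trans h3
  have h6 : u ≤ u ^ 2 * Real.log u := by
    have hu0 : 0 ≤ u := by linarith
    have h8 : 1 ≤ u * Real.log u := by
      calc (1 : ℝ) ≤ u * 1 := by linarith
        _ ≤ u * Real.log u := mul_le_mul_of_nonneg_left h5 hu0
    calc u = u * 1 := by ring
      _ ≤ u * (u * Real.log u) := mul_le_mul_of_nonneg_left h8 hu0
      _ = u ^ 2 * Real.log u := by ring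
  have h7 : 4 / δ = (64 / δ) / 16 := by
    field_simp
    norm_num
  rw [h7]
  calc (64 / δ) / 16 ≤ u / 16 := by linarith
    _ ≤ u ^ 2 * Real.log u / 16 := by linarith
    _ ≤ _ := h

/-- THE GRID: boundedly many sets of primes suffice for all thresholds.

PROOF. `s = ⌊(δ/2) π(Y0)⌋₊` (`≥ 1` for large `X`), `T i = (Pr z Y1).filter (fun p => Nat.primeCounting' p < i s)`
(`Nat.primeCounting' p` = number of primes `< p`). For `y ∈ [Y0, Y1]` let `n = Nat.primeCounting' ⌈y⌉₊`,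
`= primeCount y`, `i = n / s`. For a prime `p`: `p < ⌈y⌉₊ ↔ primeCounting' p < n`
(`Nat.primeCounting'` is monotone and increases at primes), so `T i ⊆ Pr z y` and the difference
`Pr z y \ T i` consists of primes with index in `[i s, n)`, at most `s` many (the index is injective
on primes). Hence `|∑_{T i}| ≥ δ π(y) - s ≥ (δ/2) π(y) ≥ (δ/2) |T i|`, and in particular
`|T i| ≥ |∑_{T i}| ≥ (δ/2) π(y) ≥ (δ/2) π(Y0)`. Finally `i ≤ π(Y1)/s ≤ J` with
`J = ⌈4 C / δ⌉₊`, `C` from `pi_ratio` (`s ≥ (δ/4) π(Y0)` as soon as `(δ/2) π(Y0) ≥ 2`). -/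
theorem grid (κ δ : ℝ) (hκ : 0 < κ) (hδ : 0 < δ) : ∃ (J : ℕ) (X₀ : ℝ), ∀ X : ℝ, X₀ ≤ X →
    ∃ T : ℕ → Finset ℕ, (∀ i, T i ⊆ Pr (√(Real.log X)) (Y1 X)) ∧
      ∀ y : ℝ, Y0 κ X ≤ y → y ≤ Y1 X → ∀ D : ℤ,
        δ * primeCount y ≤ |∑ p ∈ Pr (√(Real.log X)) y, (jacobiSym D p : ℝ)| →
        ∃ i ∈ range (J + 1), (δ / 2) * (T i).card ≤ |∑ p ∈ T i, (jacobiSym D p : ℝ)| ∧
          (δ / 2) * primeCount (Y0 κ X) ≤ (T i).card := by
  obtain ⟨X₁, hX₁⟩ := pi_Y0_lower κ hκ
  obtain ⟨C, X₂, hC, hX₂⟩ := pi_ratio κ hκ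
  refine ⟨⌈4 * C / δ⌉₊, max (max X₁ X₂) (Real.exp (max 3 (64 / δ) / κ)), fun X hX => ?_⟩
  have hXa : X₁ ≤ X := ((le_max_left _ _).trans (le_max_left _ _)).trans hX
  have hXb : X₂ ≤ X := ((le_max_right _ _).trans (le_max_left _ _)).trans hX
  have hXc : Real.exp (max 3 (64 / δ) / κ) ≤ X := (le_max_right _ _).trans hX
  have hπ0 := P2_big κ δ hκ hδ X hXc (hX₁ X hXa)
  have hrat := hX₂ X hXb
  set π0 : ℕ := primeCount (Y0 κ X) with hπ0def
  set z := √(Real.log X) with hz
  set s : ℕ := ⌊(δ / 2) * (π0 : ℝ)⌋₊ with hs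
  have hδπ : 1 ≤ (δ / 4) * (π0 : ℝ) := by
    have := mul_le_mul_of_nonneg_left hπ0 (by positivity : (0 : ℝ) ≤ δ / 4)
    have e : δ / 4 * (4 / δ) = 1 := by field_simp
    rw [e] at this
    exact this
  have hsle : (s : ℝ) ≤ (δ / 2) * π0 := Nat.floor_le (by positivity)
  have hsge : (δ / 4) * (π0 : ℝ) ≤ s := by
    have h1 : (δ / 2) * (π0 : ℝ) < s + 1 := Nat.lt_floor_add_one _
    linarith
  have hspos : 0 < s := by
    have : (0 : ℝ) < s := by linarith
    exact_mod_cast this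
  refine ⟨fun i => (Pr z (Y1 X)).filter (fun p => Nat.primeCounting' p < i * s),
    fun i => Finset.filter_subset _ _, fun y hy0 hy1 D hD => ?_⟩
  set n : ℕ := Nat.primeCounting' ⌈y⌉₊ with hn
  have hny : primeCount y = n := by
    rw [primeCount_eq, Nat.primesBelow_card_eq_primeCounting']
  set i : ℕ := n / s with hi
  have hin : i * s ≤ n := Nat.div_mul_le_self n s
  have hin2 : n < (i + 1) * s := by
    have := Nat.lt_div_mul_add hspos (a := n)
    rw [← hi] at this
    linarith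
  have hm0 : π0 ≤ primeCount y := P2_mono hy0
  have hm1 : primeCount y ≤ primeCount (Y1 X) := P2_mono hy1
  have hm0' : (π0 : ℝ) ≤ primeCount y := by exact_mod_cast hm0
  have hm1' : (primeCount y : ℝ) ≤ primeCount (Y1 X) := by exact_mod_cast hm1
  set T : Finset ℕ := (Pr z (Y1 X)).filter (fun p => Nat.primeCounting' p < i * s) with hT
  have hTsub : T ⊆ Pr z y := by
    intro p hp
    rw [hT, Finset.mem_filter, P2_memPr] at hp
    obtain ⟨⟨_, hpp, hzp, hp2⟩, hidx⟩ := hp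
    rw [P2_memPr]
    exact ⟨(P2_idx hpp _).mp (lt_of_lt_of_le hidx hin), hpp, hzp, hp2⟩
  have hdiff : ((Pr z y \ T).card) ≤ s := by
    have hmaps : ∀ p ∈ Pr z y \ T, Nat.primeCounting' p ∈ Finset.Ico (i * s) n := by
      intro p hp
      rw [Finset.mem_sdiff] at hp
      obtain ⟨hp1, hp2⟩ := hp
      have hp1' := P2_memPr.mp hp1
      rw [Finset.mem_Ico]
      refine ⟨?_, (P2_idx hp1'.2.1 _).mpr hp1'.1⟩
      by_contra hlt
      push Not at hlt
      apply hp2
      rw [hT, Finset.mem_filter, P2_memPr]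
      exact ⟨⟨lt_of_lt_of_le hp1'.1 (Nat.ceil_le_ceil hy1), hp1'.2⟩, hlt⟩
    have hinj : Set.InjOn Nat.primeCounting' (Pr z y \ T : Finset ℕ) := by
      intro p hp q hq hpq
      have hp' := P2_memPr.mp (Finset.mem_sdiff.mp (Finset.mem_coe.mp hp)).1
      have hq' := P2_memPr.mp (Finset.mem_sdiff.mp (Finset.mem_coe.mp hq)).1
      exact P2_inj hp'.2.1 hq'.2.1 hpq
    have h1 := Finset.card_le_card_of_injOn _ hmaps hinj
    rw [Nat.card_Ico] at h1
    have h2 : n < i * s + s := by linarith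
    omega
  have hdiff' : (((Pr z y \ T).card : ℕ) : ℝ) ≤ s := by exact_mod_cast hdiff
  have hsplit : ∑ p ∈ Pr z y, (jacobiSym D p : ℝ) =
      ∑ p ∈ Pr z y \ T, (jacobiSym D p : ℝ) + ∑ p ∈ T, (jacobiSym D p : ℝ) :=
    (Finset.sum_sdiff hTsub).symm
  have hTsum : (δ / 2) * primeCount y ≤ |∑ p ∈ T, (jacobiSym D p : ℝ)| := by
    have h1 := abs_add_le (∑ p ∈ Pr z y \ T, (jacobiSym D p : ℝ)) (∑ p ∈ T, (jacobiSym D p : ℝ))
    rw [← hsplit] at h1
    have h2 := P2_abs (Pr z y \ T) D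
    have h3 : (δ / 2) * (π0 : ℝ) ≤ (δ / 2) * primeCount y :=
      mul_le_mul_of_nonneg_left hm0' (by positivity)
    linarith
  have hTcard : (T.card : ℝ) ≤ primeCount y := by
    have h1 : T.card ≤ primeCount y := by
      rw [primeCount_eq]
      refine (Finset.card_le_card hTsub).trans ?_
      unfold Pr
      exact Finset.card_filter_le _ _
    exact_mod_cast h1
  refine ⟨i, ?_, ?_, ?_⟩
  · rw [Finset.mem_range, Nat.lt_succ_iff]
    have h1 : (i : ℝ) ≤ 4 * C / δ := by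
      have h2 : (i : ℝ) * s ≤ n := by exact_mod_cast hin
      have h3 : (n : ℝ) ≤ C * π0 := by
        have : (n : ℝ) = primeCount y := by rw [hny]
        rw [this]
        exact hm1'.trans hrat
      have hsR : (0 : ℝ) < s := by exact_mod_cast hspos
      have h4 : (π0 : ℝ) ≤ 4 / δ * s := by
        have := mul_le_mul_of_nonneg_left hsge (by positivity : (0 : ℝ) ≤ 4 / δ)
        have e : 4 / δ * (δ / 4 * (π0 : ℝ)) = π0 := by field_simp
        rw [e] at this
        exact this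
      have h5 : (i : ℝ) * s ≤ (4 * C / δ) * s := by
        calc (i : ℝ) * s ≤ n := h2
          _ ≤ C * π0 := h3
          _ ≤ C * (4 / δ * s) := mul_le_mul_of_nonneg_left h4 hC.le
          _ = (4 * C / δ) * s := by ring
      exact le_of_mul_le_mul_right h5 hsR
    have h6 : (i : ℝ) ≤ (⌈4 * C / δ⌉₊ : ℝ) := h1.trans (Nat.le_ceil _)
    exact_mod_cast h6
  · change (δ / 2) * (T.card : ℝ) ≤ |∑ p ∈ T, (jacobiSym D p : ℝ)|
    exact (mul_le_mul_of_nonneg_left hTcard (by positivity)).trans hTsum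
  · change (δ / 2) * (π0 : ℝ) ≤ (T.card : ℝ)
    calc (δ / 2) * (π0 : ℝ) ≤ (δ / 2) * primeCount y :=
          mul_le_mul_of_nonneg_left hm0' (by positivity)
      _ ≤ |∑ p ∈ T, (jacobiSym D p : ℝ)| := hTsum
      _ ≤ T.card := P2_abs T D

/-- Blocks: if every `a ∈ A` is related to at least `η |B|` of the `b ∈ B`, there is a block
`B₀ ⊆ B` of size between `n` and `2n` such that at least `(η/2)|A|` of the `a ∈ A` are related to at
least `(η/2)|B₀|` elements of `B₀`.

PROOF. Take an equipartition of `B` into `m = |B| / n ≥ 1` parts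
(`Finpartition.exists_equipartition_card_eq`); part sizes lie between `⌊|B|/m⌋ ≥ n` and
`⌊|B|/m⌋ + 1 ≤ 2n` (as `|B| < (m+1) n ≤ 2 m n`, so `⌊|B|/m⌋ ≤ 2n - 1`). For `a ∈ A` the parts where
`a` is related to fewer than `(η/2)|part|` elements contribute at most `(η/2)|B|`, so the parts which
are good for `a` have total size at least `(η/2)|B|`. Sum over `a`: `∑_parts |part| #{a good} ≥
(η/2)|B||A|`, so for some part `#{a good} ≥ (η/2)|A|` (`∑ |part| = |B| > 0`). -/
theorem exists_block {α β : Type*} (A : Finset α) (B : Finset β)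
    (G : α → β → Prop) (η : ℝ) (hη : 0 ≤ η) (n : ℕ) (hn : 1 ≤ n) (hnB : n ≤ B.card)
    (h : ∀ a ∈ A, ∃ B' ⊆ B, η * B.card ≤ (B'.card : ℝ) ∧ ∀ b ∈ B', G a b) :
    ∃ B₀ ⊆ B, n ≤ B₀.card ∧ B₀.card ≤ 2 * n ∧ ∃ A' ⊆ A, (η / 2) * A.card ≤ (A'.card : ℝ) ∧
      ∀ a ∈ A', ∃ B' ⊆ B₀, (η / 2) * B₀.card ≤ (B'.card : ℝ) ∧ ∀ b ∈ B', G a b := by
  classical
  set m := B.card / n with hm
  have hn0 : 0 < n := hn
  have hm1 : 1 ≤ m := by
    rw [hm]
    exact (Nat.one_le_div_iff hn0).mpr hnB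
  have hmB : m ≤ B.card := Nat.div_le_self _ _
  obtain ⟨P, hPeq, hPcard⟩ := Finpartition.exists_equipartition_card_eq (s := B) (n := m)
    (by omega) hmB
  have hmn : m * n ≤ B.card := Nat.div_mul_le_self _ _
  have hlow : n ≤ B.card / m := by
    rw [Nat.le_div_iff_mul_le (by omega)]
    rw [mul_comm]
    exact hmn
  have hupp : B.card / m + 1 ≤ 2 * n := by
    have h1 : B.card < m * n + n := Nat.lt_div_mul_add hn0
    have h2 : B.card / m < 2 * n := by
      rw [Nat.div_lt_iff_lt_mul (by omega)]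
      have h3 : n ≤ m * n := Nat.le_mul_of_pos_left n (by omega)
      calc B.card < m * n + n := h1
        _ ≤ m * n + m * n := by omega
        _ = 2 * n * m := by ring
    omega
  have hparts : ∀ t ∈ P.parts, n ≤ t.card ∧ t.card ≤ 2 * n := by
    intro t ht
    have h1 := hPeq.card_parts_eq_average ht
    rw [hPcard] at h1
    rcases h1 with h1 | h1 <;> omega
  choose! B' hB'sub hB'card hB'G using h
  -- the good pairs
  set gd : α → Finset β → Prop := fun a t => (η / 2) * (t.card : ℝ) ≤ ((B' a ∩ t).card : ℝ) with hgd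
  have hsumparts : ∑ t ∈ P.parts, (t.card : ℝ) = B.card := by
    have := P.sum_card_parts
    exact_mod_cast this
  have hkey : ∀ a ∈ A, (η / 2) * (B.card : ℝ) ≤
      ∑ t ∈ P.parts, (if gd a t then (t.card : ℝ) else 0) := by
    intro a ha
    have h1 : (B' a).card = ∑ t ∈ P.parts, (B' a ∩ t).card := by
      have hbu : B' a = P.parts.biUnion (fun t => B' a ∩ t) := by
        ext b
        rw [Finset.mem_biUnion]
        constructor
        · intro hb
          obtain ⟨t, ht, hbt⟩ := P.exists_mem (hB'sub a ha hb)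
          exact ⟨t, ht, Finset.mem_inter.mpr ⟨hb, hbt⟩⟩
        · rintro ⟨t, _, hbt⟩
          exact (Finset.mem_inter.mp hbt).1
      conv_lhs => rw [hbu]
      rw [Finset.card_biUnion]
      intro t ht t' ht' htt'
      have hd := P.disjoint ht ht' htt'
      exact Finset.disjoint_of_subset_left Finset.inter_subset_right
        (Finset.disjoint_of_subset_right Finset.inter_subset_right hd)
    have h2 : ((B' a).card : ℝ) = ∑ t ∈ P.parts, ((B' a ∩ t).card : ℝ) := by
      rw [h1]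
      push_cast
      rfl
    have h3 : ((B' a).card : ℝ) ≤ ∑ t ∈ P.parts, ((if gd a t then (t.card : ℝ) else 0)
        + (η / 2) * t.card) := by
      rw [h2]
      refine Finset.sum_le_sum fun t _ => ?_
      by_cases hg : gd a t
      · rw [if_pos hg]
        have h4 : ((B' a ∩ t).card : ℝ) ≤ t.card := by
          exact_mod_cast Finset.card_le_card Finset.inter_subset_right
        have h5 : 0 ≤ (η / 2) * (t.card : ℝ) := by positivity
        linarith
      · rw [if_neg hg]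
        have h4 : ((B' a ∩ t).card : ℝ) < (η / 2) * (t.card : ℝ) := not_le.mp hg
        linarith
    rw [Finset.sum_add_distrib, ← Finset.mul_sum, hsumparts] at h3
    have h6 := hB'card a ha
    linarith
  have htot : ∑ t ∈ P.parts, (t.card : ℝ) * ((η / 2) * A.card) ≤
      ∑ t ∈ P.parts, (t.card : ℝ) * ((A.filter (fun a => gd a t)).card : ℝ) := by
    calc ∑ t ∈ P.parts, (t.card : ℝ) * ((η / 2) * A.card)
        = ∑ a ∈ A, (η / 2) * (B.card : ℝ) := by
          rw [← Finset.sum_mul, hsumparts, Finset.sum_const, nsmul_eq_mul]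
          ring
      _ ≤ ∑ a ∈ A, ∑ t ∈ P.parts, (if gd a t then (t.card : ℝ) else 0) :=
          Finset.sum_le_sum hkey
      _ = ∑ t ∈ P.parts, (t.card : ℝ) * ((A.filter (fun a => gd a t)).card : ℝ) := by
          rw [Finset.sum_comm]
          refine Finset.sum_congr rfl fun t _ => ?_
          rw [← Finset.sum_filter, Finset.sum_const, nsmul_eq_mul, mul_comm]
  have hne : P.parts.Nonempty := by
    rw [← Finset.card_pos, hPcard]
    omega
  obtain ⟨t, ht, hle⟩ := Finset.exists_le_of_sum_le hne htot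
  have htpos : (0 : ℝ) < t.card := by
    have := (hparts t ht).1
    have h1 : 0 < t.card := by omega
    exact_mod_cast h1
  refine ⟨t, P.le ht, (hparts t ht).1, (hparts t ht).2, A.filter (fun a => gd a t),
    Finset.filter_subset _ _, le_of_mul_le_mul_left hle htpos, ?_⟩
  intro a ha
  obtain ⟨ha1, ha2⟩ := Finset.mem_filter.mp ha
  exact ⟨B' a ∩ t, Finset.inter_subset_right, ha2,
    fun b hb => hB'G a ha1 b (Finset.mem_inter.mp hb).1⟩

/-- Pigeonhole over the grid: if every `a ∈ A` has at least `η |B|` elements `b` with `G i a b` for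
some `i ≤ J`, then for one `i` at least `|A| / (J+1)` of the `a ∈ A` have at least `(η/(J+1)) |B|`
elements `b` with `G i a b`.

PROOF. For each `a` some `i` works (sum over `i` of the cardinalities), then the most popular `i`. -/
theorem pigeon {α β : Type*} (A : Finset α) (B : Finset β) (J : ℕ) (G : ℕ → α → β → Prop) (η : ℝ)
    (h : ∀ a ∈ A, ∃ B' ⊆ B, η * B.card ≤ (B'.card : ℝ) ∧
      ∀ b ∈ B', ∃ i ∈ range (J + 1), G i a b) :
    ∃ i ∈ range (J + 1), ∃ A' ⊆ A, (A.card : ℝ) / (J + 1) ≤ (A'.card : ℝ) ∧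
      ∀ a ∈ A', ∃ B' ⊆ B, η / (J + 1) * B.card ≤ (B'.card : ℝ) ∧ ∀ b ∈ B', G i a b := by
  classical
  have hJ : (0 : ℝ) < (J : ℝ) + 1 := by positivity
  have hne : (range (J + 1)).Nonempty := ⟨0, Finset.mem_range.mpr (Nat.succ_pos J)⟩
  have h1 : ∀ a ∈ A, ∃ i ∈ range (J + 1), ∃ B' ⊆ B, η / (J + 1) * B.card ≤ (B'.card : ℝ) ∧
      ∀ b ∈ B', G i a b := by
    intro a ha
    obtain ⟨B', hB', hc, hG⟩ := h a ha
    have hsum : ∑ i ∈ range (J + 1), (η / (J + 1) * (B.card : ℝ)) ≤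
        ∑ i ∈ range (J + 1), ((B'.filter (fun b => G i a b)).card : ℝ) := by
      have e1 : ∑ i ∈ range (J + 1), (η / (J + 1) * (B.card : ℝ)) = η * B.card := by
        rw [Finset.sum_const, nsmul_eq_mul, Finset.card_range]
        push_cast
        field_simp
      have e2 : (B'.card : ℝ) ≤ ∑ i ∈ range (J + 1), ((B'.filter (fun b => G i a b)).card : ℝ) := by
        have hsub : B' ⊆ (range (J + 1)).biUnion (fun i => B'.filter (fun b => G i a b)) := by
          intro b hb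
          obtain ⟨i, hi, hGi⟩ := hG b hb
          exact Finset.mem_biUnion.mpr ⟨i, hi, Finset.mem_filter.mpr ⟨hb, hGi⟩⟩
        have h2 := (Finset.card_le_card hsub).trans Finset.card_biUnion_le
        exact_mod_cast h2
      rw [e1]
      exact hc.trans e2
    obtain ⟨i, hi, hle⟩ := Finset.exists_le_of_sum_le hne hsum
    exact ⟨i, hi, B'.filter (fun b => G i a b), (Finset.filter_subset _ _).trans hB', hle,
      fun b hb => (Finset.mem_filter.mp hb).2⟩
  choose! f hf hf2 using h1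
  have hsum : ∑ i ∈ range (J + 1), ((A.card : ℝ) / (J + 1)) ≤
      ∑ i ∈ range (J + 1), ((A.filter (fun a => f a = i)).card : ℝ) := by
    have e1 : ∑ i ∈ range (J + 1), ((A.card : ℝ) / (J + 1)) = A.card := by
      rw [Finset.sum_const, nsmul_eq_mul, Finset.card_range]
      push_cast
      field_simp
    rw [e1]
    have hsub : A ⊆ (range (J + 1)).biUnion (fun i => A.filter (fun a => f a = i)) := by
      intro a ha
      exact Finset.mem_biUnion.mpr ⟨f a, hf a ha, Finset.mem_filter.mpr ⟨ha, rfl⟩⟩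
    have h2 := (Finset.card_le_card hsub).trans Finset.card_biUnion_le
    exact_mod_cast h2
  obtain ⟨i, hi, hle⟩ := Finset.exists_le_of_sum_le hne hsum
  refine ⟨i, hi, A.filter (fun a => f a = i), Finset.filter_subset _ _, hle, ?_⟩
  intro a ha
  obtain ⟨ha1, ha2⟩ := Finset.mem_filter.mp ha
  have := hf2 a ha1
  rw [ha2] at this
  exact this

/-- Bad primes of a block: the primes of `T` (all `≥ z > 1`, odd) that are not good for the block
`B` (all `b.1 ≠ 0`, determinants nonzero, entries at most `X ≥ 1`) are few.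

PROOF. Such a `p` divides some `b.1`, `b ∈ B`, or some `cr b b'`, `b ≠ b'`; nonzero integers of
absolute value `≤ 2 X²` (`X ≤ 2 X²`); apply `omega_P` to each and sum: at most
`(|B| + |B|²) log (2X²)/log z ≤ 2 |B|² log (2X²) / log z`. -/
theorem few_bad_primes (B : Finset (ℤ × ℤ)) (X z : ℝ) (hX : 1 ≤ X) (hz : 1 < z)
    (hB : ∀ b ∈ B, |(b.1 : ℝ)| ≤ X ∧ |(b.2 : ℝ)| ≤ X ∧ b.1 ≠ 0)
    (hB2 : ∀ b ∈ B, ∀ b' ∈ B, b ≠ b' → cr b b' ≠ 0) (T : Finset ℕ)
    (hT : ∀ p ∈ T, p.Prime ∧ p ≠ 2 ∧ z ≤ (p : ℝ)) :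
    ∃ P ⊆ T, (∀ p ∈ P, GoodP B p) ∧
      ((T \ P).card : ℝ) ≤ 2 * (B.card : ℝ) ^ 2 * (Real.log (2 * X ^ 2) / Real.log z) := by
  classical
  have hX0 : (0 : ℝ) ≤ X := by linarith
  have hXX : X ≤ 2 * X ^ 2 := by nlinarith
  set D : ℝ := 2 * X ^ 2 with hD
  have hD1 : 1 ≤ D := hX.trans hXX
  set R : ℝ := Real.log D / Real.log z with hR
  have hR0 : 0 ≤ R := div_nonneg (Real.log_nonneg hD1) (Real.log_pos hz).le
  have hTz : ∀ p ∈ T, p.Prime ∧ z ≤ (p : ℝ) := fun p hp => ⟨(hT p hp).1, (hT p hp).2.2⟩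
  refine ⟨T.filter (fun p => GoodP B p), Finset.filter_subset _ _,
    fun p hp => (Finset.mem_filter.mp hp).2, ?_⟩
  set U1 : Finset ℕ := B.biUnion (fun b => T.filter (fun p : ℕ => (p : ℤ) ∣ b.1)) with hU1
  set W : Finset ((ℤ × ℤ) × (ℤ × ℤ)) := (B ×ˢ B).filter (fun w => w.1 ≠ w.2) with hW
  set U2 : Finset ℕ := W.biUnion (fun w => T.filter (fun p : ℕ => (p : ℤ) ∣ cr w.1 w.2)) with hU2
  have hsub : T \ T.filter (fun p => GoodP B p) ⊆ U1 ∪ U2 := by
    intro p hp
    rw [Finset.mem_sdiff, Finset.mem_filter] at hp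
    obtain ⟨hpT, hng⟩ := hp
    have hng' : ¬ GoodP B p := fun h => hng ⟨hpT, h⟩
    unfold GoodP at hng'
    rw [Finset.mem_union, hU1, hU2, Finset.mem_biUnion, Finset.mem_biUnion]
    by_contra hcon
    push Not at hcon
    obtain ⟨hc1, hc2⟩ := hcon
    apply hng'
    refine ⟨(hT p hpT).1, (hT p hpT).2.1, ?_, ?_⟩
    · intro b hb hdvd
      exact hc1 b hb (Finset.mem_filter.mpr ⟨hpT, hdvd⟩)
    · intro b hb b' hb' hne hdvd
      refine hc2 (b, b') ?_ (Finset.mem_filter.mpr ⟨hpT, hdvd⟩)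
      rw [hW, Finset.mem_filter, Finset.mem_product]
      exact ⟨⟨hb, hb'⟩, hne⟩
  have hc1 : (U1.card : ℝ) ≤ B.card * R := by
    have h1 : (U1.card : ℝ) ≤ ∑ b ∈ B, ((T.filter (fun p : ℕ => (p : ℤ) ∣ b.1)).card : ℝ) := by
      have := Finset.card_biUnion_le (s := B) (t := fun b => T.filter (fun p : ℕ => (p : ℤ) ∣ b.1))
      exact_mod_cast this
    refine h1.trans ?_
    calc ∑ b ∈ B, ((T.filter (fun p : ℕ => (p : ℤ) ∣ b.1)).card : ℝ) ≤ ∑ b ∈ B, R := by
          refine Finset.sum_le_sum fun b hb => ?_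
          exact omega_P (hB b hb).2.2 hz ((hB b hb).1.trans hXX) T hTz
      _ = B.card * R := by rw [Finset.sum_const, nsmul_eq_mul]
  have hc2 : (U2.card : ℝ) ≤ (B.card : ℝ) ^ 2 * R := by
    have h1 : (U2.card : ℝ) ≤ ∑ w ∈ W, ((T.filter (fun p : ℕ => (p : ℤ) ∣ cr w.1 w.2)).card : ℝ) := by
      have := Finset.card_biUnion_le (s := W)
        (t := fun w => T.filter (fun p : ℕ => (p : ℤ) ∣ cr w.1 w.2))
      exact_mod_cast this
    refine h1.trans ?_
    have hWc : (W.card : ℝ) ≤ (B.card : ℝ) ^ 2 := by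
      have h2 : W.card ≤ B.card * B.card := by
        rw [hW, ← Finset.card_product]
        exact Finset.card_filter_le _ _
      rw [sq]
      exact_mod_cast h2
    calc ∑ w ∈ W, ((T.filter (fun p : ℕ => (p : ℤ) ∣ cr w.1 w.2)).card : ℝ) ≤ ∑ w ∈ W, R := by
          refine Finset.sum_le_sum fun w hw => ?_
          rw [hW, Finset.mem_filter, Finset.mem_product] at hw
          obtain ⟨⟨hw1, hw2⟩, hne⟩ := hw
          refine omega_P (hB2 w.1 hw1 w.2 hw2 hne) hz ?_ T hTz
          have ha := hB w.1 hw1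
          have hb := hB w.2 hw2
          unfold cr
          push_cast
          have e1 : |((w.1.1 : ℤ) : ℝ) * ((w.2.2 : ℤ) : ℝ)| ≤ X * X := by
            rw [abs_mul]
            exact mul_le_mul ha.1 hb.2.1 (abs_nonneg _) hX0
          have e2 : |((w.1.2 : ℤ) : ℝ) * ((w.2.1 : ℤ) : ℝ)| ≤ X * X := by
            rw [abs_mul]
            exact mul_le_mul ha.2.1 hb.1 (abs_nonneg _) hX0
          calc |((w.1.1 : ℤ) : ℝ) * ((w.2.2 : ℤ) : ℝ) - ((w.1.2 : ℤ) : ℝ) * ((w.2.1 : ℤ) : ℝ)|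
              ≤ |((w.1.1 : ℤ) : ℝ) * ((w.2.2 : ℤ) : ℝ)| + |((w.1.2 : ℤ) : ℝ) * ((w.2.1 : ℤ) : ℝ)| :=
                abs_sub _ _
            _ ≤ X * X + X * X := add_le_add e1 e2
            _ = D := by rw [hD]; ring
      _ = W.card * R := by rw [Finset.sum_const, nsmul_eq_mul]
      _ ≤ (B.card : ℝ) ^ 2 * R := mul_le_mul_of_nonneg_right hWc hR0
  have hBB : (B.card : ℝ) ≤ (B.card : ℝ) ^ 2 := by
    rcases Nat.eq_zero_or_pos B.card with h | h
    · rw [h]; simp
    · have : (1 : ℝ) ≤ B.card := by exact_mod_cast h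
      nlinarith
  calc (((T \ T.filter (fun p => GoodP B p)).card : ℕ) : ℝ) ≤ ((U1 ∪ U2).card : ℝ) := by
        exact_mod_cast Finset.card_le_card hsub
    _ ≤ (U1.card : ℝ) + U2.card := by exact_mod_cast Finset.card_union_le _ _
    _ ≤ B.card * R + (B.card : ℝ) ^ 2 * R := add_le_add hc1 hc2
    _ ≤ (B.card : ℝ) ^ 2 * R + (B.card : ℝ) ^ 2 * R := by
        have := mul_le_mul_of_nonneg_right hBB hR0
        linarith
    _ = 2 * (B.card : ℝ) ^ 2 * R := by ring

end T9
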