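import Pool.Agent.W_aaa0df_t9.P4

/-!
# T9, P5: every arithmetic progression of length `(log X)^(1+ε)`, with arbitrary common difference
-/

set_option autoImplicit false

namespace T9

open Finset MPaaa0df

/-- `Bad` at scale `X` is `Bad` at scale `2 X` with half the exponent.

PROOF. `(2X)^(κ/2) ≤ X^κ` as soon as `2 ≤ X`. -/
theorem bad_double (κ δ X : ℝ) (hκ : 0 < κ) (hX : 2 ≤ X) (D : ℤ) (h : Bad κ δ X D) :
    Bad (κ / 2) δ (2 * X) D := by
  obtain ⟨hD, d, f, h1, h2, h3, h4⟩ := h
  refine ⟨hD, d, f, h1, h2, le_trans ?_ h3, h4⟩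
  have h5 : (2 * X) ≤ X ^ 2 := by nlinarith
  calc (2 * X) ^ (κ / 2) ≤ (X ^ 2) ^ (κ / 2) := by
        apply Real.rpow_le_rpow (by linarith) h5 (by linarith)
    _ = X ^ κ := by
        rw [← Real.rpow_natCast, ← Real.rpow_mul (by linarith)]
        congr 1
        push_cast
        ring

/-- Counting sub-progressions. `S` a set of at least `η H` indices `j < H`; `n M ≤ η H / 4`; for each
`m ≤ M` there are at least `(η/4) H` indices `i < H` for which at least `(η/4) n` of the indices
`i + j m`, `j < n`, lie in `S`.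

PROOF. For fixed `j < n` the number of `i < H` with `i + j m ∈ S` is at least
`|S| - j m ≥ η H - n M ≥ (3η/4) H` (`i = s - j m` for the `s ∈ S` with `s ≥ j m`). Sum over `j`:
`∑_{i<H} #{j < n : i + j m ∈ S} ≥ (3η/4) H n`. The `i` with fewer than `(η/4) n` contribute at most
`(η/4) n H`, the others at most `n` each, so there are at least `(η/2) H` of the latter. -/
theorem sub_ap (S : Finset ℕ) (H n M m : ℕ) (η : ℝ) (hη : 0 < η) (hS : S ⊆ range H)
    (hcard : η * H ≤ (S.card : ℝ)) (hnM : (n : ℝ) * M ≤ η * H / 4) (hm : m ≤ M) (hn : 1 ≤ n) :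
    (η / 4) * H ≤ (((range H).filter (fun i => (η / 4) * n ≤
      (((range n).filter (fun j => i + j * m ∈ S)).card : ℝ))).card : ℝ) := by
  set f : ℕ → ℕ := fun i => ((range n).filter (fun j => i + j * m ∈ S)).card with hf
  have hnR : (1 : ℝ) ≤ n := by exact_mod_cast hn
  have hHR : (0 : ℝ) ≤ H := Nat.cast_nonneg _
  -- double counting
  have hdc : ∑ i ∈ range H, f i = ∑ j ∈ range n, ((range H).filter (fun i => i + j * m ∈ S)).card := by
    simp only [hf, Finset.card_filter]
    exact Finset.sum_comm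
  have hj : ∀ j ∈ range n, (3 * η / 4) * H ≤
      (((range H).filter (fun i => i + j * m ∈ S)).card : ℝ) := by
    intro j hj
    have hj' : j < n := mem_range.mp hj
    have h1 : (S.filter (fun s => j * m ≤ s)).card ≤
        ((range H).filter (fun i => i + j * m ∈ S)).card := by
      apply Finset.card_le_card_of_injOn (fun s => s - j * m)
      · intro s hs
        have hs' := mem_filter.mp (mem_coe.mp hs)
        have hsH := mem_range.mp (hS hs'.1)
        simp only [coe_filter, mem_range, Set.mem_ofPred_eq]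
        refine ⟨by omega, ?_⟩
        rw [Nat.sub_add_cancel hs'.2]
        exact hs'.1
      · intro s hs s' hs' he
        have h1 := (mem_filter.mp (mem_coe.mp hs)).2
        have h2 := (mem_filter.mp (mem_coe.mp hs')).2
        simp only at he
        omega
    have h2 : (S.filter (fun s => ¬ j * m ≤ s)).card ≤ j * m := by
      have : S.filter (fun s => ¬ j * m ≤ s) ⊆ range (j * m) := by
        intro s hs
        rw [mem_filter] at hs
        rw [mem_range]
        omega
      exact (Finset.card_le_card this).trans (by simp)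
    have h3 := Finset.card_filter_add_card_filter_not (s := S) (fun s => j * m ≤ s)
    have h4 : S.card ≤ ((range H).filter (fun i => i + j * m ∈ S)).card + j * m := by omega
    have h5 : j * m ≤ n * M := Nat.mul_le_mul hj'.le hm
    have h6 : (S.card : ℝ) ≤ ((range H).filter (fun i => i + j * m ∈ S)).card + n * M := by
      exact_mod_cast h4.trans (Nat.add_le_add_left h5 _)
    linarith
  have htot : (n : ℝ) * ((3 * η / 4) * H) ≤ ((∑ i ∈ range H, f i : ℕ) : ℝ) := by
    rw [hdc]
    push_cast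
    calc (n : ℝ) * ((3 * η / 4) * H) = ∑ j ∈ range n, ((3 * η / 4) * H : ℝ) := by
          rw [sum_const, card_range, nsmul_eq_mul]
      _ ≤ _ := sum_le_sum hj
  -- upper bound
  have hup : ((∑ i ∈ range H, f i : ℕ) : ℝ) ≤
      n * (((range H).filter (fun i => (η / 4) * n ≤ (f i : ℝ))).card : ℝ) + (η / 4) * n * H := by
    push_cast
    rw [← Finset.sum_filter_add_sum_filter_not (range H) (fun i => (η / 4) * n ≤ (f i : ℝ))]
    apply add_le_add
    · calc ∑ i ∈ (range H).filter (fun i => (η / 4) * n ≤ (f i : ℝ)), (f i : ℝ)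
          ≤ ∑ i ∈ (range H).filter (fun i => (η / 4) * n ≤ (f i : ℝ)), (n : ℝ) := by
            apply sum_le_sum
            intro i _
            have : f i ≤ n := by
              have := Finset.card_filter_le (range n) (fun j => i + j * m ∈ S)
              simpa using this
            exact_mod_cast this
        _ = _ := by rw [sum_const, nsmul_eq_mul, mul_comm]
    · calc ∑ i ∈ (range H).filter (fun i => ¬ (η / 4) * n ≤ (f i : ℝ)), (f i : ℝ)
          ≤ ∑ i ∈ (range H).filter (fun i => ¬ (η / 4) * n ≤ (f i : ℝ)), ((η / 4) * n : ℝ) := by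
            apply sum_le_sum
            intro i hi
            exact (not_le.mp (mem_filter.mp hi).2).le
        _ = (((range H).filter (fun i => ¬ (η / 4) * n ≤ (f i : ℝ))).card : ℝ) * ((η / 4) * n) := by
            rw [sum_const, nsmul_eq_mul]
        _ ≤ (H : ℝ) * ((η / 4) * n) := by
            apply mul_le_mul_of_nonneg_right _ (by positivity)
            have := Finset.card_filter_le (range H) (fun i => ¬ (η / 4) * n ≤ (f i : ℝ))
            rw [card_range] at this
            exact_mod_cast this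
        _ = (η / 4) * n * H := by ring
  have hfin : (n : ℝ) * ((η / 2) * H) ≤
      n * (((range H).filter (fun i => (η / 4) * n ≤ (f i : ℝ))).card : ℝ) := by
    have := htot.trans hup
    linarith
  have h7 := le_of_mul_le_mul_left hfin (by linarith)
  have h8 : (η / 4) * H ≤ (η / 2) * H := mul_le_mul_of_nonneg_right (by linarith) hHR
  exact h8.trans h7

/-- The vectors of the sub-progressions are pairwise non-proportional.

PROOF. `g = h s`, `r = h t`, `gcd(s, t) = 1`, `h ≠ 0`, `t ≠ 0`. With `a = (m r, g + i r)`,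
`a' = (m' r, g + i' r)`: `cr a a' = r h (m (s + i' t) - m' (s + i t))`. If this vanishes and `m = m'`
then `i = i'`. If `m ≠ m'` (primes) then `m ∣ s + i t`, excluded. -/
theorem ap_vectors (h s t : ℤ) (hh : h ≠ 0) (ht : t ≠ 0) (m m' i i' : ℕ) (hm : m.Prime)
    (hm' : m'.Prime) (hms : ¬ (m : ℤ) ∣ s + i * t) (hne : (i, m) ≠ (i', m')) :
    cr ((m : ℤ) * (h * t), h * s + i * (h * t)) ((m' : ℤ) * (h * t), h * s + i' * (h * t)) ≠ 0 := by
  intro h0
  unfold cr at h0
  simp only at h0
  have h1 : h * h * t * ((m : ℤ) * (s + i' * t) - m' * (s + i * t)) = 0 := by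
    rw [← h0]; ring
  have h2 : (m : ℤ) * (s + i' * t) - m' * (s + i * t) = 0 := by
    rcases mul_eq_zero.mp h1 with h3 | h3
    · exact absurd h3 (mul_ne_zero (mul_ne_zero hh hh) ht)
    · exact h3
  by_cases hmm : m = m'
  · subst hmm
    have hm0 : (m : ℤ) ≠ 0 := by exact_mod_cast hm.ne_zero
    have h3 : (m : ℤ) * t * ((i' : ℤ) - i) = 0 := by linear_combination h2
    have h4 : (i' : ℤ) - i = 0 := by
      rcases mul_eq_zero.mp h3 with h5 | h5
      · exact absurd h5 (mul_ne_zero hm0 ht)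
      · exact h5
    apply hne
    have : i = i' := by omega
    rw [this]
  · apply hms
    have h3 : (m : ℤ) ∣ m' * (s + i * t) := ⟨s + i' * t, by linear_combination -h2⟩
    have hcop : IsCoprime (m : ℤ) (m' : ℤ) := by
      rw [Nat.isCoprime_iff_coprime]
      exact (Nat.coprime_primes hm hm').mpr hmm
    exact hcop.dvd_of_dvd_mul_left h3

/-- For coprime `s, t` and a prime `m`, the number of `i < H` with `m ∣ s + i t` is at most
`H / m + 1`.

PROOF. If `m ∣ t` then `m ∣ s`, contradiction, so none. Otherwise these `i` lie in one residue class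
modulo `m` (`Nat.count_modEq_card` or an injection `i ↦ i / m`). -/
theorem few_i (s t : ℤ) (hst : IsCoprime s t) (m H : ℕ) (hm : m.Prime) :
    (((range H).filter (fun i : ℕ => (m : ℤ) ∣ s + i * t)).card : ℝ) ≤ (H : ℝ) / m + 1 := by
  by_cases hmt : (m : ℤ) ∣ t
  · have hempty : (range H).filter (fun i : ℕ => (m : ℤ) ∣ s + i * t) = ∅ := by
      rw [filter_eq_empty_iff]
      intro i _ hd
      have h1 : (m : ℤ) ∣ s := by
        have := dvd_sub hd (dvd_mul_of_dvd_right hmt (i : ℤ))
        simpa using this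
      have h2 := hst.isUnit_of_dvd' h1 hmt
      have h3 := (Nat.prime_iff_prime_int.mp hm).not_isUnit
      exact h3 h2
    rw [hempty]
    simp only [card_empty, Nat.cast_zero]
    positivity
  · have hp := Nat.prime_iff_prime_int.mp hm
    have h1 : ((range H).filter (fun i : ℕ => (m : ℤ) ∣ s + i * t)).card ≤ (range (H / m + 1)).card := by
      apply Finset.card_le_card_of_injOn (fun i => i / m)
      · intro i hi
        have hi' := mem_range.mp (mem_filter.mp (mem_coe.mp hi)).1
        simp only [coe_range, Set.mem_Iio]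
        exact Nat.lt_succ_of_le (Nat.div_le_div_right hi'.le)
      · intro i hi i' hi' he
        simp only at he
        have h2 := (mem_filter.mp (mem_coe.mp hi)).2
        have h3 := (mem_filter.mp (mem_coe.mp hi')).2
        have h4 : (m : ℤ) ∣ ((i : ℤ) - i') * t := by
          have := dvd_sub h2 h3
          have he2 : s + (i : ℤ) * t - (s + i' * t) = ((i : ℤ) - i') * t := by ring
          rwa [he2] at this
        rcases hp.dvd_or_dvd h4 with h5 | h5
        · have h6 : (i : ℤ) ≡ i' [ZMOD m] := (Int.modEq_iff_dvd.mpr (by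
            have := dvd_neg.mpr h5
            simpa using this))
          have h7 : i % m = i' % m := by
            have := (Int.natCast_modEq_iff).mp h6
            exact this
          rw [← Nat.div_add_mod i m, ← Nat.div_add_mod i' m, he, h7]
        · exact absurd h5 hmt
    rw [card_range] at h1
    have h2 : (((range H).filter (fun i : ℕ => (m : ℤ) ∣ s + i * t)).card : ℝ) ≤
        ((H / m : ℕ) : ℝ) + 1 := by exact_mod_cast h1
    have h3 : ((H / m : ℕ) : ℝ) ≤ (H : ℝ) / m := Nat.cast_div_le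
    linarith

/-- asymptotic inequalities for `progressions` -/
theorem P5_asym (ε η C y₀ m₀ : ℝ) (hε : 0 < ε) (hε1 : ε ≤ 1) (hη : 0 < η) :
    ∃ X₀ : ℝ, ∀ X : ℝ, X₀ ≤ X → 2 ≤ X ∧ 2 ≤ Real.log X ∧ Real.log X + 1 ≤ X ∧
      8 / η ≤ Real.log X ^ (ε / 4) ∧ y₀ ≤ Real.log X ^ (1 + ε / 2) ∧
      2 * Real.log X ≤ Real.log X ^ (1 + ε / 2) / (4 * Real.log (Real.log X ^ (1 + ε / 2))) ∧
      m₀ ≤ Real.log X ∧ 1 ≤ (3 * η / 32) * Real.log X ^ (1 + ε) ∧
      C * (Real.log (2 * X) ^ 2 * Real.log (Real.log (2 * X)) ^ 2) <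
        (η / 8) * Real.log X ^ (2 + ε) := by
  have t1 : Filter.Tendsto (fun X : ℝ => Real.log X) Filter.atTop Filter.atTop :=
    Real.tendsto_log_atTop
  have e0 := Filter.eventually_ge_atTop (2 : ℝ)
  have e1 := t1.eventually_ge_atTop 2
  have e2 := (Real.tendsto_log_atTop.comp t1).eventually_ge_atTop 1
  have e3 := ((tendsto_rpow_atTop (show 0 < ε / 4 by positivity)).comp t1).eventually_ge_atTop (8 / η)
  have e4 := ((tendsto_rpow_atTop (show 0 < 1 + ε / 2 by positivity)).comp t1).eventually_ge_atTop y₀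
  have e5 := t1.eventually_ge_atTop m₀
  have e6 := ((tendsto_rpow_atTop (show 0 < 1 + ε by positivity)).comp t1).eventually_ge_atTop
    (1 / (3 * η / 32))
  have e7 := t1.eventually ((isLittleO_log_rpow_atTop (show 0 < ε / 2 by positivity)).bound
    (show (0 : ℝ) < 1 / 16 by norm_num))
  set c : ℝ := η / (128 * (|C| + 1)) with hc
  have hcpos : 0 < c := by positivity
  have e8 := t1.eventually ((isLittleO_log_rpow_atTop (show 0 < ε / 2 by positivity)).bound
    (show (0 : ℝ) < √c by positivity))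
  obtain ⟨X₀, hX₀⟩ := Filter.eventually_atTop.mp
    (e0.and (e1.and (e2.and (e3.and (e4.and (e5.and (e6.and (e7.and e8))))))))
  refine ⟨X₀, fun X hX => ?_⟩
  obtain ⟨h0, h1, h2, h3, h4, h5, h6, h7, h8⟩ := hX₀ X hX
  simp only [Function.comp] at h2 h3 h4 h6
  set L := Real.log X with hL
  have hL0 : 0 < L := by linarith
  have hlogL : 0 ≤ Real.log L := by linarith
  rw [Real.norm_of_nonneg hlogL, Real.norm_of_nonneg (by positivity)] at h7 h8
  refine ⟨h0, h1, ?_, h3, h4, ?_, h5, ?_, ?_⟩
  · have := Real.log_le_sub_one_of_pos (show 0 < X by linarith)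
    linarith
  · have h9 : Real.log (L ^ (1 + ε / 2)) = (1 + ε / 2) * Real.log L := Real.log_rpow hL0 _
    rw [h9]
    have h10 : 0 < (1 + ε / 2) * Real.log L := by positivity
    rw [le_div_iff₀ (by linarith)]
    have h11 : L ^ (1 + ε / 2) = L * L ^ (ε / 2) := by
      rw [Real.rpow_add hL0, Real.rpow_one]
    rw [h11]
    have h12 : (1 + ε / 2) * Real.log L ≤ 2 * Real.log L :=
      mul_le_mul_of_nonneg_right (by linarith) hlogL
    have h13 : 16 * Real.log L ≤ L ^ (ε / 2) := by linarith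
    calc 2 * L * (4 * ((1 + ε / 2) * Real.log L)) ≤ 2 * L * (4 * (2 * Real.log L)) := by
          apply mul_le_mul_of_nonneg_left _ (by linarith)
          linarith
      _ = L * (16 * Real.log L) := by ring
      _ ≤ L * L ^ (ε / 2) := mul_le_mul_of_nonneg_left h13 hL0.le
  · rw [div_le_iff₀ (by positivity)] at h6
    linarith
  · have hlog2 : Real.log 2 ≤ 1 := by
      have := Real.log_le_sub_one_of_pos (show (0 : ℝ) < 2 by norm_num)
      linarith
    have hlog20 : 0 ≤ Real.log 2 := Real.log_nonneg (by norm_num)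
    have hX0 : X ≠ 0 := by linarith
    have h9 : Real.log (2 * X) = Real.log 2 + L := Real.log_mul (by norm_num) hX0
    have h10 : Real.log (2 * X) ≤ 2 * L := by linarith
    have h11 : 1 ≤ Real.log (2 * X) := by linarith
    have h12 : 0 ≤ Real.log (Real.log (2 * X)) := Real.log_nonneg h11
    have h13 : Real.log (Real.log (2 * X)) ≤ 2 * Real.log L := by
      calc Real.log (Real.log (2 * X)) ≤ Real.log (2 * L) :=
            Real.log_le_log (by linarith) h10
        _ = Real.log 2 + Real.log L := Real.log_mul (by norm_num) hL0.ne'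
        _ ≤ 2 * Real.log L := by linarith
    have h14 : Real.log (2 * X) ^ 2 * Real.log (Real.log (2 * X)) ^ 2 ≤
        16 * (L ^ 2 * Real.log L ^ 2) := by
      calc Real.log (2 * X) ^ 2 * Real.log (Real.log (2 * X)) ^ 2 ≤ (2 * L) ^ 2 * (2 * Real.log L) ^ 2 := by
            apply mul_le_mul
            · exact pow_le_pow_left₀ (by linarith) h10 2
            · exact pow_le_pow_left₀ h12 h13 2
            · positivity
            · positivity
        _ = 16 * (L ^ 2 * Real.log L ^ 2) := by ring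
    have h15 : Real.log L ^ 2 ≤ c * L ^ ε := by
      calc Real.log L ^ 2 ≤ (√c * L ^ (ε / 2)) ^ 2 := pow_le_pow_left₀ hlogL h8 2
        _ = c * (L ^ (ε / 2) * L ^ (ε / 2)) := by
            rw [mul_pow, Real.sq_sqrt hcpos.le]; ring
        _ = c * L ^ ε := by
            rw [← Real.rpow_add hL0]
            congr 2
            ring
    have h16 : L ^ (2 + ε) = L ^ 2 * L ^ ε := by
      rw [Real.rpow_add hL0]
      congr 1
      exact Real.rpow_two L
    have hLε : 0 < L ^ ε := by positivity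
    have hL2 : 0 < L ^ 2 := by positivity
    calc C * (Real.log (2 * X) ^ 2 * Real.log (Real.log (2 * X)) ^ 2)
        ≤ |C| * (Real.log (2 * X) ^ 2 * Real.log (Real.log (2 * X)) ^ 2) :=
          mul_le_mul_of_nonneg_right (le_abs_self C) (by positivity)
      _ ≤ |C| * (16 * (L ^ 2 * Real.log L ^ 2)) := mul_le_mul_of_nonneg_left h14 (abs_nonneg C)
      _ ≤ |C| * (16 * (L ^ 2 * (c * L ^ ε))) := by
          apply mul_le_mul_of_nonneg_left _ (abs_nonneg C)
          apply mul_le_mul_of_nonneg_left _ (by norm_num)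
          exact mul_le_mul_of_nonneg_left h15 hL2.le
      _ = (16 * |C| * c) * (L ^ 2 * L ^ ε) := by ring
      _ < (η / 8) * (L ^ 2 * L ^ ε) := by
          apply mul_lt_mul_of_pos_right _ (by positivity)
          rw [hc]
          have hC1 : 0 < |C| + 1 := by positivity
          have : 16 * |C| * (η / (128 * (|C| + 1))) = (η / 8) * (|C| / (|C| + 1)) := by
            field_simp
            ring
          rw [this]
          have h17 : |C| / (|C| + 1) < 1 := by
            rw [div_lt_one hC1]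
            linarith
          calc η / 8 * (|C| / (|C| + 1)) < η / 8 * 1 :=
                mul_lt_mul_of_pos_left h17 (by positivity)
            _ = η / 8 := by ring
      _ = (η / 8) * L ^ (2 + ε) := by rw [h16]


open Classical in
/-- `progressions` with `ε ≤ 1` -/
theorem P5_main (ε κ δ η : ℝ) (hε : 0 < ε) (hε1 : ε ≤ 1) (hκ : 0 < κ) (hδ : 0 < δ) (hη : 0 < η) :
    ∃ X₀ : ℝ, ∀ X : ℝ, X₀ ≤ X → ∀ (g r : ℤ) (H : ℕ), r ≠ 0 → |(g : ℝ)| ≤ X →
      |(r : ℝ)| * H ≤ X → Real.log X ^ (1 + ε) ≤ H →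
      (((range H).filter (fun j : ℕ => Bad κ δ X (g + j * r))).card : ℝ) < η * H := by
  obtain ⟨C, X1, hX1⟩ := bilinear (ε / 8) (κ / 2) δ (η / 4) (by positivity) (by positivity) hδ
    (by positivity)
  obtain ⟨y₀, hy₀⟩ := cheb_lower
  obtain ⟨X2, hX2⟩ := P5_asym ε η C y₀ (32 / η + 1) hε hε1 hη
  refine ⟨max X1 X2, fun X hX g r H hr hg hrH hH => ?_⟩
  obtain ⟨h2X, h2L, hLX, hLη, hLy, hLp, hLm, hL1, hfin⟩ := hX2 X (le_trans (le_max_right _ _) hX)
  have hXX1 : X1 ≤ 2 * X := by
    have := le_trans (le_max_left X1 X2) hX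
    linarith
  by_contra hcon
  rw [not_lt] at hcon
  set L := Real.log X with hL
  have hL0 : 0 < L := by linarith
  set S := (range H).filter (fun j : ℕ => Bad κ δ X (g + j * r)) with hS
  set y : ℝ := L ^ (1 + ε / 2) with hy
  have hy0 : 0 < y := by positivity
  set M : ℕ := ⌊y⌋₊ with hM
  have hMy : (M : ℝ) ≤ y := Nat.floor_le hy0.le
  set n : ℕ := ⌈L ^ (ε / 4)⌉₊ with hn
  have hLe1 : 1 ≤ L ^ (ε / 4) := Real.one_le_rpow (by linarith) (by positivity)
  have hn1 : 1 ≤ n := by
    rw [hn, Nat.one_le_ceil_iff]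
    linarith
  have hnR : (1 : ℝ) ≤ n := by exact_mod_cast hn1
  have hnlt : (n : ℝ) < L ^ (ε / 4) + 1 := Nat.ceil_lt_add_one (by linarith)
  have hnge : L ^ (ε / 4) ≤ n := Nat.le_ceil _
  have hn2 : (n : ℝ) ≤ 2 * L ^ (ε / 4) := by linarith
  have hHR : (0 : ℝ) < H := lt_of_lt_of_le (by positivity) hH
  have hpow : L ^ (ε / 4) * y * L ^ (ε / 4) = L ^ (1 + ε) := by
    rw [hy, ← Real.rpow_add hL0, ← Real.rpow_add hL0]
    congr 1
    ring
  have hnM : (n : ℝ) * M ≤ η * H / 4 := by
    calc (n : ℝ) * M ≤ 2 * L ^ (ε / 4) * y := mul_le_mul hn2 hMy (Nat.cast_nonneg _) (by positivity)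
      _ ≤ η / 4 * (L ^ (ε / 4) * y * L ^ (ε / 4)) := by
          have : 2 ≤ η / 4 * L ^ (ε / 4) := by
            rw [div_le_iff₀ hη] at hLη
            linarith
          have h3 : 0 ≤ L ^ (ε / 4) * y := by positivity
          calc 2 * L ^ (ε / 4) * y = 2 * (L ^ (ε / 4) * y) := by ring
            _ ≤ (η / 4 * L ^ (ε / 4)) * (L ^ (ε / 4) * y) := mul_le_mul_of_nonneg_right this h3
            _ = η / 4 * (L ^ (ε / 4) * y * L ^ (ε / 4)) := by ring
      _ ≤ η / 4 * H := by
          rw [hpow]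
          exact mul_le_mul_of_nonneg_left hH (by positivity)
      _ = η * H / 4 := by ring
  -- coprime parts
  obtain ⟨s, t, hst⟩ : ∃ s t : ℤ, g = Int.gcd g r * s ∧ r = Int.gcd g r * t ∧ IsCoprime s t := by
    have h0 : (Int.gcd g r : ℤ) ≠ 0 := by
      have : Int.gcd g r ≠ 0 := by
        rw [Ne, Int.gcd_eq_zero_iff]
        exact fun h => hr h.2
      exact_mod_cast this
    obtain ⟨s, hs⟩ := Int.gcd_dvd_left (a := g) (b := r)
    obtain ⟨t, ht⟩ := Int.gcd_dvd_right (a := g) (b := r)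
    refine ⟨s, t, hs, ht, Int.gcdA g r, Int.gcdB g r, ?_⟩
    have h1 := Int.gcd_eq_gcd_ab g r
    have h2 : (Int.gcd g r : ℤ) * (Int.gcdA g r * s + Int.gcdB g r * t - 1) = 0 := by
      linear_combination (-1 : ℤ) * h1 + (-Int.gcdA g r) * hs + (-Int.gcdB g r) * ht
    rcases mul_eq_zero.mp h2 with h3 | h3
    · exact absurd h3 h0
    · linarith
  obtain ⟨hgs, hrt, hcop⟩ := hst
  set h : ℤ := (Int.gcd g r : ℤ) with hh
  have hh0 : h ≠ 0 := by
    intro h0
    apply hr
    rw [hrt, h0, zero_mul]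
  have ht0 : t ≠ 0 := by
    intro h0
    apply hr
    rw [hrt, h0, mul_zero]
  -- the primes
  set m₀ : ℕ := ⌈32 / η⌉₊ with hm₀
  set Q := (Nat.primesBelow ⌈y⌉₊).filter (fun m => m₀ < m) with hQ
  have hQp : ∀ m ∈ Q, m.Prime ∧ m ≤ M ∧ 32 / η < m := by
    intro m hm
    rw [hQ, mem_filter, Nat.mem_primesBelow] at hm
    refine ⟨hm.1.2, ?_, ?_⟩
    · rw [hM, Nat.le_floor_iff hy0.le]
      exact (Nat.lt_ceil.mp hm.1.1).le
    · exact lt_of_le_of_lt (Nat.le_ceil _) (by exact_mod_cast hm.2)
  have hQc : L ≤ Q.card := by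
    have h1 := hy₀ y hLy
    have h2 : primeCount y ≤ Q.card + m₀ := by
      rw [primeCount_eq]
      have h3 := Finset.card_filter_add_card_filter_not (s := Nat.primesBelow ⌈y⌉₊) (fun m => m₀ < m)
      have h4 : ((Nat.primesBelow ⌈y⌉₊).filter (fun m => ¬ m₀ < m)).card ≤ m₀ := by
        have : (Nat.primesBelow ⌈y⌉₊).filter (fun m => ¬ m₀ < m) ⊆ Icc 1 m₀ := by
          intro m hm
          rw [mem_filter, Nat.mem_primesBelow] at hm
          rw [mem_Icc]
          exact ⟨hm.1.2.one_lt.le, not_lt.mp hm.2⟩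
        exact (Finset.card_le_card this).trans (by simp)
      have h5 : Q.card + ((Nat.primesBelow ⌈y⌉₊).filter (fun m => ¬ m₀ < m)).card =
        (Nat.primesBelow ⌈y⌉₊).card := h3
      omega
    have h3 : (primeCount y : ℝ) ≤ Q.card + m₀ := by exact_mod_cast h2
    have h4 : (m₀ : ℝ) < 32 / η + 1 := Nat.ceil_lt_add_one (by positivity)
    linarith
  -- the index set
  let F : ℕ → Finset ℕ := fun m => (range H).filter (fun i =>
    (η / 4) * n ≤ (((range n).filter (fun j => i + j * m ∈ S)).card : ℝ) ∧ ¬ (m : ℤ) ∣ s + i * t)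
  have hF : ∀ m ∈ Q, (η / 8) * H ≤ ((F m).card : ℝ) := by
    intro m hm
    obtain ⟨hmp, hmM, hm32⟩ := hQp m hm
    have h1 := sub_ap S H n M m η hη (filter_subset _ _) hcon hnM hmM hn1
    have h2 := few_i s t hcop m H hmp
    have h3 : (range H).filter (fun i => (η / 4) * n ≤
        (((range n).filter (fun j => i + j * m ∈ S)).card : ℝ)) ⊆
        F m ∪ (range H).filter (fun i : ℕ => (m : ℤ) ∣ s + i * t) := by
      intro i hi
      rw [mem_filter] at hi
      rw [mem_union, mem_filter, mem_filter]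
      by_cases hd : (m : ℤ) ∣ s + i * t
      · exact Or.inr ⟨hi.1, hd⟩
      · exact Or.inl ⟨hi.1, hi.2, hd⟩
    have h4 := (Finset.card_le_card h3).trans (Finset.card_union_le _ _)
    have h5 : (((range H).filter (fun i => (η / 4) * n ≤
        (((range n).filter (fun j => i + j * m ∈ S)).card : ℝ))).card : ℝ) ≤
        (F m).card + ((range H).filter (fun i : ℕ => (m : ℤ) ∣ s + i * t)).card := by
      exact_mod_cast h4
    have hm0 : (0 : ℝ) < m := by exact_mod_cast hmp.pos
    have h6 : (H : ℝ) / m ≤ η / 32 * H := by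
      rw [div_le_iff₀ hm0]
      have h7 : 32 < m * η := by
        rw [div_lt_iff₀ hη] at hm32
        exact hm32
      have h9 : 32 * (H : ℝ) ≤ m * η * H := mul_le_mul_of_nonneg_right h7.le hHR.le
      linarith
    have h8 : 1 ≤ 3 * η / 32 * H := by
      refine hL1.trans ?_
      exact mul_le_mul_of_nonneg_left hH (by positivity)
    linarith
  let I : Finset (Σ _ : ℕ, ℕ) := Q.sigma F
  have hIc : (η / 8) * H * L ≤ (I.card : ℝ) := by
    have h1 : I.card = ∑ m ∈ Q, (F m).card := card_sigma _ _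
    rw [h1]
    push_cast
    calc (η / 8) * H * L ≤ (η / 8) * H * Q.card := mul_le_mul_of_nonneg_left hQc (by positivity)
      _ = ∑ m ∈ Q, ((η / 8) * H : ℝ) := by rw [sum_const, nsmul_eq_mul]; ring
      _ ≤ _ := sum_le_sum hF
  let φ : (Σ _ : ℕ, ℕ) → ℤ × ℤ := fun z => ((z.1 : ℤ) * r, g + z.2 * r)
  have hφ : ∀ z ∈ I, ∀ z' ∈ I, z ≠ z' → cr (φ z) (φ z') ≠ 0 := by
    rintro ⟨m, i⟩ hz ⟨m', i'⟩ hz' hne
    have hz1 := mem_sigma.mp hz
    have hz2 := mem_sigma.mp hz'
    have hmp := (hQp m hz1.1).1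
    have hmp' := (hQp m' hz2.1).1
    have hnd := (mem_filter.mp hz1.2).2.2
    have := ap_vectors h s t hh0 ht0 m m' i i' hmp hmp' hnd (by
      intro he
      apply hne
      rw [Prod.mk.injEq] at he
      rw [he.1, he.2])
    simp only [φ]
    rw [← hrt] at this
    rw [← hgs] at this
    exact this
  have hφinj : Set.InjOn φ (I : Set (Σ _ : ℕ, ℕ)) := by
    intro z hz z' hz' he
    by_contra hne
    apply hφ z hz z' hz' hne
    rw [he]
    simp [cr, mul_comm]
  let A : Finset (ℤ × ℤ) := I.image φ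
  have hAc : A.card = I.card := card_image_of_injOn hφinj
  let B : Finset (ℤ × ℤ) := (range n).image (fun j : ℕ => ((j : ℤ), (1 : ℤ)))
  have hBinj : Function.Injective (fun j : ℕ => ((j : ℤ), (1 : ℤ))) := by
    intro j j' he
    simp only [Prod.mk.injEq] at he
    exact_mod_cast he.1
  have hBc : B.card = n := by
    rw [card_image_of_injective _ hBinj, card_range]
  have hrX : |(r : ℝ)| * H ≤ X := hrH
  have hrabs : (0 : ℝ) ≤ |(r : ℝ)| := abs_nonneg _
  have hMH : (M : ℝ) ≤ H := by
    refine hMy.trans (le_trans ?_ hH)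
    exact Real.rpow_le_rpow_of_exponent_le (by linarith) (by linarith)
  have hA : ∀ a ∈ A, |(a.1 : ℝ)| ≤ 2 * X ∧ |(a.2 : ℝ)| ≤ 2 * X := by
    intro a ha
    obtain ⟨⟨m, i⟩, hz, rfl⟩ := mem_image.mp ha
    have hz1 := mem_sigma.mp hz
    have hmM : (m : ℝ) ≤ M := by exact_mod_cast (hQp m hz1.1).2.1
    have hiH : (i : ℝ) ≤ H := by exact_mod_cast (mem_range.mp (mem_filter.mp hz1.2).1).le
    simp only [φ]
    push_cast
    constructor
    · rw [abs_mul, abs_of_nonneg (Nat.cast_nonneg m)]
      have : (m : ℝ) * |(r : ℝ)| ≤ H * |(r : ℝ)| := mul_le_mul_of_nonneg_right (hmM.trans hMH) hrabs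
      linarith
    · have h1 : |(g : ℝ) + i * r| ≤ |(g : ℝ)| + |(i : ℝ) * r| := abs_add_le _ _
      have hi0 : |(i : ℝ)| = i := abs_of_nonneg (Nat.cast_nonneg i)
      rw [abs_mul, hi0] at h1
      have : (i : ℝ) * |(r : ℝ)| ≤ H * |(r : ℝ)| := mul_le_mul_of_nonneg_right hiH hrabs
      linarith
  have hL4 : L ^ (ε / 4) ≤ L := by
    calc L ^ (ε / 4) ≤ L ^ (1 : ℝ) := Real.rpow_le_rpow_of_exponent_le (by linarith) (by linarith)
      _ = L := Real.rpow_one L
  have hB : ∀ b ∈ B, |(b.1 : ℝ)| ≤ 2 * X ∧ |(b.2 : ℝ)| ≤ 2 * X := by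
    intro b hb
    obtain ⟨j, hj, rfl⟩ := mem_image.mp hb
    have hjn : (j : ℝ) ≤ n := by exact_mod_cast (mem_range.mp hj).le
    simp only
    push_cast
    constructor
    · rw [abs_of_nonneg (Nat.cast_nonneg j)]
      linarith
    · rw [abs_one]
      linarith
  have hA2 : ∀ a ∈ A, ∀ a' ∈ A, a ≠ a' → cr a a' ≠ 0 := by
    intro a ha a' ha' hne
    obtain ⟨z, hz, rfl⟩ := mem_image.mp ha
    obtain ⟨z', hz', rfl⟩ := mem_image.mp ha'
    exact hφ z hz z' hz' (fun h => hne (by rw [h]))
  have hB2 : ∀ b ∈ B, ∀ b' ∈ B, b ≠ b' → cr b b' ≠ 0 := by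
    intro b hb b' hb' hne
    obtain ⟨j, hj, rfl⟩ := mem_image.mp hb
    obtain ⟨j', hj', rfl⟩ := mem_image.mp hb'
    intro h0
    apply hne
    simp only [cr] at h0
    have : (j : ℤ) = j' := by linarith
    rw [this]
  have hBsize : Real.log (2 * X) ^ (ε / 8) ≤ B.card := by
    rw [hBc]
    refine le_trans ?_ hnge
    have hX0 : X ≠ 0 := by linarith
    have h1 : Real.log (2 * X) = Real.log 2 + L := Real.log_mul (by norm_num) hX0
    have h2 : Real.log 2 ≤ 1 := by
      have := Real.log_le_sub_one_of_pos (show (0 : ℝ) < 2 by norm_num)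
      linarith
    have h3 : 0 ≤ Real.log 2 := Real.log_nonneg (by norm_num)
    have h5 : L * 2 ≤ L * L := mul_le_mul_of_nonneg_left h2L hL0.le
    have h4 : Real.log (2 * X) ≤ L ^ 2 := by
      rw [sq]
      linarith
    calc Real.log (2 * X) ^ (ε / 8) ≤ (L ^ 2) ^ (ε / 8) :=
          Real.rpow_le_rpow (by linarith) h4 (by positivity)
      _ = L ^ (ε / 4) := by
          rw [← Real.rpow_natCast, ← Real.rpow_mul hL0.le]
          congr 1
          push_cast
          ring
  have hbad : ∀ a ∈ A, (η / 4) * B.card ≤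
      ((B.filter (fun b => Bad (κ / 2) δ (2 * X) (dt a b))).card : ℝ) := by
    intro a ha
    obtain ⟨⟨m, i⟩, hz, rfl⟩ := mem_image.mp ha
    have hz1 := mem_sigma.mp hz
    have hcnt := (mem_filter.mp hz1.2).2.1
    rw [hBc]
    refine hcnt.trans ?_
    have : ((range n).filter (fun j => i + j * m ∈ S)).card ≤
        (B.filter (fun b => Bad (κ / 2) δ (2 * X) (dt (φ ⟨m, i⟩) b))).card := by
      apply Finset.card_le_card_of_injOn (fun j : ℕ => ((j : ℤ), (1 : ℤ)))
      · intro j hj
        have hj1 := mem_filter.mp (mem_coe.mp hj)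
        have hjS := (mem_filter.mp hj1.2).2
        apply mem_coe.mpr
        rw [mem_filter]
        refine ⟨mem_image_of_mem _ hj1.1, ?_⟩
        have hd := bad_double κ δ X hκ h2X _ hjS
        have he : dt (φ ⟨m, i⟩) ((j : ℤ), (1 : ℤ)) = g + ((i + j * m : ℕ) : ℤ) * r := by
          simp only [dt, φ]
          push_cast
          ring
        rw [he]
        exact hd
      · exact hBinj.injOn
    exact_mod_cast this
  have hmain := hX1 (2 * X) hXX1 A B hA hB hA2 hB2 hBsize hbad
  rw [hAc] at hmain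
  have h1 : (η / 8) * L ^ (2 + ε) ≤ (η / 8) * H * L := by
    have h2 : L ^ (2 + ε) = L ^ (1 + ε) * L := by
      rw [show (2 + ε) = (1 + ε) + 1 by ring, Real.rpow_add hL0, Real.rpow_one]
    rw [h2]
    have h3 : L ^ (1 + ε) * L ≤ H * L := mul_le_mul_of_nonneg_right hH hL0.le
    have h4 : 0 < η / 8 := by positivity
    calc (η / 8) * (L ^ (1 + ε) * L) ≤ (η / 8) * (H * L) := mul_le_mul_of_nonneg_left h3 h4.le
      _ = (η / 8) * H * L := by ring
  linarith

open Classical in
/-- PROGRESSIONS. In every arithmetic progression `g + j r`, `0 ≤ j < H`, with arbitrary common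
difference `r ≠ 0`, `|g| ≤ X`, `|r| H ≤ X`, of length `H ≥ (log X)^(1+ε)`, fewer than `η H` terms are
bad.

PROOF. We may assume `η ≤ 1`, `ε ≤ 1`. Suppose at least `η H` terms are bad, `S` = their indices.
`L = log X`, `n = ⌈L^(ε/4)⌉₊`, `M = ⌊η H / (4 n)⌋₊` (`n M ≤ η H/4`; `M ≥ L^(1+ε/2)` for large `X`).
`h = gcd(g, r) ≠ 0`, `g = h s`, `r = h t`. Let `I` be the set of pairs `(i, m)`, `m` prime,
`m₀ < m ≤ M`, `m₀ = ⌈32/η⌉₊`, `i < H`, `m ∤ s + i t`, such that at least `(η/4) n` of the `j < n` have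
`i + j m ∈ S`. For each such `m` there are at least `(η/4)H - H/m - 1 ≥ (η/8) H` values of `i`
(`sub_ap`, `few_i`). The number of primes in `(m₀, M]` is at least `M/(4 log M) - m₀ ≥ L` (indeed
`≥ L^(1+ε/4)`; `cheb_lower`), so `|I| ≥ (η/8) H L^(1+ε/4) ≥ (η/8) L^(2 + 5ε/4)`. Let
`A` = image of `I` under `(i, m) ↦ (m r, g + i r)` (injective and pairwise non-proportional by
`ap_vectors`), `B` = image of `range n` under `j ↦ (j, 1)` (`cr = j - j'`). `dt a b = g + (i + j m) r`,
entries at most `2X` (`m |r| ≤ H |r| ≤ X`, `|g + i r| ≤ 2X`, `n ≤ X`). By `bad_double` all the hypotheses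
of `bilinear` hold at scale `2X` with `κ/2`, `η/4`, exponent `ε/8` (`(log 2X)^(ε/8) ≤ n`). So
`|I| = |A| ≤ C (log 2X)² (log log 2X)²`, contradiction for large `X`. -/
theorem progressions (ε κ δ η : ℝ) (hε : 0 < ε) (hκ : 0 < κ) (hδ : 0 < δ) (hη : 0 < η) :
    ∃ X₀ : ℝ, ∀ X : ℝ, X₀ ≤ X → ∀ (g r : ℤ) (H : ℕ), r ≠ 0 → |(g : ℝ)| ≤ X →
      |(r : ℝ)| * H ≤ X → Real.log X ^ (1 + ε) ≤ H →
      (((range H).filter (fun j : ℕ => Bad κ δ X (g + j * r))).card : ℝ) < η * H := by
  obtain ⟨X1, hX1⟩ := P5_main (min ε 1) κ δ η (lt_min hε one_pos) (min_le_right _ _) hκ hδ hη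
  refine ⟨max X1 3, fun X hX g r H hr hg hrH hH => ?_⟩
  apply hX1 X (le_trans (le_max_left _ _) hX) g r H hr hg hrH
  refine le_trans ?_ hH
  apply Real.rpow_le_rpow_of_exponent_le
  · have h3 : (3 : ℝ) ≤ X := le_trans (le_max_right _ _) hX
    have he : Real.exp 1 ≤ X := by
      have := Real.exp_one_lt_d9
      linarith
    have := Real.log_le_log (Real.exp_pos 1) he
    rwa [Real.log_exp] at this
  · have := min_le_left ε 1
    linarith

end T9
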