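import Pool.Agent.W_aaa0df_t9.P4
import Pool.Agent.W_aaa0df_t9.AP

/-!
# T9, P5b: progressions, from `bilinear` through `AP.lean`
-/

set_option autoImplicit false

namespace T9

open Finset MPaaa0df

theorem mstatement : MStatement := by
  intro ε κ δ η hε hκ hδ hη
  obtain ⟨C, X₀, h⟩ := bilinear ε κ δ η hε hκ hδ hη
  refine ⟨C, X₀, fun X hX A B hA hB hA2 hB2 hBc hbad => ?_⟩
  have := h X hX A B hA hB hA2 hB2 hBc hbad
  rw [← mul_assoc] at this
  exact this

open Classical in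
/-- In every arithmetic progression `g + s r`, `0 ≤ s < H`, with arbitrary common
difference `r ≠ 0`, all terms at most `X` in absolute value, of length `H ≥ (log X)^(1+ε)`, at most
`η H` terms are bad. -/
theorem progressions_strong (ε κ δ η : ℝ) (hε : 0 < ε) (hκ : 0 < κ) (hδ : 0 < δ) (hη : 0 < η) :
    ∃ X₀ : ℝ, ∀ X : ℝ, X₀ ≤ X → ∀ g r : ℤ, r ≠ 0 → ∀ H : ℕ, Real.log X ^ (1 + ε) ≤ H →
      (∀ s : ℕ, s < H → |((g + s * r : ℤ) : ℝ)| ≤ X) →
      (((range H).filter (fun s : ℕ => Bad κ δ X (g + s * r))).card : ℝ) ≤ η * H :=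
  ap_of_M mstatement ε κ δ η hε hκ hδ hη

end T9
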